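import Pool.Agent.W251.EG.AllC0
import Pool.Agent.W940.EG.Avx
import Pool.Agent.W293.EG.Finl

/-!
Project EG (helper78): assembly (helper251): almost all scales, all quadratic polynomials.
-/

set_option autoImplicit false

namespace Pool.Agent.W251.EG

open Pool.Agent.W78.GA (Qd)
open Pool.Agent.W78.EG

variable {t c : ℤ} {f : ℕ} {χ : DirichletCharacter ℂ f}

theorem avxG (hF : Fd t c f χ) : S_AVX t c χ :=
  Pool.Agent.W940.EG.avx hF (zxG hF) (perxG hF) (dcpG hF) (lossG hF) (pcntG hF)

theorem mainyG (hF : Fd t c f χ) : S_MAINY t c χ := mainyG' hF (avxG hF)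

theorem finwG (hF : Fd t c f χ) : S_FINW t c := finwG' hF (btmxG hF) (avxG hF)

theorem finqG (hF : Fd t c f χ) : S_FINQ t c := finqG' hF (finwG hF)

theorem finlG (hF : Fd t c f χ) : S_FINL t c :=
  Pool.Agent.W293.EG.finl hF (finqG hF) (lowqG hF) (scntG hF)

end Pool.Agent.W251.EG
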