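import Pool.Agent.W251.EG.All
import Pool.Agent.W251.EG.TS
import Pool.Agent.W78.GA.All

/-!
Project EG (helper251): assembly for general completely multiplicative functions.
-/

set_option autoImplicit false

namespace Pool.Agent.W251.EG

open Pool.Agent.W78.GA (Qd)
open Pool.Agent.W78.EG

variable {t c : ℤ} {f : ℕ} {χ : DirichletCharacter ℂ f}

theorem twG (hF : Fd t c f χ) : S_TWc t c χ :=
  twc hF (mainyG hF) (corrG hF) (scntG hF) (btaG hF)

theorem tsG (hF : Fd t c f χ) : S_TSc t c χ :=
  tsc (twG hF) (tailc hF (Pool.Agent.W78.GA.sqb (hDG hF)) (corrG hF))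

end Pool.Agent.W251.EG
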