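import Pool.Agent.W78.EG.Defs

/-!
Project EG (helper78): assembly (helper251), small steps.
-/

set_option autoImplicit false

namespace Pool.Agent.W251.EG

open Finset Filter
open Pool.Agent.W78.GA (Qd nm prim dt ip ball pball)
open Pool.Agent.W78.EG
open Pool.Agent.W251.GX (Cm)

variable {t c : ℤ} {f : ℕ}

lemma cm_norm {N : ℕ} {F : Qd t c → ℂ} (h : Cm N F) (z : Qd t c) : ‖F z‖ = 1 :=
  Complex.norm_eq_one_of_pow_eq_one (h.pow z) (Nat.one_le_iff_ne_zero.1 h.pos)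

/-- restriction to a residue class -/
theorem mrs_cl {A : Qd t c → ℝ} (h : Mrs A) {q : ℕ} (hq : 1 ≤ q) (β : Qd t c) : Mrs (cl q β A) := by
  classical
  intro M S hM hS σ hσ hσ1 ε hε
  have hper : Per (M * q) (fun z => S z ∧ ((q : ℤ) ∣ z.re - β.re ∧ (q : ℤ) ∣ z.im - β.im)) := by
    intro z z' h1 h2
    have hMd : (M : ℤ) ∣ ((M * q : ℕ) : ℤ) := ⟨q, by push_cast; ring⟩
    have hqd : (q : ℤ) ∣ ((M * q : ℕ) : ℤ) := ⟨M, by push_cast; ring⟩
    have e1 := hS z z' (hMd.trans h1) (hMd.trans h2)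
    have e2 := hqd.trans h1
    have e3 := hqd.trans h2
    have e4 : (q : ℤ) ∣ z.re - β.re ↔ (q : ℤ) ∣ z'.re - β.re := by
      have : z.re - β.re = (z.re - z'.re) + (z'.re - β.re) := by ring
      rw [this]
      exact dvd_add_right e2
    have e5 : (q : ℤ) ∣ z.im - β.im ↔ (q : ℤ) ∣ z'.im - β.im := by
      have : z.im - β.im = (z.im - z'.im) + (z'.im - β.im) := by ring
      rw [this]
      exact dvd_add_right e3
    exact and_congr e1 (and_congr e4 e5)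
  obtain ⟨H, hH, X₀, h3⟩ := h (M * q) _ (Nat.mul_pos hM hq) hper σ hσ hσ1 ε hε
  refine ⟨H, hH, X₀, fun X hX n hn hnX => ?_⟩
  refine le_trans (le_of_eq ?_) (h3 X hX n hn hnX)
  refine sum_congr rfl fun j _ => ?_
  congr 1
  unfold cl
  rw [← sum_filter, filter_filter]
  refine sum_congr ?_ fun _ _ => rfl
  ext z
  simp only [mem_filter]
  refine and_congr_right fun _ => ?_
  constructor
  · rintro ⟨⟨h4, h5, h6⟩, h7⟩
    exact ⟨h4, ⟨h5, h7⟩, h6⟩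
  · rintro ⟨h4, ⟨h5, h7⟩, h6⟩
    exact ⟨⟨h4, h5, h6⟩, h7⟩

lemma cl_le {A : Qd t c → ℝ} (h : ∀ z, |A z| ≤ 1) (q : ℕ) (β : Qd t c) (z : Qd t c) : |cl q β A z| ≤ 1 := by
  classical
  unfold cl
  split_ifs
  · exact h z
  · simp

/-- the bilinear estimate on the residue classes -/
theorem bt_cl {χ : DirichletCharacter ℂ f} (h1 : S_MRSX t c) (h2 : S_BTMX t c χ)
    (h3 : S_BTX t c χ) {N : ℕ} {F : Qd t c → ℂ} (hF : Apd N F) {q : ℕ}
    (hq : 1 ≤ q) (β : Qd t c) : Bt χ (cl q β (fun z => (F z).re)) ∧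
    Bt χ (cl q β (fun z => (F z).im)) := by
  obtain ⟨h4, h5⟩ := h1 N F hF
  have h6 : ∀ z, |(F z).re| ≤ 1 := fun z =>
    (Complex.abs_re_le_norm _).trans (cm_norm hF.cm z).le
  have h7 : ∀ z, |(F z).im| ≤ 1 := fun z =>
    (Complex.abs_im_le_norm _).trans (cm_norm hF.cm z).le
  exact ⟨h3 _ (cl_le h6 q β) (h2 _ (cl_le h6 q β) (mrs_cl h4 hq β)),
    h3 _ (cl_le h7 q β) (h2 _ (cl_le h7 q β) (mrs_cl h5 hq β))⟩

end Pool.Agent.W251.EG
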