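import Pool.Agent.W78.EC.All
import Pool.Agent.W251.EX.AllA
import Pool.Agent.W251.EG.Glue
import Pool.Agent.W290.EG.Pid
import Pool.Agent.W657.EG.LCon
import Pool.Agent.W240.EG.Lnv
import Pool.Agent.W357.EG.Pntc
import Pool.Agent.W584.EG.Lmx
import Pool.Agent.W738.EG.PNTX
import Pool.Agent.W496.EG.Mrx
import Pool.Agent.W60.EG.MW0X
import Pool.Agent.W12.EG.Mrsx
import Pool.Agent.W588.EG.Swc
import Pool.Agent.W150.EG.LS4
import Pool.Agent.W699.EG.LsvD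
import Pool.Agent.W164.EG.Psid
import Pool.Agent.W701.EG.Gvl
import Pool.Agent.W804.EG.B6
import Pool.Agent.W239.EG.GG0
import Pool.Agent.W131.EG.JB
import Pool.Agent.W179.EG.BTX

/-!
Project EG (helper78): assembly (helper251), part A: the bilinear estimate for `b^Ω` on residue
classes.
-/

set_option autoImplicit false

namespace Pool.Agent.W251.EG

open Pool.Agent.W78.GA (Qd)
open Pool.Agent.W78.EG

variable {t c : ℤ} {f : ℕ} {χ : DirichletCharacter ℂ f}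

theorem hDG (hF : Fd t c f χ) : t ^ 2 < 4 * c := by
  have h1 := hF.disc
  have h2 : (3 : ℤ) ≤ f := by exact_mod_cast hF.three
  linarith

theorem lconG (hF : Fd t c f χ) : S_LCON t c := Pool.Agent.W657.EG.lcon hF Pool.Agent.W930.EC.theta

theorem pntcG (hF : Fd t c f χ) : S_PNTC t c :=
  Pool.Agent.W357.EG.pntc hF (Pool.Agent.W290.EG.pid hF) (lconG hF)
    (Pool.Agent.W240.EG.lnv hF (Pool.Agent.W290.EG.pid hF) (lconG hF))

theorem pntxG (hF : Fd t c f χ) : S_PNTX t c :=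
  Pool.Agent.W738.EG.pntx hF (Pool.Agent.W290.EG.pid hF) (Pool.Agent.W584.EG.lmx hF (pntcG hF)
    (Pool.Agent.W973.EX.amv Pool.Agent.W583.EX.amv1) (lconG hF))

theorem mrgG (hD : t ^ 2 < 4 * c) : Pool.Agent.W251.EX.S_MRG t c := by
  have hlat : Pool.Agent.W78.GA.S_LAT t c := Pool.Agent.W45.GA.lat hD
  have hred : Pool.Agent.W78.GA.S_RED t c := Pool.Agent.W322.GA.red hD
  have hlati : Pool.Agent.W78.GA.S_LATI t c := Pool.Agent.W322.GA.lati_of hD hlat hred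
  have hls : Pool.Agent.W78.GA.S_LS t c := Pool.Agent.W327.GA.ls hD
  have hang : Pool.Agent.W78.GA.S_ANG t c :=
    Pool.Agent.W397.GA.ang_of (Pool.Agent.W327.GA.ang1 hD) (Pool.Agent.W397.GA.ang2 hD)
  have hangi : Pool.Agent.W78.GA.S_ANGI t c := Pool.Agent.W322.GA.angi_of hD hang hred
  have hmach : Pool.Agent.W78.GA.S_MACH := Pool.Agent.W586.GA.mach_of Pool.Agent.W240.GA.leva
    Pool.Agent.W240.GA.levb Pool.Agent.W397.GA.s_cnt Pool.Agent.W586.GA.upart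
  exact Pool.Agent.W279.EX.mrg hD hmach
    (Pool.Agent.W311.EX.decx hD hlat hlati (Pool.Agent.W999.GA.tk_of hD hlat hlati))
    (Pool.Agent.W55.EX.mom0x hD hls hlat) (Pool.Agent.W565.GX.momp hD hls)
    (Pool.Agent.W55.EX.momx hD hls hlat hlati)
    (Pool.Agent.W191.GA.sparse_of hD hang hlat) hls
    (Pool.Agent.W721.EX.cellx hD
      (Pool.Agent.W194.GA.sele_of hD hangi hlat (Pool.Agent.W109.GA.selb hD))) hlat

theorem mrsxG (hF : Fd t c f χ) : S_MRSX t c :=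
  Pool.Agent.W12.EG.Mrsx.mrsx (hDG hF) (Pool.Agent.W496.EG.mrx hF (mrgG (hDG hF)))
    (Pool.Agent.W60.EG.mw0x (hDG hF))

theorem swcG (hF : Fd t c f χ) : S_SWC χ := Pool.Agent.W588.EG.swc hF

theorem lsvG (hF : Fd t c f χ) : S_LSV χ :=
  Pool.Agent.W699.EG.lsv hF (swcG hF) (Pool.Agent.W150.EG.ls4 χ)

theorem dtbG (hF : Fd t c f χ) : S_DTB t c f := Pool.Agent.W804.EG.dtb hF

theorem lnG (hF : Fd t c f χ) : S_LN t c := Pool.Agent.W804.EG.ln (hDG hF)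

theorem gg0G (hF : Fd t c f χ) : S_GG0 t c χ :=
  Pool.Agent.W239.EG.gg0 hF (lsvG hF) Pool.Agent.W52.EC.abel (Pool.Agent.W164.EG.psid (hDG hF))
    (Pool.Agent.W701.EG.Gvl.gvl hF) (Pool.Agent.W804.EG.mult hF) (dtbG hF)

theorem btxG (hF : Fd t c f χ) : S_BTX t c χ :=
  Pool.Agent.W179.EG.btx hF (gg0G hF) (lnG hF) (dtbG hF)

theorem btG' (hF : Fd t c f χ) (hbtmx : S_BTMX t c χ) (N : ℕ) (b : ℂ) (hN : 1 ≤ N)
    (hb : b ^ N = 1) (hb1 : b ≠ 1) (q : ℕ) (β : Qd t c) (hq : 1 ≤ q) :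
    Bt χ (cl q β (fun z => (bO b z).re)) ∧ Bt χ (cl q β (fun z => (bO b z).im)) :=
  bt_cl (mrsxG hF) hbtmx (btxG hF) (pntxG hF N b hN hb hb1) hq β

end Pool.Agent.W251.EG
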