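import Pool.Agent.W251.EG.AllA
import Pool.Agent.W164.EG.Bdd
import Pool.Agent.W108.EG.Tree
import Pool.Agent.W554.EG.Cnt
import Pool.Agent.W143.EG.Dcp
import Pool.Agent.W74.EG.Dilx
import Pool.Agent.W191.EG.ZX
import Pool.Agent.W99.EG.Perx
import Pool.Agent.W883.EG.Scnt
import Pool.Agent.W748.EG.Corr
import Pool.Agent.W377.EG.Finx
import Pool.Agent.W215.EG.CHR
import Pool.Agent.W215.EG.Finj
import Pool.Agent.W589.EG.Finn
import Pool.Agent.W885.EG.SLQ
import Pool.Agent.W632.EG.Regx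
import Pool.Agent.W349.EG.Dcv
import Pool.Agent.W349.EG.Pw
import Pool.Agent.W349.EG.Mainy
import Pool.Agent.W334.EG.Chrw
import Pool.Agent.W334.EG.Finw

/-!
Project EG (helper78): assembly (helper251), part B: everything except BTMX, LOSS, BIJ, MAINX, AVX.
-/

set_option autoImplicit false

namespace Pool.Agent.W251.EG

open Pool.Agent.W78.GA (Qd)
open Pool.Agent.W78.EG

variable {t c : ℤ} {f : ℕ} {χ : DirichletCharacter ℂ f}

theorem pcntG (hF : Fd t c f χ) : S_PCNT χ := Pool.Agent.W554.EG.pcnt hF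

theorem dcpG (hF : Fd t c f χ) : S_DCP t c χ :=
  Pool.Agent.W143.EG.dcp hF Pool.Agent.W212.EC.ce (Pool.Agent.W52.EC.tup Pool.Agent.W212.EC.ce)
    (Pool.Agent.W327.EC.code Pool.Agent.W212.EC.ce) Pool.Agent.W721.ECV.dv
    (Pool.Agent.W108.EG.tree hF) (Pool.Agent.W554.EG.ecnt hF) (pcntG hF)
    (Pool.Agent.W554.EG.resc (hDG hF))

theorem zxG (hF : Fd t c f χ) : S_ZX t c χ :=
  Pool.Agent.W191.EG.zx hF (Pool.Agent.W108.EG.ptsT hF) Pool.Agent.W499.EC.avg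
    Pool.Agent.W164.EG.bdd (dtbG hF)

theorem dilxG (hF : Fd t c f χ) : S_DILX t c := Pool.Agent.W74.EG.dilx (hDG hF)

theorem corrG (hF : Fd t c f χ) : S_CORR t c := Pool.Agent.W748.EG.corr hF

theorem scntG (hF : Fd t c f χ) : S_SCNT t c := Pool.Agent.W883.EG.scnt hF

theorem finxG (hF : Fd t c f χ) : S_FINX t c :=
  Pool.Agent.W377.EG.finx hF (corrG hF) (scntG hF)

theorem slowqG (hF : Fd t c f χ) : S_SLOWQ t c := W885.EG.slowq hF

theorem spqG (hF : Fd t c f χ) : S_SPQ t c := W885.EG.spq hF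

theorem regxG (hF : Fd t c f χ) : S_REGX t c := Pool.Agent.W632.EG.regx (hDG hF)

theorem dcvG (hF : Fd t c f χ) : S_DCV χ :=
  Pool.Agent.W349.EG.dcv hF (Pool.Agent.W349.EG.pw hF (swcG hF))

theorem chrG' (hF : Fd t c f χ) (hbtmx : S_BTMX t c χ) (hm : S_MAINX t c χ) : S_CHR t c :=
  Pool.Agent.W215.EG.CHR.chr hF hm (finxG hF) (btG' hF hbtmx)

theorem finnG' (hF : Fd t c f χ) (h : S_CHR t c) : S_FINN t c :=
  Pool.Agent.W589.EG.finn hF h (slowqG hF) (scntG hF)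

theorem mainyG' (hF : Fd t c f χ) (h : S_AVX t c χ) : S_MAINY t c χ :=
  Pool.Agent.W349.EG.mainy hF h (regxG hF) (dcvG hF) (pcntG hF)

theorem finwG' (hF : Fd t c f χ) (hbtmx : S_BTMX t c χ) (h : S_AVX t c χ) : S_FINW t c :=
  Pool.Agent.W334.EG.finw (Pool.Agent.W334.EG.chrw hF (mainyG' hF h) (corrG hF) (scntG hF)
    (btG' hF hbtmx))

end Pool.Agent.W251.EG
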