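import Pool.Agent.W251.EG.AllB0
import Pool.Agent.W465.EG.Loss
import Pool.Agent.W371.EG.Bij
import Pool.Agent.W428.EG.MainX
import Pool.Agent.W347.EG.FINQ

/-!
Project EG (helper78): assembly (helper251), part B: everything except BTMX, AVX.
-/

set_option autoImplicit false

namespace Pool.Agent.W251.EG

open Pool.Agent.W78.GA (Qd)
open Pool.Agent.W78.EG

variable {t c : ℤ} {f : ℕ} {χ : DirichletCharacter ℂ f}

theorem lossG (hF : Fd t c f χ) : S_LOSS t c χ := Pool.Agent.W465.EGL.loss hF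

theorem bijG (hF : Fd t c f χ) : S_BIJ t c χ := Pool.Agent.W371.EG.bij hF

theorem perxG (hF : Fd t c f χ) : S_PERX t c χ := Pool.Agent.W99.EG.perx hF (bijG hF)

theorem mainxG (hF : Fd t c f χ) : S_MAINX t c χ :=
  Pool.Agent.W428.EG.mainx hF (zxG hF) (perxG hF) (dcpG hF) (dilxG hF) (lossG hF) (pcntG hF)

theorem finqG' (hF : Fd t c f χ) (h : S_FINW t c) : S_FINQ t c := Pool.Agent.W347.EG.finq hF h

end Pool.Agent.W251.EG
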