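import Pool.Agent.W251.EG.AllB1
import Pool.Agent.W372.EG.Btmx
import Pool.Agent.W436.EG.LOWQ

/-!
Project EG (helper78): assembly (helper251): everything except AVX, in particular the logarithmic
averages.
-/

set_option autoImplicit false

namespace Pool.Agent.W251.EG

open Pool.Agent.W78.GA (Qd)
open Pool.Agent.W78.EG

variable {t c : ℤ} {f : ℕ} {χ : DirichletCharacter ℂ f}

theorem btmxG (hF : Fd t c f χ) : S_BTMX t c χ :=
  Pool.Agent.W372.EG.btmx hF (Pool.Agent.W131.EG.jb hF) (Pool.Agent.W131.EG.jv hF) (lnG hF)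
    (dtbG hF)

theorem btG (hF : Fd t c f χ) (N : ℕ) (b : ℂ) (hN : 1 ≤ N) (hb : b ^ N = 1) (hb1 : b ≠ 1) (q : ℕ)
    (β : Qd t c) (hq : 1 ≤ q) :
    Bt χ (cl q β (fun z => (bO b z).re)) ∧ Bt χ (cl q β (fun z => (bO b z).im)) :=
  btG' hF (btmxG hF) N b hN hb hb1 q β hq

theorem btaG (hF : Fd t c f χ) (N : ℕ) (F : Qd t c → ℂ) (h : Apd N F) (q : ℕ) (β : Qd t c)
    (hq : 1 ≤ q) : Bt χ (cl q β (fun z => (F z).re)) ∧ Bt χ (cl q β (fun z => (F z).im)) :=
  bt_cl (mrsxG hF) (btmxG hF) (btxG hF) h hq β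

theorem chrG (hF : Fd t c f χ) : S_CHR t c := chrG' hF (btmxG hF) (mainxG hF)

theorem finjG (hF : Fd t c f χ) : S_FINJ t c := Pool.Agent.W215.EG.Finj.finj (chrG hF)

theorem finnG (hF : Fd t c f χ) : S_FINN t c := finnG' hF (chrG hF)

theorem sprG (hF : Fd t c f χ) : S_SPR t c := Pool.Agent.W436.EG.spr hF (corrG hF)

theorem lowqG (hF : Fd t c f χ) : S_LOWQ t c := Pool.Agent.W436.EG.lowq hF (sprG hF)

end Pool.Agent.W251.EG
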