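import Pool.Agent.W78.EG.Defs

/-!
Project EG (helper251): squarefree values. Statements.
-/

set_option autoImplicit false

namespace Pool.Agent.W251.EG

open Finset Filter
open Pool.Agent.W78.EG

open scoped Classical in
/-- SPSC: lower bound for the number of pairs with `d d'` squarefree in a residue class -/
def S_SPSc (t c : ℤ) : Prop := ∀ q a : ℕ, 1 ≤ q →
  (∀ l : ℕ, l.Prime → l ^ 2 ∣ q → ¬ ((l ^ 2 : ℕ) : ℤ) ∣ (a : ℤ) ^ 2 + t * a + c) →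
  ∃ c₁ : ℝ, 0 < c₁ ∧ ∃ X₀ : ℕ, ∀ X : ℕ, X₀ ≤ X →
    c₁ * X ≤ (((SP t c X).filter (fun p => Squarefree (p.1 * p.2) ∧
      ∃ n : ℕ, 0 < 2 * (n : ℤ) + t ∧ (p.1 * p.2 : ℤ) = (n : ℤ) ^ 2 + t * n + c ∧
        n ≡ a [MOD q])).card : ℝ)

end Pool.Agent.W251.EG
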