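import Pool.Agent.W78.EG.Defs2
import Pool.Agent.W551.EG.CHI

/-!
Project EG (helper78): the instance of `Fd` for the discriminant `-4` (helper251).
-/

set_option autoImplicit false

namespace Pool.Agent.W251.EG

open Pool.Agent.W78.GA
open Pool.Agent.W78.EG
open Pool.Agent.W551.EG.CHI (eq_one_of_conductor isSquare_iff_exists)

/-- the forms of discriminant `-4` represent one -/
lemma rep4 : ∀ n : ℕ, ∀ a b m : ℤ, 0 < a → a.toNat ≤ n → b ^ 2 - 4 * a * m = -4 →
      ∃ x y : ℤ, a * x ^ 2 + b * x * y + m * y ^ 2 = 1 := by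
  intro n
  induction n with
  | zero =>
    intro a b m ha hn _
    omega
  | succ n ih =>
    intro a b m ha hn h
    set q : ℤ := (b + a) / (2 * a) with hq
    have m1 := Int.emod_add_mul_ediv (b + a) (2 * a)
    have m2 := Int.emod_nonneg (b + a) (show (2 * a) ≠ 0 by omega)
    have m3 := Int.emod_lt_of_pos (b + a) (show 0 < 2 * a by omega)
    rw [← hq] at m1
    obtain ⟨b', hb'⟩ : ∃ b' : ℤ, b' = b - 2 * a * q := ⟨_, rfl⟩
    obtain ⟨m', hm'⟩ : ∃ m' : ℤ, m' = a * q ^ 2 - b * q + m := ⟨_, rfl⟩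
    have l1 : -a ≤ b' := by linarith
    have l2 : b' ≤ a := by linarith
    have hd : b' ^ 2 - 4 * a * m' = -4 := by
      rw [← h, hb', hm']; ring
    have hm0 : 0 < m' := by nlinarith [sq_nonneg b']
    rcases lt_or_ge m' a with hlt | hge
    · obtain ⟨x, y, hxy⟩ := ih m' (-b') a hm0 (by omega) (by rw [← hd]; ring)
      refine ⟨-y - q * x, x, ?_⟩
      rw [← hxy, hb', hm']
      ring
    · have ha1 : a = 1 := by
        have h4 : b' ^ 2 ≤ a ^ 2 := by nlinarith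
        have h5 : 3 * a ^ 2 ≤ 4 := by nlinarith
        by_contra hne
        have ha2 : 2 ≤ a := by omega
        nlinarith
      exact ⟨1, 0, by rw [ha1]; ring⟩

theorem cn4 (d : ℕ) (r : ℤ) (hd : 1 ≤ d) (hr : (d : ℤ) ∣ r ^ 2 - 0 * r + 1) :
    ∃ z₁ : Qd 0 1, nm z₁ = d ∧ lat d r z₁ ∧ ∀ z : Qd 0 1, lat d r z → z₁ ∣ z := by
  have hD : (0 : ℤ) ^ 2 < 4 * 1 := by norm_num
  obtain ⟨m, hm⟩ := hr
  have hd0 : (0 : ℤ) < d := by exact_mod_cast hd
  obtain ⟨x, y, hxy⟩ := rep4 _ (d : ℤ) (0 - 2 * r) m hd0 le_rfl (by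
    linear_combination 4 * hm)
  refine ⟨⟨d * x - r * y, y⟩, ?_, ?_, ?_⟩
  · have h1 : (nm (⟨d * x - r * y, y⟩ : Qd 0 1) : ℤ) = d := by
      rw [nm_cast hD]
      simp only
      linear_combination (d : ℤ) * hxy + y ^ 2 * hm
    exact_mod_cast h1
  · show (d : ℤ) ∣ (d * x - r * y) + r * y
    exact ⟨x, by ring⟩
  · intro z hz
    have hz' : (d : ℤ) ∣ z.re + r * z.im := hz
    obtain ⟨w, hw⟩ := hz'
    have hre : z.re = d * w - r * z.im := by linarith
    refine ⟨⟨d * x * w - r * x * z.im - r * y * w + 0 * y * w + m * y * z.im,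
      x * z.im - y * w⟩, ?_⟩
    apply QuadraticAlgebra.ext
    · rw [QuadraticAlgebra.re_mul]
      simp only
      rw [hre]
      linear_combination (-(d * w - r * z.im)) * hxy - (y ^ 2 * w - x * y * z.im) * hm
    · rw [QuadraticAlgebra.im_mul]
      simp only
      linear_combination (-z.im) * hxy

theorem chi_four : ∃ χ : DirichletCharacter ℂ 4, χ.IsPrimitive ∧
    (∀ n : ℕ, χ (n : ZMod 4) = 0 ∨ χ (n : ZMod 4) = 1 ∨ χ (n : ZMod 4) = -1) ∧
    ∀ p : ℕ, p.Prime → ((∃ r : ℤ, (p : ℤ) ∣ r ^ 2 - 0 * r + 1) ↔ χ (p : ZMod 4) ≠ -1) := by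
  let χ : DirichletCharacter ℂ 4 := ZMod.χ₄.ringHomComp (Int.castRingHom ℂ)
  have hχ : ∀ n : ℕ, χ (n : ZMod 4) = ((ZMod.χ₄ n : ℤ) : ℂ) := fun n => rfl
  refine ⟨χ, ?_, ?_, ?_⟩
  · change χ.conductor = 4
    have hdvd := χ.conductor_dvd_level
    by_contra hcon
    have h4 : χ.conductor ∣ 2 := by
      have h8 : χ.conductor ∣ 2 ^ 2 := hdvd
      obtain ⟨k, hk, hk2⟩ := (Nat.dvd_prime_pow Nat.prime_two).1 h8
      have hk3 : k ≠ 2 := by
        rintro rfl
        exact hcon hk2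
      rw [hk2]
      have : k ≤ 1 := by omega
      exact pow_dvd_pow 2 this
    have h1 := eq_one_of_conductor χ 3 (by norm_num) (by
      have h2 : ((3 : ℤ) : ZMod χ.conductor) = ((1 : ℤ) : ZMod χ.conductor) := by
        rw [ZMod.intCast_eq_intCast_iff_dvd_sub]
        have h3 : ((χ.conductor : ℕ) : ℤ) ∣ ((2 : ℕ) : ℤ) := Int.natCast_dvd_natCast.2 h4
        have h5 : (1 : ℤ) - 3 = -((2 : ℕ) : ℤ) := by norm_num
        rw [h5]
        exact (dvd_neg).2 h3
      rw [h2, Int.cast_one])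
    have h5 : χ ((3 : ℤ) : ZMod 4) = -1 := by
      have h6 := hχ 3
      have h7 : ZMod.χ₄ ((3 : ℕ) : ZMod 4) = -1 := by decide
      rw [h7] at h6
      have h8 : ((3 : ℤ) : ZMod 4) = ((3 : ℕ) : ZMod 4) := by norm_num
      rw [h8, h6]
      norm_num
    rw [h5] at h1
    norm_num at h1
  · intro n
    rw [hχ, ZMod.χ₄_nat_eq_if_mod_four]
    split_ifs
    · left; simp
    · right; left; simp
    · right; right; simp
  · intro p hp
    have hpfact : Fact p.Prime := ⟨hp⟩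
    rw [hχ, ZMod.χ₄_nat_eq_if_mod_four]
    have h1 : (∃ r : ℤ, (p : ℤ) ∣ r ^ 2 - 0 * r + 1) ↔ p % 4 ≠ 3 := by
      rw [← ZMod.exists_sq_eq_neg_one_iff]
      have h2 := isSquare_iff_exists p (-1)
      have h3 : ((-1 : ℤ) : ZMod p) = -1 := by norm_num
      rw [h3] at h2
      rw [h2]
      have h4 : ∀ r : ℤ, r ^ 2 - 0 * r + 1 = r ^ 2 - (-1) := fun r => by ring
      simp only [h4]
    rw [h1]
    by_cases hp2 : p = 2
    · subst hp2
      norm_num
    have hpodd : p % 2 = 1 := (Nat.Prime.mod_two_eq_one_iff_ne_two hp).2 hp2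
    rw [if_neg (by omega)]
    constructor
    · intro h
      rw [if_pos (by omega)]
      norm_num
    · intro h h3
      rw [if_neg (by omega)] at h
      apply h
      norm_num

/-- the Gaussian integers -/
theorem fd4 : ∃ (f : ℕ) (χ : DirichletCharacter ℂ f), Fd 0 1 f χ := by
  obtain ⟨χ, hχ, hv, hr⟩ := chi_four
  exact ⟨4, χ, ⟨Or.inl rfl, by norm_num, by norm_num, hχ, hv, hr, cn4⟩⟩

end Pool.Agent.W251.EG
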