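import Pool.Agent.W251.EG.All2
import Pool.Agent.W251.EG.Defs3
import Pool.Agent.W251.EX.Out4

/-!
Project EG (helper251): weighted sums over `n^2+tn+c` in progressions.
-/

set_option autoImplicit false

namespace Pool.Agent.W251.EG

open Finset Filter
open Pool.Agent.W78.GA (Qd nm ball mem_ball nm_cast)
open Pool.Agent.W78.EG
open Pool.Agent.W251.EX (Sqp tt lm n0 n0_ne)

variable {t c : ℕ} {f : ℕ} {χ : DirichletCharacter ℂ f}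

theorem t_le (hF : Fd (t : ℤ) (c : ℤ) f χ) : t ≤ 1 := by
  rcases hF.tt with h | h <;> omega

theorem c_pos (hF : Fd (t : ℤ) (c : ℤ) f χ) : 1 ≤ c := by
  have h := hDG hF
  by_contra h1
  have : c = 0 := by omega
  rw [this] at h
  push_cast at h
  nlinarith [sq_nonneg (t : ℤ)]

theorem fcond (n x y : ℕ) : (0 < 2 * (n : ℤ) + (t : ℤ) ∧
    (x * y : ℤ) = (n : ℤ) ^ 2 + (t : ℤ) * n + (c : ℤ)) ↔ (1 ≤ n + t ∧ x * y = n ^ 2 + t * n + c) := by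
  constructor
  · rintro ⟨h1, h2⟩
    exact ⟨by omega, by exact_mod_cast h2⟩
  · rintro ⟨h1, h2⟩
    exact ⟨by omega, by exact_mod_cast h2⟩

theorem fsqrt (ht : t ≤ 1) (n : ℕ) : Nat.sqrt (n ^ 2 + t * n + c - c) = n := by
  rw [Nat.add_sub_cancel, pow_two]
  exact Nat.sqrt_add_eq n (by nlinarith)

theorem fpos (hc : 1 ≤ c) (n : ℕ) : 0 < n ^ 2 + t * n + c := by omega

open scoped Classical in
theorem mem_SWn {q a r : ℕ} {s₁ s₂ s₃ s₄ : ℝ} {X : ℕ} {p : ℕ × ℕ} :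
    p ∈ SW (t : ℤ) (c : ℤ) q a r s₁ s₂ s₃ s₄ X ↔
      ((1 ≤ p.1 ∧ p.1 ≤ X) ∧ 1 ≤ p.2 ∧ p.2 ≤ X) ∧
      (∃ n : ℕ, 1 ≤ n + t ∧ p.1 * p.2 = n ^ 2 + t * n + c ∧ n ≡ a [MOD q] ∧ p.1 ≡ r [MOD q]) ∧
      (s₁ * X < p.1 ∧ p.1 ≤ s₂ * X ∧ s₃ * X < p.2 ∧ p.2 ≤ s₄ * X) := by
  unfold SW SP Cd
  simp only [mem_filter, mem_product, mem_Icc]
  constructor
  · rintro ⟨⟨h1, _⟩, ⟨n, h2, h3, h4, h5⟩, h6⟩
    obtain ⟨h7, h8⟩ := (fcond n p.1 p.2).1 ⟨h2, h3⟩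
    exact ⟨h1, ⟨n, h7, h8, h4, h5⟩, h6⟩
  · rintro ⟨h1, ⟨n, h2, h3, h4, h5⟩, h6⟩
    obtain ⟨h7, h8⟩ := (fcond n p.1 p.2).2 ⟨h2, h3⟩
    exact ⟨⟨h1, n, h7, h8⟩, ⟨n, h7, h8, h4, h5⟩, h6⟩

open scoped Classical in
theorem convG (ht : t ≤ 1) (hc : 1 ≤ c) {A : Type} [AddCommMonoid A] (G : ℕ → ℕ → A)
    (q a r : ℕ) (s₁ s₂ s₃ s₄ : ℝ) (h2 : s₂ ≤ 1) (h4 : s₄ ≤ 1) (X : ℕ) :
    ∑ p ∈ SW (t : ℤ) (c : ℤ) q a r s₁ s₂ s₃ s₄ X, G p.1 p.2 =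
      ∑ n ∈ (range (X + 1)).filter (fun n => 1 ≤ n + t ∧ n ≡ a [MOD q]),
        ∑ d ∈ (n ^ 2 + t * n + c).divisors.filter
        (fun d : ℕ => d ≡ r [MOD q] ∧ s₁ * X < (d : ℝ) ∧
        (d : ℝ) ≤ s₂ * X ∧ s₃ * X < (((n ^ 2 + t * n + c) / d : ℕ) : ℝ) ∧
        (((n ^ 2 + t * n + c) / d : ℕ) : ℝ) ≤ s₄ * X), G d ((n ^ 2 + t * n + c) / d) := by
  rw [Finset.sum_sigma']
  symm
  refine Finset.sum_nbij' (fun x => (x.2, (x.1 ^ 2 + t * x.1 + c) / x.2))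
    (fun p => ⟨Nat.sqrt (p.1 * p.2 - c), p.1⟩) ?_ ?_ ?_ ?_ ?_
  · rintro ⟨n, d⟩ hx
    simp only [mem_sigma, mem_filter, mem_range, Nat.mem_divisors] at hx
    obtain ⟨⟨hn, hn1, hna⟩, ⟨hd, _⟩, hdr, w1, w2, w3, w4⟩ := hx
    have hp := fpos (t := t) hc n
    have hdd : d * ((n ^ 2 + t * n + c) / d) = n ^ 2 + t * n + c := Nat.mul_div_cancel' hd
    have hd0 : 0 < d := Nat.pos_of_dvd_of_pos hd hp
    have hd1 : 0 < (n ^ 2 + t * n + c) / d := Nat.div_pos (Nat.le_of_dvd hp hd) hd0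
    have hX : (0 : ℝ) ≤ X := Nat.cast_nonneg X
    have g1 : d ≤ X := by
      have : (d : ℝ) ≤ X := w2.trans (by nlinarith)
      exact_mod_cast this
    have g2 : (n ^ 2 + t * n + c) / d ≤ X := by
      have : (((n ^ 2 + t * n + c) / d : ℕ) : ℝ) ≤ X := w4.trans (by nlinarith)
      exact_mod_cast this
    rw [mem_SWn]
    exact ⟨⟨⟨hd0, g1⟩, hd1, g2⟩, ⟨n, hn1, hdd, hna, hdr⟩, w1, w2, w3, w4⟩
  · rintro ⟨d, d'⟩ hp
    rw [mem_SWn] at hp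
    obtain ⟨⟨⟨h5, h6⟩, h7, h8⟩, ⟨n, hn1, hn, hna, hdr⟩, w1, w2, w3, w4⟩ := hp
    simp only at h5 h6 h7 h8 hn hdr w1 w2 w3 w4
    have hsq : Nat.sqrt (d * d' - c) = n := by
      rw [hn]
      exact fsqrt ht n
    have hdiv : (n ^ 2 + t * n + c) / d = d' := by
      rw [← hn]
      exact Nat.mul_div_cancel_left d' h5
    have hnX : n ≤ X := by
      by_contra h
      push Not at h
      have : d * d' ≤ X * X := Nat.mul_le_mul h6 h8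
      nlinarith [Nat.zero_le (t * n)]
    simp only [mem_sigma, mem_filter, mem_range, Nat.mem_divisors, hsq]
    refine ⟨⟨Nat.lt_succ_of_le hnX, hn1, hna⟩, ⟨⟨d', hn.symm⟩, (fpos hc n).ne'⟩, hdr, w1, w2,
      ?_, ?_⟩
    · rw [hdiv]; exact w3
    · rw [hdiv]; exact w4
  · rintro ⟨n, d⟩ hx
    simp only [mem_sigma, mem_filter, mem_range, Nat.mem_divisors] at hx
    obtain ⟨⟨hn, hn1, hna⟩, ⟨hd, _⟩, hdr, w1, w2, w3, w4⟩ := hx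
    have hdd : d * ((n ^ 2 + t * n + c) / d) = n ^ 2 + t * n + c := Nat.mul_div_cancel' hd
    simp only
    rw [hdd, fsqrt ht n]
  · rintro ⟨d, d'⟩ hp
    rw [mem_SWn] at hp
    obtain ⟨⟨⟨h5, h6⟩, h7, h8⟩, ⟨n, hn1, hn, hna, hdr⟩, w1, w2, w3, w4⟩ := hp
    simp only at h5 h6 h7 h8 hn hdr w1 w2 w3 w4
    have hsq : Nat.sqrt (d * d' - c) = n := by
      rw [hn]
      exact fsqrt ht n
    have hdiv : (n ^ 2 + t * n + c) / d = d' := by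
      rw [← hn]
      exact Nat.mul_div_cancel_left d' h5
    simp only [hsq, hdiv]
  · rintro ⟨n, d⟩ _
    rfl

lemma fgc_lm (χ : DirichletCharacter ℂ f) : FGc χ 2 1 lm lm where
  pos := by norm_num
  m₁ := Pool.Agent.W251.EX.fg_lm.mf
  m₂ := Pool.Agent.W251.EX.fg_lm.mf
  p₁ := Pool.Agent.W251.EX.fg_lm.pf
  p₂ := Pool.Agent.W251.EX.fg_lm.pf
  tw := fun p hp _ => by
    unfold lm
    rw [ArithmeticFunction.cardFactors_apply_prime hp]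
    norm_num

lemma apdG_lm {t c : ℤ} (hF : Fd t c f χ) : Apd 2 (fun z : Qd t c => lm (nm z)) :=
  pntxG hF 2 (-1) (by norm_num) (by norm_num) (by norm_num)

lemma lm_mul {m n : ℕ} (hm : m ≠ 0) (hn : n ≠ 0) : lm m * lm n = lm (m * n) :=
  (Pool.Agent.W251.EX.fg_lm.mf m n hm hn).symm

open scoped Classical in
/-- weighted sums of `λ(n^2+tn+c)` over `n ≡ a mod q` are small at almost all scales -/
theorem outLG (hF : Fd (t : ℤ) (c : ℤ) f χ) (q : ℕ) (hq : 1 ≤ q) (a r : ℕ)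
    (s₁ s₂ s₃ s₄ ε : ℝ) (hs₁ : 0 ≤ s₁)
    (hs₁₂ : s₁ < s₂) (hs₂ : s₂ ≤ 1) (hs₃ : 0 ≤ s₃) (hs₃₄ : s₃ < s₄) (hs₄ : s₄ ≤ 1) (hε : 0 < ε) :
    Tendsto (fun N : ℕ => (∑ X ∈ (Icc 1 N).filter (fun X : ℕ => ε * X <
      |∑ n ∈ (range (X + 1)).filter (fun n => 1 ≤ n + t ∧ n ≡ a [MOD q]),
        (-1 : ℝ) ^ ArithmeticFunction.cardFactors (n ^ 2 + t * n + c) *
        (((n ^ 2 + t * n + c).divisors.filter (fun d : ℕ => d ≡ r [MOD q] ∧ s₁ * X < (d : ℝ) ∧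
          (d : ℝ) ≤ s₂ * X ∧ s₃ * X < (((n ^ 2 + t * n + c) / d : ℕ) : ℝ) ∧
          (((n ^ 2 + t * n + c) / d : ℕ) : ℝ) ≤ s₄ * X)).card : ℝ)|), 1 / (X : ℝ)) / Real.log N)
      atTop (nhds 0) := by
  have ht := t_le hF
  have hc := c_pos hF
  have h := tt (fun X => ∑ p ∈ (SW (t : ℤ) (c : ℤ) q a r s₁ s₂ s₃ s₄ X).filter (Sqp 0),
      lm p.1 * lm p.2)
    (fun ε' hε' => twG hF 2 1 lm lm (fgc_lm χ) (Or.inr (apdG_lm hF)) q a r 0 hq s₁ s₂ s₃ s₄ hs₁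
      hs₁₂ hs₂ hs₃ hs₃₄ hs₄ ε' hε') ε hε
  refine h.congr fun N => ?_
  congr 1
  refine sum_congr ?_ fun _ _ => rfl
  ext X
  rw [mem_filter, mem_filter]
  refine and_congr_right fun _ => ?_
  have e0 : (SW (t : ℤ) (c : ℤ) q a r s₁ s₂ s₃ s₄ X).filter (Sqp 0) =
      SW (t : ℤ) (c : ℤ) q a r s₁ s₂ s₃ s₄ X := by
    refine filter_true_of_mem fun p _ l hl hp => ?_
    have := hp.pos
    omega
  have e1 : ∑ p ∈ (SW (t : ℤ) (c : ℤ) q a r s₁ s₂ s₃ s₄ X).filter (Sqp 0), lm p.1 * lm p.2 =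
      ((∑ n ∈ (range (X + 1)).filter (fun n => 1 ≤ n + t ∧ n ≡ a [MOD q]),
        (-1 : ℝ) ^ ArithmeticFunction.cardFactors (n ^ 2 + t * n + c) *
        (((n ^ 2 + t * n + c).divisors.filter (fun d : ℕ => d ≡ r [MOD q] ∧ s₁ * X < (d : ℝ) ∧
          (d : ℝ) ≤ s₂ * X ∧ s₃ * X < (((n ^ 2 + t * n + c) / d : ℕ) : ℝ) ∧
          (((n ^ 2 + t * n + c) / d : ℕ) : ℝ) ≤ s₄ * X)).card : ℝ) : ℝ) : ℂ) := by
    rw [e0, convG ht hc (fun x y => lm x * lm y) q a r s₁ s₂ s₃ s₄ hs₂ hs₄ X, Complex.ofReal_sum]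
    refine sum_congr rfl fun n _ => ?_
    have e2 : ∀ d ∈ (n ^ 2 + t * n + c).divisors.filter (fun d : ℕ => d ≡ r [MOD q] ∧
          s₁ * X < (d : ℝ) ∧
          (d : ℝ) ≤ s₂ * X ∧ s₃ * X < (((n ^ 2 + t * n + c) / d : ℕ) : ℝ) ∧
          (((n ^ 2 + t * n + c) / d : ℕ) : ℝ) ≤ s₄ * X),
        lm d * lm ((n ^ 2 + t * n + c) / d) =
        (-1) ^ ArithmeticFunction.cardFactors (n ^ 2 + t * n + c) := by
      intro d hd
      have hd1 := (Nat.mem_divisors.1 (mem_filter.1 hd).1).1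
      have hdd : d * ((n ^ 2 + t * n + c) / d) = n ^ 2 + t * n + c := Nat.mul_div_cancel' hd1
      have hp := fpos (t := t) hc n
      have hd0 : d ≠ 0 := fun h0 => by
        rw [h0, Nat.zero_mul] at hdd
        omega
      have hd2 : (n ^ 2 + t * n + c) / d ≠ 0 := fun h0 => by
        rw [h0, Nat.mul_zero] at hdd
        omega
      rw [lm_mul hd0 hd2, hdd]
      rfl
    rw [sum_congr rfl e2, sum_const, nsmul_eq_mul]
    push_cast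
    ring
  rw [e1, Complex.norm_real, Real.norm_eq_abs]

open scoped Classical in
/-- weighted sums of `μ(n^2+tn+c)` over `n ≡ a mod q` are small at almost all scales -/
theorem outMG (hF : Fd (t : ℤ) (c : ℤ) f χ) (q : ℕ) (hq : 1 ≤ q) (a r : ℕ)
    (s₁ s₂ s₃ s₄ ε : ℝ) (hs₁ : 0 ≤ s₁)
    (hs₁₂ : s₁ < s₂) (hs₂ : s₂ ≤ 1) (hs₃ : 0 ≤ s₃) (hs₃₄ : s₃ < s₄) (hs₄ : s₄ ≤ 1) (hε : 0 < ε) :
    Tendsto (fun N : ℕ => (∑ X ∈ (Icc 1 N).filter (fun X : ℕ => ε * X <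
      |∑ n ∈ (range (X + 1)).filter (fun n => 1 ≤ n + t ∧ n ≡ a [MOD q]),
        (ArithmeticFunction.moebius (n ^ 2 + t * n + c) : ℝ) *
        (((n ^ 2 + t * n + c).divisors.filter (fun d : ℕ => d ≡ r [MOD q] ∧ s₁ * X < (d : ℝ) ∧
          (d : ℝ) ≤ s₂ * X ∧ s₃ * X < (((n ^ 2 + t * n + c) / d : ℕ) : ℝ) ∧
          (((n ^ 2 + t * n + c) / d : ℕ) : ℝ) ≤ s₄ * X)).card : ℝ)|), 1 / (X : ℝ)) / Real.log N)
      atTop (nhds 0) := by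
  have ht := t_le hF
  have hc := c_pos hF
  have h := tt (fun X => ∑ p ∈ (SW (t : ℤ) (c : ℤ) q a r s₁ s₂ s₃ s₄ X).filter
      (fun p => Squarefree (p.1 * p.2)), lm p.1 * lm p.2)
    (fun ε' hε' => tsG hF 2 1 lm lm (fgc_lm χ) (Or.inr (apdG_lm hF)) q a r hq s₁ s₂ s₃ s₄ hs₁
      hs₁₂ hs₂ hs₃ hs₃₄ hs₄ ε' hε') ε hε
  refine h.congr fun N => ?_
  congr 1
  refine sum_congr ?_ fun _ _ => rfl
  ext X
  rw [mem_filter, mem_filter]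
  refine and_congr_right fun _ => ?_
  have e1 : ∑ p ∈ (SW (t : ℤ) (c : ℤ) q a r s₁ s₂ s₃ s₄ X).filter
      (fun p => Squarefree (p.1 * p.2)), lm p.1 * lm p.2 =
      ((∑ n ∈ (range (X + 1)).filter (fun n => 1 ≤ n + t ∧ n ≡ a [MOD q]),
        (ArithmeticFunction.moebius (n ^ 2 + t * n + c) : ℝ) *
        (((n ^ 2 + t * n + c).divisors.filter (fun d : ℕ => d ≡ r [MOD q] ∧ s₁ * X < (d : ℝ) ∧
          (d : ℝ) ≤ s₂ * X ∧ s₃ * X < (((n ^ 2 + t * n + c) / d : ℕ) : ℝ) ∧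
          (((n ^ 2 + t * n + c) / d : ℕ) : ℝ) ≤ s₄ * X)).card : ℝ) : ℝ) : ℂ) := by
    rw [sum_filter, convG ht hc (fun x y => if Squarefree (x * y) then lm x * lm y else 0)
      q a r s₁ s₂ s₃ s₄ hs₂ hs₄ X, Complex.ofReal_sum]
    refine sum_congr rfl fun n _ => ?_
    have e2 : ∀ d ∈ (n ^ 2 + t * n + c).divisors.filter (fun d : ℕ => d ≡ r [MOD q] ∧
          s₁ * X < (d : ℝ) ∧
          (d : ℝ) ≤ s₂ * X ∧ s₃ * X < (((n ^ 2 + t * n + c) / d : ℕ) : ℝ) ∧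
          (((n ^ 2 + t * n + c) / d : ℕ) : ℝ) ≤ s₄ * X),
        (if Squarefree (d * ((n ^ 2 + t * n + c) / d)) then
          lm d * lm ((n ^ 2 + t * n + c) / d) else 0) =
        ((ArithmeticFunction.moebius (n ^ 2 + t * n + c) : ℤ) : ℂ) := by
      intro d hd
      have hd1 := (Nat.mem_divisors.1 (mem_filter.1 hd).1).1
      have hdd : d * ((n ^ 2 + t * n + c) / d) = n ^ 2 + t * n + c := Nat.mul_div_cancel' hd1
      have hp := fpos (t := t) hc n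
      have hd0 : d ≠ 0 := fun h0 => by
        rw [h0, Nat.zero_mul] at hdd
        omega
      have hd2 : (n ^ 2 + t * n + c) / d ≠ 0 := fun h0 => by
        rw [h0, Nat.mul_zero] at hdd
        omega
      rw [lm_mul hd0 hd2, hdd]
      by_cases hs : Squarefree (n ^ 2 + t * n + c)
      · rw [if_pos hs, ArithmeticFunction.moebius_apply_of_squarefree hs]
        unfold lm
        push_cast
        rfl
      · rw [if_neg hs, ArithmeticFunction.moebius_eq_zero_of_not_squarefree hs]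
        simp
    rw [sum_congr rfl e2, sum_const, nsmul_eq_mul]
    push_cast
    ring
  rw [e1, Complex.norm_real, Real.norm_eq_abs]

end Pool.Agent.W251.EG
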