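import Pool.Agent.W251.EG.Out1

/-!
Project EG (helper251): lower bounds for the weights, and the theorem for general completely
multiplicative functions.
-/

set_option autoImplicit false

namespace Pool.Agent.W251.EG

open Finset Filter
open Pool.Agent.W78.GA (Qd nm ball mem_ball nm_cast)
open Pool.Agent.W78.EG
open Pool.Agent.W251.EX (Sqp tt lm n0 n0_ne)

variable {t c : ℕ} {f : ℕ} {χ : DirichletCharacter ℂ f}

open scoped Classical in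
theorem cardG (ht : t ≤ 1) (hc : 1 ≤ c) (E : ℕ → Prop) (X : ℕ) :
    (((Icc 1 X ×ˢ Icc 1 X).filter (fun p : ℕ × ℕ =>
      ∃ n : ℕ, 1 ≤ n + t ∧ p.1 * p.2 = n ^ 2 + t * n + c ∧ E n)).card : ℝ) =
    ∑ n ∈ (range (X + 1)).filter (fun n => 1 ≤ n + t ∧ E n),
      (((n ^ 2 + t * n + c).divisors.filter (fun d : ℕ => d ≤ X ∧
        (n ^ 2 + t * n + c) / d ≤ X)).card : ℝ) := by
  rw [← Nat.cast_sum]
  congr 1
  rw [Finset.card_eq_sum_ones]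
  simp_rw [Finset.card_eq_sum_ones]
  rw [Finset.sum_sigma']
  symm
  refine Finset.sum_nbij' (fun x => (x.2, (x.1 ^ 2 + t * x.1 + c) / x.2))
    (fun p => ⟨Nat.sqrt (p.1 * p.2 - c), p.1⟩) ?_ ?_ ?_ ?_ ?_
  · rintro ⟨n, d⟩ hx
    simp only [mem_sigma, mem_filter, mem_range, Nat.mem_divisors] at hx
    obtain ⟨⟨hn, hn1, hE⟩, ⟨hd, _⟩, w1, w2⟩ := hx
    have hp := fpos (t := t) hc n
    have hdd : d * ((n ^ 2 + t * n + c) / d) = n ^ 2 + t * n + c := Nat.mul_div_cancel' hd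
    have hd0 : 0 < d := Nat.pos_of_dvd_of_pos hd hp
    have hd1 : 0 < (n ^ 2 + t * n + c) / d := Nat.div_pos (Nat.le_of_dvd hp hd) hd0
    simp only [mem_filter, mem_product, mem_Icc]
    exact ⟨⟨⟨hd0, w1⟩, hd1, w2⟩, n, hn1, hdd, hE⟩
  · rintro ⟨d, d'⟩ hp
    simp only [mem_filter, mem_product, mem_Icc] at hp
    obtain ⟨⟨⟨h5, h6⟩, h7, h8⟩, n, hn1, hn, hE⟩ := hp
    have hsq : Nat.sqrt (d * d' - c) = n := by
      rw [hn]
      exact fsqrt ht n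
    have hdiv : (n ^ 2 + t * n + c) / d = d' := by
      rw [← hn]
      exact Nat.mul_div_cancel_left d' h5
    have hnX : n ≤ X := by
      by_contra h
      push Not at h
      have : d * d' ≤ X * X := Nat.mul_le_mul h6 h8
      nlinarith [Nat.zero_le (t * n)]
    simp only [mem_sigma, mem_filter, mem_range, Nat.mem_divisors, hsq]
    refine ⟨⟨Nat.lt_succ_of_le hnX, hn1, hE⟩, ⟨⟨d', hn.symm⟩, (fpos hc n).ne'⟩, h6, ?_⟩
    rw [hdiv]; exact h8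
  · rintro ⟨n, d⟩ hx
    simp only [mem_sigma, mem_filter, mem_range, Nat.mem_divisors] at hx
    obtain ⟨⟨hn, hn1, hE⟩, ⟨hd, _⟩, w1, w2⟩ := hx
    have hdd : d * ((n ^ 2 + t * n + c) / d) = n ^ 2 + t * n + c := Nat.mul_div_cancel' hd
    simp only
    rw [hdd, fsqrt ht n]
  · rintro ⟨d, d'⟩ hp
    simp only [mem_filter, mem_product, mem_Icc] at hp
    obtain ⟨⟨⟨h5, h6⟩, h7, h8⟩, n, hn1, hn, hE⟩ := hp
    have hsq : Nat.sqrt (d * d' - c) = n := by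
      rw [hn]
      exact fsqrt ht n
    have hdiv : (n ^ 2 + t * n + c) / d = d' := by
      rw [← hn]
      exact Nat.mul_div_cancel_left d' h5
    simp only [hsq, hdiv]
  · rintro ⟨n, d⟩ _
    rfl

open scoped Classical in
/-- lower bound for the number of pairs -/
theorem outPG (hF : Fd (t : ℤ) (c : ℤ) f χ) (q a : ℕ) (hq : 1 ≤ q) :
    ∃ c₁ : ℝ, 0 < c₁ ∧ ∃ X₀ : ℕ, ∀ X : ℕ, X₀ ≤ X →
    c₁ * X ≤ (((Icc 1 X ×ˢ Icc 1 X).filter (fun p : ℕ × ℕ =>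
      ∃ n : ℕ, 1 ≤ n + t ∧ p.1 * p.2 = n ^ 2 + t * n + c ∧ n ≡ a [MOD q])).card : ℝ) := by
  obtain ⟨c₁, hc, X₀, h⟩ := spqG hF q a hq
  refine ⟨c₁, hc, X₀, fun X hX => (h X hX).trans (Nat.cast_le.2 (card_le_card ?_))⟩
  intro p hp
  unfold SP at hp
  simp only [mem_filter, mem_product, mem_Icc] at hp ⊢
  obtain ⟨⟨h1, _⟩, n, h2, h3, h4⟩ := hp
  obtain ⟨h5, h6⟩ := (fcond n p.1 p.2).1 ⟨h2, h3⟩
  exact ⟨h1, n, h5, h6, h4⟩

open scoped Classical in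
/-- lower bound for the total weight -/
theorem outNG (hF : Fd (t : ℤ) (c : ℤ) f χ) (q a : ℕ) (hq : 1 ≤ q) :
    ∃ c₁ : ℝ, 0 < c₁ ∧ ∃ X₀ : ℕ, ∀ X : ℕ, X₀ ≤ X →
    c₁ * X ≤ ∑ n ∈ (range (X + 1)).filter (fun n => 1 ≤ n + t ∧ n ≡ a [MOD q]),
      (((n ^ 2 + t * n + c).divisors.filter (fun d : ℕ => d ≤ X ∧
        (n ^ 2 + t * n + c) / d ≤ X)).card : ℝ) := by
  obtain ⟨c₁, hc, X₀, h⟩ := outPG hF q a hq
  refine ⟨c₁, hc, X₀, fun X hX => (h X hX).trans (le_of_eq ?_)⟩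
  convert cardG (t_le hF) (c_pos hF) (fun n => n ≡ a [MOD q]) X

open scoped Classical in
/-- lower bound for the total weight of the squarefree values -/
theorem outSG (hF : Fd (t : ℤ) (c : ℤ) f χ) (hS : S_SPSc (t : ℤ) (c : ℤ)) (q a : ℕ) (hq : 1 ≤ q)
    (hqa : ∀ l : ℕ, l.Prime → l ^ 2 ∣ q → ¬ l ^ 2 ∣ a ^ 2 + t * a + c) :
    ∃ c₁ : ℝ, 0 < c₁ ∧ ∃ X₀ : ℕ, ∀ X : ℕ, X₀ ≤ X →
    c₁ * X ≤ ∑ n ∈ (range (X + 1)).filter
      (fun n => 1 ≤ n + t ∧ n ≡ a [MOD q] ∧ Squarefree (n ^ 2 + t * n + c)),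
      (((n ^ 2 + t * n + c).divisors.filter (fun d : ℕ => d ≤ X ∧
        (n ^ 2 + t * n + c) / d ≤ X)).card : ℝ) := by
  obtain ⟨c₁, hc, X₀, h⟩ := hS q a hq (fun l hl hlq hd => hqa l hl hlq (by exact_mod_cast hd))
  have key := cardG (t_le hF) (c_pos hF)
    (fun n => n ≡ a [MOD q] ∧ Squarefree (n ^ 2 + t * n + c))
  refine ⟨c₁, hc, X₀, fun X hX => (h X hX).trans ?_⟩
  refine le_trans ?_ (le_of_eq (Eq.trans (key X) ?_))
  swap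
  · convert rfl
  refine Nat.cast_le.2 (card_le_card ?_)
  intro p hp
  unfold SP at hp
  simp only [mem_filter, mem_product, mem_Icc] at hp ⊢
  obtain ⟨⟨h1, _⟩, hsf, n, h2, h3, h4⟩ := hp
  obtain ⟨h5, h6⟩ := (fcond n p.1 p.2).1 ⟨h2, h3⟩
  exact ⟨h1, n, h5, h6, h4, h6 ▸ hsf⟩

/-- the condition at the primes -/
theorem tw_of (hF : Fd (t : ℤ) (c : ℤ) f χ) {τ : ℂ} {g₁ g₂ : ℕ → ℂ}
    (tw : ∀ p : ℕ, p.Prime → (∃ n : ℕ, p ∣ n ^ 2 + t * n + c) → g₁ p * g₂ p = τ) :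
    ∀ p : ℕ, p.Prime → χ (p : ZMod f) ≠ -1 → g₁ p * g₂ p = τ := by
  intro p hp hχ
  refine tw p hp ?_
  obtain ⟨r, hr⟩ := (hF.root p hp).2 hχ
  have hp0 : (0 : ℤ) < p := by exact_mod_cast hp.pos
  refine ⟨((-r) % (p : ℤ)).toNat, ?_⟩
  have h1 : ((((-r) % (p : ℤ)).toNat : ℕ) : ℤ) = (-r) % (p : ℤ) :=
    Int.toNat_of_nonneg (Int.emod_nonneg _ hp0.ne')
  have h2 : (p : ℤ) ∣ (((-r) % (p : ℤ)).toNat : ℤ) ^ 2 + (t : ℤ) *
      (((-r) % (p : ℤ)).toNat : ℤ) + (c : ℤ) := by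
    rw [h1]
    have h3 : (-r) % (p : ℤ) ≡ -r [ZMOD p] := Int.mod_modEq _ _
    have h4 : ((-r) % (p : ℤ)) ^ 2 + (t : ℤ) * ((-r) % (p : ℤ)) + (c : ℤ) ≡
        (-r) ^ 2 + (t : ℤ) * (-r) + c [ZMOD p] :=
      ((h3.pow 2).add (h3.mul_left _)).add_right _
    have h5 : (-r) ^ 2 + (t : ℤ) * (-r) + c = r ^ 2 - t * r + c := by ring
    rw [h5] at h4
    exact (Int.ModEq.dvd_iff h4).2 hr
  exact_mod_cast h2

lemma fgc_n0 (hF : Fd (t : ℤ) (c : ℤ) f χ) {N : ℕ} {τ : ℂ} {g₁ g₂ : ℕ → ℂ} (hN : 1 ≤ N)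
    (mf : ∀ m n : ℕ, m ≠ 0 → n ≠ 0 → g₁ (m * n) = g₁ m * g₁ n)
    (mg : ∀ m n : ℕ, m ≠ 0 → n ≠ 0 → g₂ (m * n) = g₂ m * g₂ n)
    (pf : ∀ n : ℕ, n ≠ 0 → g₁ n ^ N = 1) (pg : ∀ n : ℕ, n ≠ 0 → g₂ n ^ N = 1)
    (tw : ∀ p : ℕ, p.Prime → (∃ n : ℕ, p ∣ n ^ 2 + t * n + c) → g₁ p * g₂ p = τ) :
    FGc χ N τ (n0 g₁) (n0 g₂) where
  pos := hN
  m₁ := fun m n hm hn => by
    rw [n0_ne g₁ hm, n0_ne g₁ hn, n0_ne g₁ (Nat.mul_ne_zero hm hn), mf m n hm hn]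
  m₂ := fun m n hm hn => by
    rw [n0_ne g₂ hm, n0_ne g₂ hn, n0_ne g₂ (Nat.mul_ne_zero hm hn), mg m n hm hn]
  p₁ := fun n => by
    by_cases h : n = 0
    · rw [n0, if_pos h, one_pow]
    · rw [n0_ne g₁ h, pf n h]
  p₂ := fun n => by
    by_cases h : n = 0
    · rw [n0, if_pos h, one_pow]
    · rw [n0_ne g₂ h, pg n h]
  tw := fun p hp h4 => by
    rw [n0_ne g₁ hp.ne_zero, n0_ne g₂ hp.ne_zero, tw_of hF tw p hp h4]

/-- aperiodicity from mean values over pairs of integers -/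
lemma apdG_of (hF : Fd (t : ℤ) (c : ℤ) f χ) {N : ℕ} {g : ℕ → ℂ} (hN : 1 ≤ N)
    (mg : ∀ m n : ℕ, m ≠ 0 → n ≠ 0 → g (m * n) = g m * g n)
    (pg : ∀ n : ℕ, n ≠ 0 → g n ^ N = 1)
    (hap : ∀ (M : ℕ) (u v : ℤ), 1 ≤ M → Tendsto (fun X : ℕ =>
      (∑ z ∈ (Icc (-(2 * (X : ℤ))) (2 * X) ×ˢ Icc (-(2 * (X : ℤ))) (2 * X)).filter
        (fun z : ℤ × ℤ => z.1 ≡ u [ZMOD M] ∧ z.2 ≡ v [ZMOD M] ∧
          1 ≤ z.1 ^ 2 + t * z.1 * z.2 + c * z.2 ^ 2 ∧ z.1 ^ 2 + t * z.1 * z.2 + c * z.2 ^ 2 ≤ X),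
        g (z.1 ^ 2 + t * z.1 * z.2 + c * z.2 ^ 2).toNat) / (X : ℂ)) atTop (nhds 0)) :
    Apd N (fun z : Qd (t : ℤ) (c : ℤ) => n0 g (nm z)) where
  cm := fcm (hDG hF) N (n0 g) hN
    (fun m n hm hn => by
      rw [n0_ne g hm, n0_ne g hn, n0_ne g (Nat.mul_ne_zero hm hn), mg m n hm hn])
    (fun n => by
      by_cases h : n = 0
      · rw [n0, if_pos h, one_pow]
      · rw [n0_ne g h, pg n h])
  mean := by
    classical
    have hD := hDG hF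
    have ht := t_le hF
    have hc := c_pos hF
    have ht' : (t : ℤ) = 0 ∨ (t : ℤ) = 1 := hF.tt
    have hc' : (1 : ℤ) ≤ c := by exact_mod_cast hc
    intro M r₁ r₂ hM ε hε
    obtain ⟨X₁, hX₁⟩ := Metric.tendsto_atTop.1 (hap M r₁ r₂ hM) ε hε
    refine ⟨(X₁ : ℝ) + 1, fun X hX => ?_⟩
    have hX0 : (0 : ℝ) ≤ X := by
      have : (0 : ℝ) ≤ X₁ := Nat.cast_nonneg _
      linarith
    obtain ⟨Y, hY⟩ : ∃ Y : ℕ, Y = ⌊X⌋₊ := ⟨_, rfl⟩
    have hY1 : X₁ ≤ Y := by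
      rw [hY]
      exact Nat.le_floor (by linarith)
    have hYX : (Y : ℝ) ≤ X := by rw [hY]; exact Nat.floor_le hX0
    have hYpos : 1 ≤ Y := by
      rw [hY]
      exact Nat.le_floor (by
        have : (0 : ℝ) ≤ X₁ := Nat.cast_nonneg _
        push_cast
        linarith)
    have hYz : (1 : ℤ) ≤ Y := by exact_mod_cast hYpos
    have h1 := hX₁ Y hY1
    rw [dist_zero_right, norm_div, Complex.norm_natCast,
      div_lt_iff₀ (by exact_mod_cast hYpos)] at h1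
    have h2 : ∑ z ∈ (ball (t : ℤ) (c : ℤ) X).filter
        (fun z => (M : ℤ) ∣ z.re - r₁ ∧ (M : ℤ) ∣ z.im - r₂),
        n0 g (nm z) = ∑ z ∈ (Icc (-(2 * (Y : ℤ))) (2 * Y) ×ˢ Icc (-(2 * (Y : ℤ))) (2 * Y)).filter
        (fun z : ℤ × ℤ => z.1 ≡ r₁ [ZMOD M] ∧ z.2 ≡ r₂ [ZMOD M] ∧
          1 ≤ z.1 ^ 2 + t * z.1 * z.2 + c * z.2 ^ 2 ∧ z.1 ^ 2 + t * z.1 * z.2 + c * z.2 ^ 2 ≤ Y),
        g (z.1 ^ 2 + t * z.1 * z.2 + c * z.2 ^ 2).toNat := by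
      refine sum_nbij' (fun z : Qd (t : ℤ) (c : ℤ) => (z.re, z.im))
        (fun p => (⟨p.1, p.2⟩ : Qd (t : ℤ) (c : ℤ))) ?_ ?_ ?_ ?_ ?_
      · intro z hz
        rw [mem_filter, mem_ball hD] at hz
        obtain ⟨⟨h3, h4⟩, h5, h6⟩ := hz
        have h7 := nm_cast hD z
        have h8 : nm z ≤ Y := by rw [hY]; exact Nat.le_floor h4
        have h9 : z.re ^ 2 + t * z.re * z.im + c * z.im ^ 2 ≤ Y := by
          rw [← h7]; exact_mod_cast h8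
        have h10 : 1 ≤ z.re ^ 2 + t * z.re * z.im + c * z.im ^ 2 := by
          rw [← h7]; exact_mod_cast h3
        obtain ⟨x, y, hx, hy⟩ : ∃ x y : ℤ, x = z.re ∧ y = z.im := ⟨_, _, rfl, rfl⟩
        rw [← hx, ← hy] at h9 h10
        have h11 : x ^ 2 + t * x * y + c * y ^ 2 ≥ x ^ 2 + t * x * y + y ^ 2 := by
          nlinarith [sq_nonneg y]
        have h12 : 3 * x ^ 2 ≤ 4 * Y ∧ 3 * y ^ 2 ≤ 4 * Y := by
          rcases ht' with h | h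
          · rw [h] at h9 h11
            constructor <;> nlinarith [sq_nonneg x, sq_nonneg y]
          · rw [h] at h9 h11
            constructor
            · nlinarith [sq_nonneg (x + 2 * y)]
            · nlinarith [sq_nonneg (2 * x + y)]
        have hb : ∀ w : ℤ, 3 * w ^ 2 ≤ 4 * Y → -(2 * (Y : ℤ)) ≤ w ∧ w ≤ 2 * Y := by
          intro w hw
          constructor
          · by_contra hcon
            push Not at hcon
            nlinarith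
          · by_contra hcon
            push Not at hcon
            nlinarith
        simp only [mem_filter, mem_product, mem_Icc, ← hx, ← hy]
        refine ⟨⟨hb x h12.1, hb y h12.2⟩, ?_, ?_, h10, h9⟩
        · rw [hx]; exact (Int.modEq_iff_dvd.2 h5).symm
        · rw [hy]; exact (Int.modEq_iff_dvd.2 h6).symm
      · intro p hp
        simp only [mem_filter, mem_product, mem_Icc] at hp
        obtain ⟨_, h3, h4, h5, h6⟩ := hp
        have h7 : (nm (⟨p.1, p.2⟩ : Qd (t : ℤ) (c : ℤ)) : ℤ) =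
            p.1 ^ 2 + t * p.1 * p.2 + c * p.2 ^ 2 := nm_cast hD _
        rw [mem_filter, mem_ball hD]
        refine ⟨⟨?_, ?_⟩, ?_, ?_⟩
        · have : (1 : ℤ) ≤ nm (⟨p.1, p.2⟩ : Qd (t : ℤ) (c : ℤ)) := by rw [h7]; exact h5
          exact_mod_cast this
        · have : (nm (⟨p.1, p.2⟩ : Qd (t : ℤ) (c : ℤ)) : ℤ) ≤ Y := by rw [h7]; exact h6
          have h8 : nm (⟨p.1, p.2⟩ : Qd (t : ℤ) (c : ℤ)) ≤ Y := by exact_mod_cast this
          exact le_trans (by exact_mod_cast h8) hYX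
        · exact Int.modEq_iff_dvd.1 h3.symm
        · exact Int.modEq_iff_dvd.1 h4.symm
      · intro z _
        rfl
      · intro p _
        rfl
      · intro z hz
        rw [mem_filter, mem_ball hD] at hz
        have h3 : nm z ≠ 0 := by omega
        rw [n0_ne g h3, ← nm_cast hD z, Int.toNat_natCast]
    rw [h2]
    exact h1.le.trans (mul_le_mul_of_nonneg_left hYX hε.le)

end Pool.Agent.W251.EG
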