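import Pool.Agent.W251.EG.Out2
import Pool.Agent.W347.EG.FINQ

/-!
Project EG (helper251): general completely multiplicative functions at the factorisations of the
values of all quadratic polynomials of class number one discriminants.
-/

set_option autoImplicit false

namespace Pool.Agent.W251.EG

open Finset Filter
open Pool.Agent.W78.GA (Qd nm ball mem_ball nm_cast)
open Pool.Agent.W78.EG
open Pool.Agent.W251.EX (Sqp tt lm n0 n0_ne)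

/-- comparison of two sums -/
theorem sum_cmp {α β : Type} [DecidableEq α] [DecidableEq β] {S : Finset α} {T small : Finset β}
    {φ : α → β} (hφ : Function.Injective φ) (h1 : ∀ p ∈ S, φ p ∈ T ∨ φ p ∈ small)
    (h2 : ∀ P ∈ T, (∃ p ∈ S, φ p = P) ∨ P ∈ small) (G : β → ℂ)
    (hG : ∀ P ∈ T, ‖G P‖ ≤ 1) (hG' : ∀ p ∈ S, ‖G (φ p)‖ ≤ 1) :
    ‖∑ p ∈ S, G (φ p) - ∑ P ∈ T, G P‖ ≤ 2 * small.card := by
  have e1 : ∑ p ∈ S, G (φ p) = ∑ P ∈ S.image φ, G P :=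
    (sum_image (fun x _ y _ h => hφ h)).symm
  have e2 : ∑ P ∈ S.image φ, G P = ∑ P ∈ S.image φ ∩ T, G P + ∑ P ∈ S.image φ \ T, G P :=
    (sum_inter_add_sum_sdiff _ _ _).symm
  have e3 : ∑ P ∈ T, G P = ∑ P ∈ T ∩ S.image φ, G P + ∑ P ∈ T \ S.image φ, G P :=
    (sum_inter_add_sum_sdiff _ _ _).symm
  rw [e1, e2, e3, inter_comm T]
  have e4 : ∑ P ∈ S.image φ ∩ T, G P + ∑ P ∈ S.image φ \ T, G P -
      (∑ P ∈ S.image φ ∩ T, G P + ∑ P ∈ T \ S.image φ, G P) =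
      ∑ P ∈ S.image φ \ T, G P - ∑ P ∈ T \ S.image φ, G P := by ring
  rw [e4]
  have e5 : ‖∑ P ∈ S.image φ \ T, G P‖ ≤ small.card := by
    refine (norm_sum_le _ _).trans ?_
    have hsub : S.image φ \ T ⊆ small := by
      intro P hP
      rw [Finset.mem_sdiff, mem_image] at hP
      obtain ⟨⟨p, hp, rfl⟩, hT⟩ := hP
      exact (h1 p hp).resolve_left hT
    calc ∑ P ∈ S.image φ \ T, ‖G P‖ ≤ ∑ P ∈ S.image φ \ T, (1 : ℝ) := by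
          refine sum_le_sum fun P hP => ?_
          rw [Finset.mem_sdiff, mem_image] at hP
          obtain ⟨⟨p, hp, rfl⟩, _⟩ := hP
          exact hG' p hp
      _ = ((S.image φ \ T).card : ℝ) := by rw [sum_const, nsmul_eq_mul, mul_one]
      _ ≤ small.card := by exact_mod_cast card_le_card hsub
  have e6 : ‖∑ P ∈ T \ S.image φ, G P‖ ≤ small.card := by
    refine (norm_sum_le _ _).trans ?_
    have hsub : T \ S.image φ ⊆ small := by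
      intro P hP
      rw [Finset.mem_sdiff, mem_image] at hP
      exact (h2 P hP.1).resolve_left hP.2
    calc ∑ P ∈ T \ S.image φ, ‖G P‖ ≤ ∑ P ∈ T \ S.image φ, (1 : ℝ) :=
          sum_le_sum fun P hP => hG P (Finset.mem_sdiff.1 hP).1
      _ = ((T \ S.image φ).card : ℝ) := by rw [sum_const, nsmul_eq_mul, mul_one]
      _ ≤ small.card := by exact_mod_cast card_le_card hsub
  calc _ ≤ ‖∑ P ∈ S.image φ \ T, G P‖ + ‖∑ P ∈ T \ S.image φ, G P‖ := norm_sub_le _ _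
    _ ≤ 2 * small.card := by linarith

/-- sums of `g₁(d) g₂(d')` over the factorisations of the values of `a m^2 + b m + e` -/
theorem sum_le {t c a b e : ℤ} {f : ℕ} {χ : DirichletCharacter ℂ f} (hF : Fd t c f χ) (ha : 0 < a)
    (h : b ^ 2 - 4 * a * e = t ^ 2 - 4 * c) {q : ℕ} (hq : 1 ≤ q) (u r : ℕ)
    {s₁ s₂ s₃ s₄ : ℝ} (hs2 : 0 ≤ s₂) (hs4 : 0 ≤ s₄) {N : ℕ} {g₁ g₂ : ℕ → ℂ} (hN : 1 ≤ N)
    (mf : ∀ m n : ℕ, m ≠ 0 → n ≠ 0 → g₁ (m * n) = g₁ m * g₁ n)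
    (pf : ∀ n : ℕ, g₁ n ^ N = 1) (pg : ∀ n : ℕ, g₂ n ^ N = 1) :
    ∃ (n₀ A C : ℕ) (K : ℝ), 1 ≤ A ∧ 1 ≤ C ∧ A * s₂ ≤ C ∧ s₄ ≤ C ∧ 0 ≤ K ∧ ∀ X : ℕ,
    ‖∑ p ∈ SV a b e q u r s₁ s₂ s₃ s₄ X, g₁ p.1 * g₂ p.2‖ ≤
      ‖∑ p ∈ SW t c (A * q) n₀ (A * r) (A * s₁ / C) (A * s₂ / C) (s₃ / C) (s₄ / C) (C * X),
        g₁ p.1 * g₂ p.2‖ + K := by
  classical
  obtain ⟨β, hb⟩ := Pool.Agent.W347.EG.parity hF.tt h
  obtain ⟨A, hA⟩ := Int.eq_ofNat_of_zero_le ha.le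
  have hA' : (A : ℤ) = a := hA.symm
  have hA1 : 1 ≤ A := by omega
  obtain ⟨C, hC⟩ := exists_nat_ge (max 1 (max (A * s₂) s₄))
  have hC1 : 1 ≤ C := by
    have : (1 : ℝ) ≤ C := (le_max_left _ _).trans hC
    exact_mod_cast this
  have hC2 : A * s₂ ≤ C := ((le_max_left _ _).trans (le_max_right _ _)).trans hC
  have hC4 : s₄ ≤ C := ((le_max_right _ _).trans (le_max_right _ _)).trans hC
  have haq : (0 : ℤ) < a * q := by positivity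
  obtain ⟨n₀, hn₀⟩ := Int.eq_ofNat_of_zero_le (Int.emod_nonneg (a * u + β) haq.ne')
  have hn₀' : (n₀ : ℤ) ≡ a * u + β [ZMOD (a * q)] := by
    have : (n₀ : ℤ) = (a * u + β) % (a * q) := hn₀.symm
    rw [this]
    exact Int.mod_modEq _ _
  set small : Finset (ℕ × ℕ) := Icc 1 (b ^ 2 + f).toNat ×ˢ Icc 1 (b ^ 2 + f).toNat with hsmall
  have hn1 : ∀ n, ‖g₁ n‖ = 1 := fun n => Complex.norm_eq_one_of_pow_eq_one (pf n) (by omega)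
  have hn2 : ∀ n, ‖g₂ n‖ = 1 := fun n => Complex.norm_eq_one_of_pow_eq_one (pg n) (by omega)
  refine ⟨n₀, A, C, 2 * small.card, hA1, hC1, hC2, hC4, by positivity, fun X => ?_⟩
  have hinj : Function.Injective (fun p : ℕ × ℕ => (A * p.1, p.2)) := by
    intro p p' hpp
    simp only [Prod.mk.injEq] at hpp
    exact Prod.ext (Nat.eq_of_mul_eq_mul_left (by omega) hpp.1) hpp.2
  have c1 := sum_cmp hinj (S := SV a b e q u r s₁ s₂ s₃ s₄ X)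
    (T := SW t c (A * q) n₀ (A * r) (A * s₁ / C) (A * s₂ / C) (s₃ / C) (s₄ / C) (C * X))
    (small := small)
    (Pool.Agent.W347.EG.fwd hF.tt hF.disc hb h hA' hA1 hn₀' hC1 hC2 hC4 hs2 hs4)
    (Pool.Agent.W347.EG.bwd hF.disc hb h hA' hA1 hn₀' hC1)
    (fun p => g₁ p.1 * g₂ p.2)
    (fun P _ => by simp only [norm_mul, hn1, hn2]; norm_num)
    (fun P _ => by simp only [norm_mul, hn1, hn2]; norm_num)
  have c2 : ∑ p ∈ SV a b e q u r s₁ s₂ s₃ s₄ X, (fun p : ℕ × ℕ => g₁ p.1 * g₂ p.2)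
      ((fun p : ℕ × ℕ => (A * p.1, p.2)) p) =
      g₁ A * ∑ p ∈ SV a b e q u r s₁ s₂ s₃ s₄ X, g₁ p.1 * g₂ p.2 := by
    rw [mul_sum]
    refine sum_congr rfl fun p hp => ?_
    have hp1 : 1 ≤ p.1 := by
      unfold SV at hp
      exact (mem_Icc.1 (mem_product.1 (mem_filter.1 hp).1).1).1
    simp only
    rw [mf A p.1 (by omega) (by omega), mul_assoc]
  have c3 : ‖∑ p ∈ SV a b e q u r s₁ s₂ s₃ s₄ X, g₁ p.1 * g₂ p.2‖ =
      ‖g₁ A * ∑ p ∈ SV a b e q u r s₁ s₂ s₃ s₄ X, g₁ p.1 * g₂ p.2‖ := by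
    rw [norm_mul, hn1, one_mul]
  rw [c3, ← c2]
  rw [add_comm]
  refine le_trans (norm_le_norm_sub_add _ (∑ P ∈ SW t c (A * q) n₀ (A * r) (A * s₁ / C)
    (A * s₂ / C) (s₃ / C) (s₄ / C) (C * X), (fun p : ℕ × ℕ => g₁ p.1 * g₂ p.2) P)) ?_
  exact add_le_add c1 le_rfl

/-- the theorem for the pairs `(d, d')` with `d d' = a m^2 + b m + e` -/
theorem outV {t c : ℕ} {f : ℕ} {χ : DirichletCharacter ℂ f} (hF : Fd (t : ℤ) (c : ℤ) f χ)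
    {a b e : ℤ} (ha : 0 < a) (hdisc : b ^ 2 - 4 * a * e = (t : ℤ) ^ 2 - 4 * (c : ℤ))
    {N : ℕ} {τ : ℂ} {g₁ g₂ : ℕ → ℂ} (hg : FGc χ N τ g₁ g₂)
    (hap : Apd N (fun z : Qd (t : ℤ) (c : ℤ) => g₂ (nm z)))
    (q : ℕ) (hq : 1 ≤ q) (u r : ℕ) (s₁ s₂ s₃ s₄ ε : ℝ) (hs₁ : 0 ≤ s₁) (hs₁₂ : s₁ < s₂)
    (hs₃ : 0 ≤ s₃) (hs₃₄ : s₃ < s₄) (hε : 0 < ε) :
    Tendsto (fun N' : ℕ => (∑ X ∈ (Icc 1 N').filter (fun X : ℕ => ε * X <
      ‖∑ p ∈ SV a b e q u r s₁ s₂ s₃ s₄ X, g₁ p.1 * g₂ p.2‖), 1 / (X : ℝ)) / Real.log N')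
      atTop (nhds 0) := by
  classical
  obtain ⟨n₀, A, C, K, hA1, hC1, hC2, hC4, hK, hle⟩ := sum_le hF ha hdisc hq u r
    (s₁ := s₁) (s₂ := s₂) (s₃ := s₃) (s₄ := s₄) (by linarith) (by linarith) hg.pos hg.m₁ hg.p₁
    hg.p₂
  have hC0 : (0 : ℝ) < C := by exact_mod_cast hC1
  have hA0 : (0 : ℝ) < A := by exact_mod_cast hA1
  refine Pool.Agent.W347.EG.bad_scales (g := fun X => ‖∑ p ∈ SV a b e q u r s₁ s₂ s₃ s₄ X,
    g₁ p.1 * g₂ p.2‖) (g' := fun X => ‖∑ p ∈ SW (t : ℤ) (c : ℤ) (A * q) n₀ (A * r) (A * s₁ / C)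
    (A * s₂ / C) (s₃ / C) (s₄ / C) X, g₁ p.1 * g₂ p.2‖) hC1 hle (fun ε' hε' => ?_) hε
  refine tt (fun X => ∑ p ∈ SW (t : ℤ) (c : ℤ) (A * q) n₀ (A * r) (A * s₁ / C)
    (A * s₂ / C) (s₃ / C) (s₄ / C) X, g₁ p.1 * g₂ p.2) (fun δ hδ => ?_) ε' hε'
  obtain ⟨N₀, h⟩ := twG hF N τ g₁ g₂ hg (Or.inr hap) (A * q) n₀ (A * r) 0
    (Nat.one_le_iff_ne_zero.2 (by positivity)) (A * s₁ / C) (A * s₂ / C) (s₃ / C) (s₄ / C)
    (by positivity) (by gcongr) (by rwa [div_le_one hC0]) (by positivity) (by gcongr)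
    (by rwa [div_le_one hC0]) δ hδ
  refine ⟨N₀, fun N' hN' => le_trans (le_of_eq (sum_congr rfl fun X _ => ?_)) (h N' hN')⟩
  have e0 : (SW (t : ℤ) (c : ℤ) (A * q) n₀ (A * r) (A * s₁ / C)
    (A * s₂ / C) (s₃ / C) (s₄ / C) X).filter (Sqp 0) =
      SW (t : ℤ) (c : ℤ) (A * q) n₀ (A * r) (A * s₁ / C)
    (A * s₂ / C) (s₃ / C) (s₄ / C) X := by
    refine filter_true_of_mem fun p _ l hl hp => ?_
    have := hp.pos
    omega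
  rw [e0]

end Pool.Agent.W251.EG
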