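import Pool.Agent.W251.EG.Out3
import Pool.Agent.W251.EG.Fd4
import Pool.Agent.W78.EG.Inst

/-!
Project EG (helper251): the results for the nine discriminants, for the hand-ins.
-/

set_option autoImplicit false

namespace Pool.Agent.W251.EG

open Finset Filter
open Pool.Agent.W78.GA (Qd nm ball mem_ball nm_cast)
open Pool.Agent.W78.EG
open Pool.Agent.W251.EX (Sqp tt lm n0 n0_ne)

/-- the nine polynomials `x^2 + t x + c` -/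
theorem fd9 (t c : ℕ) (h : (t, c) ∈ ([(0, 1), (0, 2), (1, 1), (1, 2), (1, 3), (1, 5), (1, 11),
    (1, 17), (1, 41)] : List (ℕ × ℕ))) :
    ∃ (f : ℕ) (χ : DirichletCharacter ℂ f), Fd (t : ℤ) (c : ℤ) f χ := by
  simp only [List.mem_cons, Prod.mk.injEq, List.not_mem_nil, or_false] at h
  rcases h with ⟨rfl, rfl⟩ | ⟨rfl, rfl⟩ | ⟨rfl, rfl⟩ | ⟨rfl, rfl⟩ | ⟨rfl, rfl⟩ | ⟨rfl, rfl⟩ |
      ⟨rfl, rfl⟩ | ⟨rfl, rfl⟩ | ⟨rfl, rfl⟩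
  · exact_mod_cast fd4
  all_goals exact_mod_cast fd _ _ (by simp [lst])

/-- the theorem for the pairs `(d, d')` with `d d' = a m^2 + b m + e` -/
theorem outT {t c : ℕ} {f : ℕ} {χ : DirichletCharacter ℂ f} (hF : Fd (t : ℤ) (c : ℤ) f χ)
    {a b e : ℤ} (ha : 0 < a) (hdisc : b ^ 2 - 4 * a * e = (t : ℤ) ^ 2 - 4 * (c : ℤ))
    {N : ℕ} {τ : ℂ} {g h : ℕ → ℂ} (hN : 1 ≤ N)
    (mf : ∀ m n : ℕ, m ≠ 0 → n ≠ 0 → g (m * n) = g m * g n)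
    (mg : ∀ m n : ℕ, m ≠ 0 → n ≠ 0 → h (m * n) = h m * h n)
    (pf : ∀ n : ℕ, n ≠ 0 → g n ^ N = 1) (pg : ∀ n : ℕ, n ≠ 0 → h n ^ N = 1)
    (tw : ∀ p : ℕ, p.Prime → (∃ n : ℕ, p ∣ n ^ 2 + t * n + c) → g p * h p = τ)
    (hap : ∀ (M : ℕ) (u v : ℤ), 1 ≤ M → Tendsto (fun X : ℕ =>
      (∑ z ∈ (Icc (-(2 * (X : ℤ))) (2 * X) ×ˢ Icc (-(2 * (X : ℤ))) (2 * X)).filter
        (fun z : ℤ × ℤ => z.1 ≡ u [ZMOD M] ∧ z.2 ≡ v [ZMOD M] ∧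
          1 ≤ z.1 ^ 2 + t * z.1 * z.2 + c * z.2 ^ 2 ∧ z.1 ^ 2 + t * z.1 * z.2 + c * z.2 ^ 2 ≤ X),
        h (z.1 ^ 2 + t * z.1 * z.2 + c * z.2 ^ 2).toNat) / (X : ℂ)) atTop (nhds 0))
    (q : ℕ) (hq : 1 ≤ q) (u r : ℕ) (s₁ s₂ s₃ s₄ ε : ℝ) (hs₁ : 0 ≤ s₁) (hs₁₂ : s₁ < s₂)
    (hs₃ : 0 ≤ s₃) (hs₃₄ : s₃ < s₄) (hε : 0 < ε) :
    Tendsto (fun Z : ℕ => (∑ X ∈ (Icc 1 Z).filter (fun X : ℕ => ε * X <
      ‖∑ p ∈ SV a b e q u r s₁ s₂ s₃ s₄ X, g p.1 * h p.2‖), 1 / (X : ℝ)) / Real.log Z)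
      atTop (nhds 0) := by
  have h1 := outV hF ha hdisc (fgc_n0 hF hN mf mg pf pg tw) (apdG_of hF hN mg pg hap) q hq u r
    s₁ s₂ s₃ s₄ ε hs₁ hs₁₂ hs₃ hs₃₄ hε
  refine h1.congr fun Z => ?_
  congr 1
  refine sum_congr ?_ fun _ _ => rfl
  refine filter_congr fun X _ => ?_
  have e1 : ∑ p ∈ SV a b e q u r s₁ s₂ s₃ s₄ X, n0 g p.1 * n0 h p.2 =
      ∑ p ∈ SV a b e q u r s₁ s₂ s₃ s₄ X, g p.1 * h p.2 := by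
    refine sum_congr rfl fun p hp => ?_
    unfold SV at hp
    simp only [mem_filter, mem_product, mem_Icc] at hp
    rw [n0_ne g (by omega), n0_ne h (by omega)]
  rw [e1]

/-- the Liouville function -/
theorem outTL {t c : ℕ} {f : ℕ} {χ : DirichletCharacter ℂ f} (hF : Fd (t : ℤ) (c : ℤ) f χ)
    {a b e : ℤ} (ha : 0 < a) (hdisc : b ^ 2 - 4 * a * e = (t : ℤ) ^ 2 - 4 * (c : ℤ))
    (q : ℕ) (hq : 1 ≤ q) (u r : ℕ) (s₁ s₂ s₃ s₄ ε : ℝ) (hs₁ : 0 ≤ s₁) (hs₁₂ : s₁ < s₂)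
    (hs₃ : 0 ≤ s₃) (hs₃₄ : s₃ < s₄) (hε : 0 < ε) :
    Tendsto (fun Z : ℕ => (∑ X ∈ (Icc 1 Z).filter (fun X : ℕ => ε * X <
      |∑ p ∈ SV a b e q u r s₁ s₂ s₃ s₄ X,
        (-1 : ℝ) ^ ArithmeticFunction.cardFactors (p.1 * p.2)|), 1 / (X : ℝ)) / Real.log Z)
      atTop (nhds 0) := by
  have h1 := outV hF ha hdisc (fgc_lm χ) (apdG_lm hF) q hq u r
    s₁ s₂ s₃ s₄ ε hs₁ hs₁₂ hs₃ hs₃₄ hε
  refine h1.congr fun Z => ?_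
  congr 1
  refine sum_congr ?_ fun _ _ => rfl
  refine filter_congr fun X _ => ?_
  have e1 : ∑ p ∈ SV a b e q u r s₁ s₂ s₃ s₄ X, lm p.1 * lm p.2 =
      ((∑ p ∈ SV a b e q u r s₁ s₂ s₃ s₄ X,
        (-1 : ℝ) ^ ArithmeticFunction.cardFactors (p.1 * p.2) : ℝ) : ℂ) := by
    rw [Complex.ofReal_sum]
    refine sum_congr rfl fun p hp => ?_
    unfold SV at hp
    simp only [mem_filter, mem_product, mem_Icc] at hp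
    rw [lm_mul (by omega) (by omega)]
    unfold lm
    push_cast
    rfl
  rw [e1, Complex.norm_real, Real.norm_eq_abs]

end Pool.Agent.W251.EG
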