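import Pool.Agent.W251.EG.Out4
import Pool.Agent.W436.EG.SPSA

/-!
Project EG (helper251): lower bound for the squarefree values of the nine polynomials.
-/

set_option autoImplicit false

namespace Pool.Agent.W251.EG

open Finset Filter
open Pool.Agent.W78.EG

lemma hl_odd {f : ℕ} (hf : f.Prime) {c : ℤ} (hc : 4 * c = 1 + f) (l : ℕ) (hl : l.Prime)
    (hlf : l ∣ f) (n : ℤ) : ¬ ((l ^ 2 : ℕ) : ℤ) ∣ n ^ 2 + 1 * n + c := by
  have h1 : l = f := (Nat.prime_dvd_prime_iff_eq hl hf).1 hlf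
  subst h1
  rintro ⟨k, hk⟩
  push_cast at hk
  have hp : Prime (l : ℤ) := Nat.prime_iff_prime_int.1 hl
  have h2 : (2 * n + 1) ^ 2 = (l : ℤ) * (4 * l * k - 1) := by
    linear_combination 4 * hk - hc
  have h3 : (l : ℤ) ∣ 2 * n + 1 := hp.dvd_of_dvd_pow ⟨_, h2⟩
  obtain ⟨m, hm⟩ := h3
  rw [hm] at h2
  have h4 : (l : ℤ) * m ^ 2 = 4 * l * k - 1 := by
    apply mul_left_cancel₀ hp.ne_zero
    linear_combination h2
  have h5 : (l : ℤ) ∣ 1 := ⟨4 * k - m ^ 2, by linear_combination h4⟩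
  exact hp.not_isUnit (isUnit_of_dvd_one h5)

lemma hl_even {l : ℕ} (hl : l.Prime) {e : ℕ} (hlf : l ∣ 2 ^ e) {c : ℤ} (hc : c = 1 ∨ c = 2)
    (n : ℤ) : ¬ ((l ^ 2 : ℕ) : ℤ) ∣ n ^ 2 + 0 * n + c := by
  have h1 : l = 2 := (Nat.prime_dvd_prime_iff_eq hl Nat.prime_two).1 (hl.dvd_of_dvd_pow hlf)
  subst h1
  rintro ⟨k, hk⟩
  push_cast at hk
  rcases Int.even_or_odd' n with ⟨m, rfl | rfl⟩
  · have : 4 * (m * m) + c = 4 * k := by linarith
    omega
  · have : 4 * (m * m + m) + 1 + c = 4 * k := by linarith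
    omega

theorem hl9 (t c : ℕ) (h : (t, c) ∈ ([(0, 1), (0, 2), (1, 1), (1, 2), (1, 3), (1, 5), (1, 11),
    (1, 17), (1, 41)] : List (ℕ × ℕ))) {f : ℕ} {χ : DirichletCharacter ℂ f}
    (hF : Fd (t : ℤ) (c : ℤ) f χ) : ∀ l : ℕ, l.Prime → l ∣ f → ∀ n : ℤ,
    ¬ ((l ^ 2 : ℕ) : ℤ) ∣ n ^ 2 + (t : ℤ) * n + (c : ℤ) := by
  have hd := hF.disc
  intro l hl hlf n
  simp only [List.mem_cons, Prod.mk.injEq, List.not_mem_nil, or_false] at h
  rcases h with ⟨rfl, rfl⟩ | ⟨rfl, rfl⟩ | ⟨rfl, rfl⟩ | ⟨rfl, rfl⟩ | ⟨rfl, rfl⟩ | ⟨rfl, rfl⟩ |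
      ⟨rfl, rfl⟩ | ⟨rfl, rfl⟩ | ⟨rfl, rfl⟩
  · have hf : f = 2 ^ 2 := by push_cast at hd; omega
    rw [hf] at hlf
    exact_mod_cast hl_even hl hlf (Or.inl rfl) n
  · have hf : f = 2 ^ 3 := by push_cast at hd; omega
    rw [hf] at hlf
    exact_mod_cast hl_even hl hlf (Or.inr rfl) n
  · have hf : f = 3 := by push_cast at hd; omega
    exact_mod_cast hl_odd (f := 3) (c := 1) (by norm_num) (by norm_num) l hl (hf ▸ hlf) n
  · have hf : f = 7 := by push_cast at hd; omega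
    exact_mod_cast hl_odd (f := 7) (c := 2) (by norm_num) (by norm_num) l hl (hf ▸ hlf) n
  · have hf : f = 11 := by push_cast at hd; omega
    exact_mod_cast hl_odd (f := 11) (c := 3) (by norm_num) (by norm_num) l hl (hf ▸ hlf) n
  · have hf : f = 19 := by push_cast at hd; omega
    exact_mod_cast hl_odd (f := 19) (c := 5) (by norm_num) (by norm_num) l hl (hf ▸ hlf) n
  · have hf : f = 43 := by push_cast at hd; omega
    exact_mod_cast hl_odd (f := 43) (c := 11) (by norm_num) (by norm_num) l hl (hf ▸ hlf) n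
  · have hf : f = 67 := by push_cast at hd; omega
    exact_mod_cast hl_odd (f := 67) (c := 17) (by norm_num) (by norm_num) l hl (hf ▸ hlf) n
  · have hf : f = 163 := by push_cast at hd; omega
    exact_mod_cast hl_odd (f := 163) (c := 41) (by norm_num) (by norm_num) l hl (hf ▸ hlf) n

theorem sps9 (t c : ℕ) (h : (t, c) ∈ ([(0, 1), (0, 2), (1, 1), (1, 2), (1, 3), (1, 5), (1, 11),
    (1, 17), (1, 41)] : List (ℕ × ℕ))) : S_SPSc (t : ℤ) (c : ℤ) := by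
  obtain ⟨f, χ, hF⟩ := fd9 t c h
  exact Pool.Agent.W436.EG.spsc hF (hl9 t c h hF)

end Pool.Agent.W251.EG
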