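import Pool.Agent.W251.EG.Out5
import Pool.Agent.W251.EX.Out10

/-!
Project EG (helper251): both signs of the Moebius function at the values of the nine polynomials in
a residue class.
-/

set_option autoImplicit false

namespace Pool.Agent.W251.EG

open Finset Filter
open Pool.Agent.W78.GA (Qd nm)
open Pool.Agent.W78.EG
open Pool.Agent.W251.EX (Sqp tt lm sum_null ex_scale)

open scoped Classical in
theorem null_of {P Q : ℕ → Prop} (M : ℕ) (h : ∀ X : ℕ, M ≤ X → P X → Q X)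
    (hQ : Tendsto (fun Z : ℕ => (∑ X ∈ (Icc 1 Z).filter Q, 1 / (X : ℝ)) / Real.log Z) atTop
      (nhds 0)) :
    Tendsto (fun Z : ℕ => (∑ X ∈ (Icc 1 Z).filter P, 1 / (X : ℝ)) / Real.log Z) atTop
      (nhds 0) := by
  have hlim : Tendsto (fun Z : ℕ => (∑ X ∈ Icc 1 M, 1 / (X : ℝ)) / Real.log Z +
      (∑ X ∈ (Icc 1 Z).filter Q, 1 / (X : ℝ)) / Real.log Z) atTop (nhds 0) := by
    have hl : Tendsto (fun N : ℕ => Real.log N) atTop atTop :=
      Real.tendsto_log_atTop.comp tendsto_natCast_atTop_atTop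
    have h1 : Tendsto (fun Z : ℕ => (∑ X ∈ Icc 1 M, 1 / (X : ℝ)) / Real.log Z) atTop
      (nhds 0) := hl.const_div_atTop _
    have := h1.add hQ
    simpa using this
  refine squeeze_zero' ?_ ?_ hlim
  · filter_upwards [eventually_ge_atTop 1] with Z hZ
    have : (1 : ℝ) ≤ Z := by exact_mod_cast hZ
    have := Real.log_nonneg this
    positivity
  · filter_upwards [eventually_ge_atTop 1] with Z hZ
    have h3 : (1 : ℝ) ≤ Z := by exact_mod_cast hZ
    have h4 := Real.log_nonneg h3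
    rw [← add_div]
    refine div_le_div_of_nonneg_right ?_ h4
    have hsub : (Icc 1 Z).filter P ⊆ Icc 1 M ∪ (Icc 1 Z).filter Q := by
      intro X hX
      obtain ⟨hX1, hX2⟩ := mem_filter.1 hX
      rcases le_or_gt X M with h5 | h5
      · exact mem_union_left _ (mem_Icc.2 ⟨(mem_Icc.1 hX1).1, h5⟩)
      · exact mem_union_right _ (mem_filter.2 ⟨hX1, h X h5.le hX2⟩)
    refine (sum_le_sum_of_subset_of_nonneg hsub (fun _ _ _ => by positivity)).trans ?_
    have h6 := sum_union_inter (s₁ := Icc 1 M) (s₂ := (Icc 1 Z).filter Q)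
      (f := fun X : ℕ => 1 / (X : ℝ))
    have h7 : (0 : ℝ) ≤ ∑ X ∈ Icc 1 M ∩ (Icc 1 Z).filter Q, 1 / (X : ℝ) :=
      sum_nonneg (fun _ _ => by positivity)
    linarith

/-- from almost all scales to all scales -/
theorem all_of {T : ℕ → ℕ} (hT : Monotone T)
    (h : ∀ ε : ℝ, 0 < ε → open scoped Classical in
      Tendsto (fun Z : ℕ => (∑ X ∈ (Icc 1 Z).filter (fun X : ℕ =>
      (T X : ℝ) < (X : ℝ) / Real.log X ^ (2 * Real.log 2 + ε)), 1 / (X : ℝ)) / Real.log Z)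
      atTop (nhds 0)) (δ : ℝ) (hδ : 0 < δ) :
    ∃ N₀ : ℕ, ∀ N : ℕ, N₀ ≤ N → (N : ℝ) ^ (1 - δ) ≤ T N := by
  obtain ⟨η, hη⟩ : ∃ η : ℝ, η = min δ 1 / 4 := ⟨_, rfl⟩
  have hη0 : 0 < η := by rw [hη]; have := lt_min hδ one_pos; linarith
  have hη1 : η < 1 := by rw [hη]; have := min_le_right δ 1; linarith
  have hηδ : 2 * η ≤ δ := by rw [hη]; have := min_le_left δ 1; linarith
  obtain ⟨N₁, h1⟩ := ex_scale (h 1 one_pos) η hη0 hη1
  have hev : ∀ᶠ x : ℝ in atTop, Real.log x ^ (2 * Real.log 2 + 1) ≤ x ^ η := by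
    have h2 := (isLittleO_log_rpow_rpow_atTop (2 * Real.log 2 + 1) hη0).bound one_pos
    filter_upwards [h2, eventually_ge_atTop 1] with x hx hx1
    rw [one_mul, Real.norm_eq_abs, Real.norm_eq_abs,
      abs_of_nonneg (Real.rpow_nonneg (Real.log_nonneg hx1) _),
      abs_of_nonneg (Real.rpow_nonneg (by linarith) _)] at hx
    exact hx
  obtain ⟨x₀, hx₀⟩ := eventually_atTop.1 hev
  refine ⟨max (max N₁ 2) ⌈x₀⌉₊, fun N hN => ?_⟩
  have hN1 : N₁ ≤ N := (le_max_left _ _).trans ((le_max_left _ _).trans hN)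
  have hN2 : 2 ≤ N := (le_max_right _ _).trans ((le_max_left _ _).trans hN)
  have hNx : x₀ ≤ N := (Nat.le_ceil _).trans (by exact_mod_cast (le_max_right _ _).trans hN)
  have hN0 : (0 : ℝ) < N := by positivity
  have hNr : (1 : ℝ) ≤ N := by exact_mod_cast (by omega : 1 ≤ N)
  obtain ⟨X, hXN, hX, hP⟩ := h1 N hN1
  push Not at hP
  have hX0 : (0 : ℝ) < X := lt_of_lt_of_le (Real.rpow_pos_of_pos hN0 _) hX
  have hX1 : (1 : ℝ) ≤ X := by
    have : 0 < X := by exact_mod_cast hX0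
    exact_mod_cast this
  have hlog2 : 0 < 2 * Real.log 2 + 1 := by
    have := Real.log_pos (show (1 : ℝ) < 2 by norm_num)
    linarith
  have h3 : (T X : ℝ) ≤ T N := by exact_mod_cast hT hXN
  have h4 : Real.log X ^ (2 * Real.log 2 + 1) ≤ (N : ℝ) ^ η := by
    refine le_trans ?_ (hx₀ N hNx)
    exact Real.rpow_le_rpow (Real.log_nonneg hX1)
      (Real.log_le_log hX0 (by exact_mod_cast hXN)) hlog2.le
  rcases eq_or_lt_of_le (Real.rpow_nonneg (Real.log_nonneg hX1) (2 * Real.log 2 + 1)) with h5 | h5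
  · have h6 : Real.log X = 0 := by
      by_contra h7
      have h8 : 0 < Real.log X := lt_of_le_of_ne (Real.log_nonneg hX1) (Ne.symm h7)
      have := Real.rpow_pos_of_pos h8 (2 * Real.log 2 + 1)
      linarith
    exfalso
    have h7 : (N : ℝ) ^ (1 - η) ≤ 1 := by
      have h8 : (X : ℝ) = 1 := by
        rcases Real.log_eq_zero.1 h6 with h9 | h9 | h9
        · linarith
        · exact h9
        · linarith
      rwa [h8] at hX
    have h8 : 1 < (N : ℝ) ^ (1 - η) :=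
      Real.one_lt_rpow (by exact_mod_cast hN2) (by linarith)
    linarith
  · have h6 : (N : ℝ) ^ (1 - δ) ≤ (X : ℝ) / Real.log X ^ (2 * Real.log 2 + 1) := by
      rw [le_div_iff₀ h5]
      calc (N : ℝ) ^ (1 - δ) * Real.log X ^ (2 * Real.log 2 + 1)
          ≤ (N : ℝ) ^ (1 - δ) * (N : ℝ) ^ η :=
            mul_le_mul_of_nonneg_left h4 (Real.rpow_nonneg hN0.le _)
        _ = (N : ℝ) ^ (1 - δ + η) := (Real.rpow_add hN0 _ _).symm
        _ ≤ (N : ℝ) ^ (1 - η) := Real.rpow_le_rpow_of_exponent_le hNr (by linarith)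
        _ ≤ X := hX
    exact h6.trans (hP.trans h3)

open scoped Classical in
/-- the number of `n` -/
noncomputable def cm (t c q a : ℕ) (e : ℤ) (X : ℕ) : ℕ :=
  ((range (X + 1)).filter (fun n : ℕ => 1 ≤ n + t ∧ n ≡ a [MOD q] ∧
    ArithmeticFunction.moebius (n ^ 2 + t * n + c) = e)).card

theorem cm_mono (t c q a : ℕ) (e : ℤ) : Monotone (cm t c q a e) := by
  classical
  intro X Y h
  unfold cm
  refine card_le_card fun n hn => ?_
  rw [mem_filter, mem_range] at hn ⊢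
  exact ⟨by omega, hn.2⟩

variable {t c : ℕ} {f : ℕ} {χ : DirichletCharacter ℂ f}

open scoped Classical in
/-- the sum of the Moebius function over all pairs in a residue class -/
theorem muSum (hF : Fd (t : ℤ) (c : ℤ) f χ) (q : ℕ) (hq : 1 ≤ q) (a : ℕ) (ε : ℝ) (hε : 0 < ε) :
    Tendsto (fun Z : ℕ => (∑ X ∈ (Icc 1 Z).filter (fun X : ℕ => ε * X <
      ∑ r ∈ range q, ‖∑ p ∈ (SW (t : ℤ) (c : ℤ) q a r 0 1 0 1 X).filter
      (fun p => Squarefree (p.1 * p.2)), lm p.1 * lm p.2‖), 1 / (X : ℝ)) / Real.log Z)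
      atTop (nhds 0) :=
  sum_null hq (fun r _ ε' hε' => tt (fun X => ∑ p ∈ (SW (t : ℤ) (c : ℤ) q a r 0 1 0 1 X).filter
      (fun p => Squarefree (p.1 * p.2)), lm p.1 * lm p.2)
    (fun δ hδ => tsG hF 2 1 lm lm (fgc_lm χ) (Or.inr (apdG_lm hF)) q a r hq 0 1 0 1 le_rfl
      one_pos le_rfl le_rfl one_pos le_rfl δ hδ) ε' hε') ε hε

open scoped Classical in
/-- both signs of the Moebius function in a residue class, at almost all scales -/
theorem outMC (hF : Fd (t : ℤ) (c : ℤ) f χ) (hS : S_SPSc (t : ℤ) (c : ℤ)) (q a : ℕ) (hq : 1 ≤ q)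
    (hqa : ∀ l : ℕ, l.Prime → l ^ 2 ∣ q → ¬ l ^ 2 ∣ a ^ 2 + t * a + c) (e : ℤ)
    (he : e = 1 ∨ e = -1) (ε : ℝ) (hε : 0 < ε) :
    Tendsto (fun Z : ℕ => (∑ X ∈ (Icc 1 Z).filter (fun X : ℕ =>
      (cm t c q a e X : ℝ) < (X : ℝ) / Real.log X ^ (2 * Real.log 2 + ε)), 1 / (X : ℝ)) /
      Real.log Z) atTop (nhds 0) := by
  have ht := t_le hF
  have hc := c_pos hF
  obtain ⟨c₁, hc₁, X₀, hlow⟩ := hS q a hq
    (fun l hl hlq hd => hqa l hl hlq (by exact_mod_cast hd))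
  obtain ⟨N₁, hpn⟩ := pnG hF (c₁ / 4) ε (by positivity) hε
  refine null_of (max X₀ N₁) (fun X hX hlt => ?_) (muSum hF q hq a (c₁ / 2) (by positivity))
  by_contra hcon
  push Not at hcon
  have h1 := hlow X ((le_max_left _ _).trans hX)
  obtain ⟨B, hB⟩ : ∃ B : Finset (ℕ × ℕ), B = (SP (t : ℤ) (c : ℤ) X).filter
    (fun p => Squarefree (p.1 * p.2) ∧ ∃ n : ℕ, 0 < 2 * (n : ℤ) + (t : ℤ) ∧
      (p.1 * p.2 : ℤ) = (n : ℤ) ^ 2 + (t : ℤ) * n + (c : ℤ) ∧ n ≡ a [MOD q]) := ⟨_, rfl⟩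
  rw [← hB] at h1
  have hBm : ∀ p ∈ B, p ∈ SP (t : ℤ) (c : ℤ) X ∧ Squarefree (p.1 * p.2) ∧ 1 ≤ p.1 ∧ p.1 ≤ X ∧
      1 ≤ p.2 ∧ p.2 ≤ X ∧ ∃ n : ℕ, 1 ≤ n + t ∧ p.1 * p.2 = n ^ 2 + t * n + c ∧
      n ≡ a [MOD q] := by
    intro p hp
    rw [hB] at hp
    obtain ⟨h2, h3, n, h4, h5, h6⟩ := mem_filter.1 hp
    obtain ⟨h7, h8⟩ := (fcond n p.1 p.2).1 ⟨h4, h5⟩
    have h9 := h2
    unfold SP at h9
    simp only [mem_filter, mem_product, mem_Icc] at h9
    exact ⟨h2, h3, h9.1.1.1, h9.1.1.2, h9.1.2.1, h9.1.2.2, n, h7, h8, h6⟩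
  -- the sum of `λ(d d')` over `B`
  have hsum : ‖∑ p ∈ B, lm p.1 * lm p.2‖ ≤ c₁ / 2 * X := by
    refine le_trans ?_ hcon
    have h2 : ∑ p ∈ B, lm p.1 * lm p.2 = ∑ r ∈ range q,
        ∑ p ∈ (SW (t : ℤ) (c : ℤ) q a r 0 1 0 1 X).filter (fun p => Squarefree (p.1 * p.2)),
        lm p.1 * lm p.2 := by
      rw [← sum_fiberwise_of_maps_to (s := B) (t := range q) (g := fun p : ℕ × ℕ => p.1 % q)
        (fun p _ => mem_range.2 (Nat.mod_lt _ (by omega)))]
      refine sum_congr rfl fun r hr => ?_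
      refine sum_congr ?_ fun _ _ => rfl
      have hr' : r % q = r := Nat.mod_eq_of_lt (mem_range.1 hr)
      ext p
      rw [mem_filter, mem_filter, mem_SWn]
      constructor
      · rintro ⟨h3, h4⟩
        obtain ⟨h5, h6, h7, h8, h9, h10, n, h11, h12, h13⟩ := hBm p h3
        refine ⟨⟨⟨⟨h7, h8⟩, h9, h10⟩, ⟨n, h11, h12, h13, ?_⟩, ?_, ?_, ?_, ?_⟩, h6⟩
        · show p.1 % q = r % q
          rw [h4, hr']
        · rw [zero_mul]; exact_mod_cast h7
        · rw [one_mul]; exact_mod_cast h8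
        · rw [zero_mul]; exact_mod_cast h9
        · rw [one_mul]; exact_mod_cast h10
      · rintro ⟨⟨⟨h3, h4⟩, ⟨n, h5, h6, h7, h8⟩, _⟩, h9⟩
        have h10 := (fcond n p.1 p.2).2 ⟨h5, h6⟩
        refine ⟨?_, ?_⟩
        · rw [hB]
          refine mem_filter.2 ⟨?_, h9, n, h10.1, h10.2, h7⟩
          unfold SP
          rw [mem_filter, mem_product, mem_Icc, mem_Icc]
          exact ⟨⟨h3, h4⟩, n, h10.1, h10.2⟩
        · have h11 : p.1 % q = r % q := h8
          rw [h11, hr']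
    rw [h2]
    exact norm_sum_le _ _
  -- the pairs with the sign `e`
  obtain ⟨S, hSd⟩ : ∃ S : Finset (ℕ × ℕ), S = B.filter
    (fun p => ArithmeticFunction.moebius (p.1 * p.2) = e) := ⟨_, rfl⟩
  have hval : ∀ p ∈ B, ArithmeticFunction.moebius (p.1 * p.2) = 1 ∨
      ArithmeticFunction.moebius (p.1 * p.2) = -1 := by
    intro p hp
    have h2 := (hBm p hp).2.1
    rw [ArithmeticFunction.moebius_apply_of_squarefree h2]
    exact neg_one_pow_eq_or ℤ _
  have hlm : ∀ p ∈ B, lm p.1 * lm p.2 =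
      ((ArithmeticFunction.moebius (p.1 * p.2) : ℤ) : ℂ) := by
    intro p hp
    obtain ⟨_, h2, h3, _, h4, _, _⟩ := hBm p hp
    rw [lm_mul (by omega) (by omega), ArithmeticFunction.moebius_apply_of_squarefree h2]
    unfold lm
    push_cast
    rfl
  have hS1 : c₁ / 4 * X ≤ (S.card : ℝ) := by
    have h2 : ∑ p ∈ B, lm p.1 * lm p.2 = ((∑ p ∈ B,
        (ArithmeticFunction.moebius (p.1 * p.2) : ℝ) : ℝ) : ℂ) := by
      rw [Complex.ofReal_sum]
      refine sum_congr rfl fun p hp => ?_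
      rw [hlm p hp]
      push_cast
      rfl
    rw [h2, Complex.norm_real, Real.norm_eq_abs] at hsum
    have h3 : (e : ℝ) * ∑ p ∈ B, (ArithmeticFunction.moebius (p.1 * p.2) : ℝ) =
        2 * (S.card : ℝ) - B.card := by
      have h4 : ∀ p ∈ B, (e : ℝ) * (ArithmeticFunction.moebius (p.1 * p.2) : ℝ) =
          2 * (if ArithmeticFunction.moebius (p.1 * p.2) = e then 1 else 0) - 1 := by
        intro p hp
        rcases he with rfl | rfl
        · rcases hval p hp with h5 | h5 <;> rw [h5] <;> norm_num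
        · rcases hval p hp with h5 | h5 <;> rw [h5] <;> norm_num
      rw [mul_sum, sum_congr rfl h4, sum_sub_distrib, ← mul_sum, sum_boole, hSd, sum_const,
        nsmul_eq_mul, mul_one]
    have h4 : |(e : ℝ) * ∑ p ∈ B, (ArithmeticFunction.moebius (p.1 * p.2) : ℝ)| ≤
        c₁ / 2 * X := by
      rw [abs_mul]
      have : |(e : ℝ)| = 1 := by rcases he with rfl | rfl <;> norm_num
      rw [this, one_mul]
      exact hsum
    have h5 := (abs_le.1 h4).1
    linarith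
  have hSm : ∀ p ∈ S, p ∈ B ∧ ArithmeticFunction.moebius (p.1 * p.2) = e := by
    intro p hp
    rw [hSd] at hp
    exact mem_filter.1 hp
  have h3 := hpn X ((le_max_right _ _).trans hX) S
    (fun p hp => ⟨(hBm p (hSm p hp).1).1, (hBm p (hSm p hp).1).2.1⟩) hS1
  have h4 : (S.image (fun p : ℕ × ℕ => Nat.sqrt (p.1 * p.2 - c))).card ≤ cm t c q a e X := by
    unfold cm
    refine card_le_card fun n hn => ?_
    obtain ⟨p, hp, rfl⟩ := mem_image.1 hn
    obtain ⟨hpB, hpe⟩ := hSm p hp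
    obtain ⟨_, _, _, h8, _, h10, n, h11, h12, h13⟩ := hBm p hpB
    have h14 : Nat.sqrt (p.1 * p.2 - c) = n := by
      rw [h12]
      exact fsqrt ht n
    rw [h14, mem_filter, mem_range, ← h12]
    refine ⟨?_, h11, h13, hpe⟩
    by_contra hcon2
    push Not at hcon2
    have h15 : p.1 * p.2 ≤ X * X := Nat.mul_le_mul h8 h10
    nlinarith [Nat.zero_le (t * n)]
  have h5 : ((S.image (fun p : ℕ × ℕ => Nat.sqrt (p.1 * p.2 - c))).card : ℝ) ≤
      cm t c q a e X := by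
    exact_mod_cast h4
  linarith

end Pool.Agent.W251.EG
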