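import Pool.Agent.W251.EG.RC3
import Pool.Agent.W251.EG.Out6

/-!
Project EG (helper251): completely multiplicative functions with values `1`, `-1` whose values at
the primes depend on residue classes.
-/

set_option autoImplicit false

namespace Pool.Agent.W251.EG

open Finset Filter
open Pool.Agent.W78.GA (Qd nm nm_cast mul_star_self')
open Pool.Agent.W78.EG
open Pool.Agent.W251.EX (Sqp tt sum_null)
open Pool.Agent.W738.EG (red red_eq PerM)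

/-- the function with the value `1` at `0` -/
noncomputable def fz (F : ℕ → ℤ) (n : ℕ) : ℂ := if n = 0 then 1 else (F n : ℂ)

lemma fz_ne {F : ℕ → ℤ} {n : ℕ} (h : n ≠ 0) : fz F n = (F n : ℂ) := if_neg h

/-- completely multiplicative functions with values `1`, `-1` -/
structure Sg (F : ℕ → ℤ) : Prop where
  mul : ∀ x y : ℕ, x ≠ 0 → y ≠ 0 → F (x * y) = F x * F y
  pm : ∀ n : ℕ, n ≠ 0 → F n = 1 ∨ F n = -1

lemma Sg.fmul {F : ℕ → ℤ} (h : Sg F) (x y : ℕ) (hx : x ≠ 0) (hy : y ≠ 0) :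
    fz F (x * y) = fz F x * fz F y := by
  rw [fz_ne hx, fz_ne hy, fz_ne (Nat.mul_ne_zero hx hy), h.mul x y hx hy]
  push_cast
  rfl

lemma Sg.sq {F : ℕ → ℤ} (h : Sg F) (n : ℕ) : fz F n ^ 2 = 1 := by
  by_cases hn : n = 0
  · rw [fz, if_pos hn, one_pow]
  · rw [fz_ne hn]
    rcases h.pm n hn with h1 | h1 <;> rw [h1] <;> norm_num

lemma Sg.nrm {F : ℕ → ℤ} (h : Sg F) (n : ℕ) : ‖fz F n‖ = 1 :=
  Complex.norm_eq_one_of_pow_eq_one (h.sq n) (by norm_num)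

variable {t c : ℕ} {f : ℕ} {χ : DirichletCharacter ℂ f}

lemma Sg.fgc {F : ℕ → ℤ} (h : Sg F) (χ : DirichletCharacter ℂ f) : FGc χ 2 1 (fz F) (fz F) where
  pos := by norm_num
  m₁ := h.fmul
  m₂ := h.fmul
  p₁ := h.sq
  p₂ := h.sq
  tw := fun p _ _ => by rw [← pow_two]; exact h.sq p

/-- the value at a prime `Q(x, y)` not dividing `m` is determined by `x`, `y` modulo `m` -/
structure Dt (t c m : ℕ) (E : ℤ → ℤ → ℤ) (F : ℕ → ℤ) : Prop where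
  pos : 1 ≤ m
  per : ∀ x y u v : ℤ, x ≡ u [ZMOD m] → y ≡ v [ZMOD m] → E x y = E u v
  val : ∀ (x y : ℤ) (p : ℕ), p.Prime → ¬ p ∣ m → x ^ 2 + t * x * y + c * y ^ 2 = p → F p = E x y

/-- `E` is not multiplicative -/
def Nm (t c m : ℕ) (E : ℤ → ℤ → ℤ) : Prop := ∃ x y u v : ℤ,
  IsCoprime (x ^ 2 + t * x * y + c * y ^ 2) (m : ℤ) ∧
  IsCoprime (u ^ 2 + t * u * v + c * v ^ 2) (m : ℤ) ∧
  E (x * u - c * y * v) (x * v + y * u + t * y * v) ≠ E x y * E u v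

theorem apdF (hF : Fd (t : ℤ) (c : ℤ) f χ) {F : ℕ → ℤ} (h : Sg F) {m : ℕ} {E : ℤ → ℤ → ℤ}
    (hE : Dt t c m E F) (hne : Nm t c m E) :
    Apd 2 (fun z : Qd (t : ℤ) (c : ℤ) => fz F (nm z)) := by
  have hD := hDG hF
  have hP := Pool.Agent.W290.EG.pid hF
  have hcop : ∀ z : Qd (t : ℤ) (c : ℤ),
      IsCoprime (z.re ^ 2 + t * z.re * z.im + c * z.im ^ 2) (m : ℤ) →
      IsCoprime z (m : Qd (t : ℤ) (c : ℤ)) := by
    intro z hz
    have h1 := hz.map (Int.castRingHom (Qd (t : ℤ) (c : ℤ)))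
    have h2 := nm_cast hD z
    rw [← h2] at h1
    have h3 : IsCoprime ((nm z : ℕ) : Qd (t : ℤ) (c : ℤ)) ((m : ℕ) : Qd (t : ℤ) (c : ℤ)) := by
      simpa using h1
    rw [← mul_star_self' hD] at h3
    exact h3.of_mul_left_left
  refine apdE hF hP (lconG hF) (Pool.Agent.W240.EG.lnv hF hP (lconG hF)) (m := m)
    (E := fun z => ((E z.re z.im : ℤ) : ℂ)) ⟨hE.pos, ?_, h.fmul, h.nrm, ?_⟩ ?_ (by norm_num) h.sq
  · intro z z' hzz
    rw [red_eq] at hzz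
    show ((E z.re z.im : ℤ) : ℂ) = ((E z'.re z'.im : ℤ) : ℂ)
    rw [hE.per z.re z.im z'.re z'.im (Int.modEq_iff_dvd.2 (by
      have := hzz.1
      rw [← Int.neg_sub, dvd_neg]
      exact this)) (Int.modEq_iff_dvd.2 (by
      have := hzz.2
      rw [← Int.neg_sub, dvd_neg]
      exact this))]
  · intro z hz hzm
    have h2 := nm_cast hD z
    rw [fz_ne hz.ne_zero, hE.val z.re z.im (nm z) hz hzm h2.symm]
  · obtain ⟨x, y, u, v, h1, h2, h3⟩ := hne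
    refine ⟨⟨x, y⟩, ⟨u, v⟩, hcop _ h1, hcop _ h2, ?_⟩
    intro h4
    apply h3
    have h5 : ((⟨x, y⟩ : Qd (t : ℤ) (c : ℤ)) * ⟨u, v⟩).re = x * u - c * y * v := by
      rw [QuadraticAlgebra.re_mul]
      ring
    have h6 : ((⟨x, y⟩ : Qd (t : ℤ) (c : ℤ)) * ⟨u, v⟩).im = x * v + y * u + t * y * v := by
      rw [QuadraticAlgebra.im_mul]
    beta_reduce at h4
    rw [h5, h6] at h4
    exact_mod_cast h4

open scoped Classical in
/-- weighted sums of `F(n^2+tn+c)` over `n ≡ a mod q` are small at almost all scales -/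
theorem outF (hF : Fd (t : ℤ) (c : ℤ) f χ) {F : ℕ → ℤ} (h : Sg F)
    (hap : Apd 2 (fun z : Qd (t : ℤ) (c : ℤ) => fz F (nm z))) (q : ℕ) (hq : 1 ≤ q) (a r : ℕ)
    (s₁ s₂ s₃ s₄ ε : ℝ) (hs₁ : 0 ≤ s₁)
    (hs₁₂ : s₁ < s₂) (hs₂ : s₂ ≤ 1) (hs₃ : 0 ≤ s₃) (hs₃₄ : s₃ < s₄) (hs₄ : s₄ ≤ 1) (hε : 0 < ε) :
    Tendsto (fun N : ℕ => (∑ X ∈ (Icc 1 N).filter (fun X : ℕ => ε * X <
      |∑ n ∈ (range (X + 1)).filter (fun n => 1 ≤ n + t ∧ n ≡ a [MOD q]),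
        (F (n ^ 2 + t * n + c) : ℝ) *
        (((n ^ 2 + t * n + c).divisors.filter (fun d : ℕ => d ≡ r [MOD q] ∧ s₁ * X < (d : ℝ) ∧
          (d : ℝ) ≤ s₂ * X ∧ s₃ * X < (((n ^ 2 + t * n + c) / d : ℕ) : ℝ) ∧
          (((n ^ 2 + t * n + c) / d : ℕ) : ℝ) ≤ s₄ * X)).card : ℝ)|), 1 / (X : ℝ)) / Real.log N)
      atTop (nhds 0) := by
  have ht := t_le hF
  have hc := c_pos hF
  have h := tt (fun X => ∑ p ∈ (SW (t : ℤ) (c : ℤ) q a r s₁ s₂ s₃ s₄ X).filter (Sqp 0),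
      fz F p.1 * fz F p.2)
    (fun ε' hε' => twG hF 2 1 (fz F) (fz F) (h.fgc χ) (Or.inr hap) q a r 0 hq s₁ s₂ s₃ s₄ hs₁
      hs₁₂ hs₂ hs₃ hs₃₄ hs₄ ε' hε') ε hε
  rename_i hS
  refine h.congr fun N => ?_
  congr 1
  refine sum_congr ?_ fun _ _ => rfl
  ext X
  rw [mem_filter, mem_filter]
  refine and_congr_right fun _ => ?_
  have e0 : (SW (t : ℤ) (c : ℤ) q a r s₁ s₂ s₃ s₄ X).filter (Sqp 0) =
      SW (t : ℤ) (c : ℤ) q a r s₁ s₂ s₃ s₄ X := by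
    refine filter_true_of_mem fun p _ l hl hp => ?_
    have := hp.pos
    omega
  have e1 : ∑ p ∈ (SW (t : ℤ) (c : ℤ) q a r s₁ s₂ s₃ s₄ X).filter (Sqp 0), fz F p.1 * fz F p.2 =
      ((∑ n ∈ (range (X + 1)).filter (fun n => 1 ≤ n + t ∧ n ≡ a [MOD q]),
        (F (n ^ 2 + t * n + c) : ℝ) *
        (((n ^ 2 + t * n + c).divisors.filter (fun d : ℕ => d ≡ r [MOD q] ∧ s₁ * X < (d : ℝ) ∧
          (d : ℝ) ≤ s₂ * X ∧ s₃ * X < (((n ^ 2 + t * n + c) / d : ℕ) : ℝ) ∧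
          (((n ^ 2 + t * n + c) / d : ℕ) : ℝ) ≤ s₄ * X)).card : ℝ) : ℝ) : ℂ) := by
    rw [e0, convG ht hc (fun x y => fz F x * fz F y) q a r s₁ s₂ s₃ s₄ hs₂ hs₄ X,
      Complex.ofReal_sum]
    refine sum_congr rfl fun n _ => ?_
    have e2 : ∀ d ∈ (n ^ 2 + t * n + c).divisors.filter (fun d : ℕ => d ≡ r [MOD q] ∧
          s₁ * X < (d : ℝ) ∧
          (d : ℝ) ≤ s₂ * X ∧ s₃ * X < (((n ^ 2 + t * n + c) / d : ℕ) : ℝ) ∧
          (((n ^ 2 + t * n + c) / d : ℕ) : ℝ) ≤ s₄ * X),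
        fz F d * fz F ((n ^ 2 + t * n + c) / d) = ((F (n ^ 2 + t * n + c) : ℤ) : ℂ) := by
      intro d hd
      have hd1 := (Nat.mem_divisors.1 (mem_filter.1 hd).1).1
      have hdd : d * ((n ^ 2 + t * n + c) / d) = n ^ 2 + t * n + c := Nat.mul_div_cancel' hd1
      have hp := fpos (t := t) hc n
      have hd0 : d ≠ 0 := fun h0 => by
        rw [h0, Nat.zero_mul] at hdd
        omega
      have hd2 : (n ^ 2 + t * n + c) / d ≠ 0 := fun h0 => by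
        rw [h0, Nat.mul_zero] at hdd
        omega
      rw [← hS.fmul _ _ hd0 hd2, hdd, fz_ne hp.ne']
    rw [sum_congr rfl e2, sum_const, nsmul_eq_mul]
    push_cast
    ring
  rw [e1, Complex.norm_real, Real.norm_eq_abs]

open scoped Classical in
/-- the number of `n` -/
noncomputable def cf (t c q a : ℕ) (F : ℕ → ℤ) (e : ℤ) (X : ℕ) : ℕ :=
  ((range (X + 1)).filter (fun n : ℕ => 1 ≤ n + t ∧ n ≡ a [MOD q] ∧
    Squarefree (n ^ 2 + t * n + c) ∧ F (n ^ 2 + t * n + c) = e)).card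

theorem cf_mono (t c q a : ℕ) (F : ℕ → ℤ) (e : ℤ) : Monotone (cf t c q a F e) := by
  classical
  intro X Y h
  unfold cf
  refine card_le_card fun n hn => ?_
  rw [mem_filter, mem_range] at hn ⊢
  exact ⟨by omega, hn.2⟩

open scoped Classical in
/-- both signs in a residue class, at almost all scales -/
theorem outFC (hF : Fd (t : ℤ) (c : ℤ) f χ) (hS : S_SPSc (t : ℤ) (c : ℤ)) {F : ℕ → ℤ} (hSg : Sg F)
    (hap : Apd 2 (fun z : Qd (t : ℤ) (c : ℤ) => fz F (nm z))) (q a : ℕ) (hq : 1 ≤ q)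
    (hqa : ∀ l : ℕ, l.Prime → l ^ 2 ∣ q → ¬ l ^ 2 ∣ a ^ 2 + t * a + c) (e : ℤ)
    (he : e = 1 ∨ e = -1) (ε : ℝ) (hε : 0 < ε) :
    Tendsto (fun Z : ℕ => (∑ X ∈ (Icc 1 Z).filter (fun X : ℕ =>
      (cf t c q a F e X : ℝ) < (X : ℝ) / Real.log X ^ (2 * Real.log 2 + ε)), 1 / (X : ℝ)) /
      Real.log Z) atTop (nhds 0) := by
  have ht := t_le hF
  have hc := c_pos hF
  obtain ⟨c₁, hc₁, X₀, hlow⟩ := hS q a hq
    (fun l hl hlq hd => hqa l hl hlq (by exact_mod_cast hd))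
  obtain ⟨N₁, hpn⟩ := pnG hF (c₁ / 4) ε (by positivity) hε
  have hnull : Tendsto (fun Z : ℕ => (∑ X ∈ (Icc 1 Z).filter (fun X : ℕ => c₁ / 2 * X <
      ∑ r ∈ range q, ‖∑ p ∈ (SW (t : ℤ) (c : ℤ) q a r 0 1 0 1 X).filter
      (fun p => Squarefree (p.1 * p.2)), fz F p.1 * fz F p.2‖), 1 / (X : ℝ)) / Real.log Z)
      atTop (nhds 0) :=
    sum_null hq (fun r _ ε' hε' => tt (fun X => ∑ p ∈ (SW (t : ℤ) (c : ℤ) q a r 0 1 0 1 X).filter
      (fun p => Squarefree (p.1 * p.2)), fz F p.1 * fz F p.2)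
    (fun δ hδ => tsG hF 2 1 (fz F) (fz F) (hSg.fgc χ) (Or.inr hap) q a r hq 0 1 0 1 le_rfl
      one_pos le_rfl le_rfl one_pos le_rfl δ hδ) ε' hε') (c₁ / 2) (by positivity)
  refine null_of (max X₀ N₁) (fun X hX hlt => ?_) hnull
  by_contra hcon
  push Not at hcon
  have h1 := hlow X ((le_max_left _ _).trans hX)
  obtain ⟨B, hB⟩ : ∃ B : Finset (ℕ × ℕ), B = (SP (t : ℤ) (c : ℤ) X).filter
    (fun p => Squarefree (p.1 * p.2) ∧ ∃ n : ℕ, 0 < 2 * (n : ℤ) + (t : ℤ) ∧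
      (p.1 * p.2 : ℤ) = (n : ℤ) ^ 2 + (t : ℤ) * n + (c : ℤ) ∧ n ≡ a [MOD q]) := ⟨_, rfl⟩
  rw [← hB] at h1
  have hBm : ∀ p ∈ B, p ∈ SP (t : ℤ) (c : ℤ) X ∧ Squarefree (p.1 * p.2) ∧ 1 ≤ p.1 ∧ p.1 ≤ X ∧
      1 ≤ p.2 ∧ p.2 ≤ X ∧ ∃ n : ℕ, 1 ≤ n + t ∧ p.1 * p.2 = n ^ 2 + t * n + c ∧
      n ≡ a [MOD q] := by
    intro p hp
    rw [hB] at hp
    obtain ⟨h2, h3, n, h4, h5, h6⟩ := mem_filter.1 hp
    obtain ⟨h7, h8⟩ := (fcond n p.1 p.2).1 ⟨h4, h5⟩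
    have h9 := h2
    unfold SP at h9
    simp only [mem_filter, mem_product, mem_Icc] at h9
    exact ⟨h2, h3, h9.1.1.1, h9.1.1.2, h9.1.2.1, h9.1.2.2, n, h7, h8, h6⟩
  -- the sum over `B`
  have hsum : ‖∑ p ∈ B, fz F p.1 * fz F p.2‖ ≤ c₁ / 2 * X := by
    refine le_trans ?_ hcon
    have h2 : ∑ p ∈ B, fz F p.1 * fz F p.2 = ∑ r ∈ range q,
        ∑ p ∈ (SW (t : ℤ) (c : ℤ) q a r 0 1 0 1 X).filter (fun p => Squarefree (p.1 * p.2)),
        fz F p.1 * fz F p.2 := by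
      rw [← sum_fiberwise_of_maps_to (s := B) (t := range q) (g := fun p : ℕ × ℕ => p.1 % q)
        (fun p _ => mem_range.2 (Nat.mod_lt _ (by omega)))]
      refine sum_congr rfl fun r hr => ?_
      refine sum_congr ?_ fun _ _ => rfl
      have hr' : r % q = r := Nat.mod_eq_of_lt (mem_range.1 hr)
      ext p
      rw [mem_filter, mem_filter, mem_SWn]
      constructor
      · rintro ⟨h3, h4⟩
        obtain ⟨h5, h6, h7, h8, h9, h10, n, h11, h12, h13⟩ := hBm p h3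
        refine ⟨⟨⟨⟨h7, h8⟩, h9, h10⟩, ⟨n, h11, h12, h13, ?_⟩, ?_, ?_, ?_, ?_⟩, h6⟩
        · show p.1 % q = r % q
          rw [h4, hr']
        · rw [zero_mul]; exact_mod_cast h7
        · rw [one_mul]; exact_mod_cast h8
        · rw [zero_mul]; exact_mod_cast h9
        · rw [one_mul]; exact_mod_cast h10
      · rintro ⟨⟨⟨h3, h4⟩, ⟨n, h5, h6, h7, h8⟩, _⟩, h9⟩
        have h10 := (fcond n p.1 p.2).2 ⟨h5, h6⟩
        refine ⟨?_, ?_⟩
        · rw [hB]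
          refine mem_filter.2 ⟨?_, h9, n, h10.1, h10.2, h7⟩
          unfold SP
          rw [mem_filter, mem_product, mem_Icc, mem_Icc]
          exact ⟨⟨h3, h4⟩, n, h10.1, h10.2⟩
        · have h11 : p.1 % q = r % q := h8
          rw [h11, hr']
    rw [h2]
    exact norm_sum_le _ _
  -- the pairs with the sign `e`
  obtain ⟨S, hSd⟩ : ∃ S : Finset (ℕ × ℕ), S = B.filter
    (fun p => F (p.1 * p.2) = e) := ⟨_, rfl⟩
  have hval : ∀ p ∈ B, F (p.1 * p.2) = 1 ∨ F (p.1 * p.2) = -1 := by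
    intro p hp
    obtain ⟨_, _, h3, _, h4, _, _⟩ := hBm p hp
    exact hSg.pm _ (Nat.mul_ne_zero (by omega) (by omega))
  have hlm : ∀ p ∈ B, fz F p.1 * fz F p.2 = ((F (p.1 * p.2) : ℤ) : ℂ) := by
    intro p hp
    obtain ⟨_, h2, h3, _, h4, _, _⟩ := hBm p hp
    rw [← hSg.fmul _ _ (by omega) (by omega), fz_ne (Nat.mul_ne_zero (by omega) (by omega))]
  have hS1 : c₁ / 4 * X ≤ (S.card : ℝ) := by
    have h2 : ∑ p ∈ B, fz F p.1 * fz F p.2 = ((∑ p ∈ B, (F (p.1 * p.2) : ℝ) : ℝ) : ℂ) := by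
      rw [Complex.ofReal_sum]
      refine sum_congr rfl fun p hp => ?_
      rw [hlm p hp]
      push_cast
      rfl
    rw [h2, Complex.norm_real, Real.norm_eq_abs] at hsum
    have h3 : (e : ℝ) * ∑ p ∈ B, (F (p.1 * p.2) : ℝ) = 2 * (S.card : ℝ) - B.card := by
      have h4 : ∀ p ∈ B, (e : ℝ) * (F (p.1 * p.2) : ℝ) =
          2 * (if F (p.1 * p.2) = e then 1 else 0) - 1 := by
        intro p hp
        rcases he with rfl | rfl
        · rcases hval p hp with h5 | h5 <;> rw [h5] <;> norm_num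
        · rcases hval p hp with h5 | h5 <;> rw [h5] <;> norm_num
      rw [mul_sum, sum_congr rfl h4, sum_sub_distrib, ← mul_sum, sum_boole, hSd, sum_const,
        nsmul_eq_mul, mul_one]
    have h4 : |(e : ℝ) * ∑ p ∈ B, (F (p.1 * p.2) : ℝ)| ≤ c₁ / 2 * X := by
      rw [abs_mul]
      have : |(e : ℝ)| = 1 := by rcases he with rfl | rfl <;> norm_num
      rw [this, one_mul]
      exact hsum
    have h5 := (abs_le.1 h4).1
    linarith
  have hSm : ∀ p ∈ S, p ∈ B ∧ F (p.1 * p.2) = e := by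
    intro p hp
    rw [hSd] at hp
    exact mem_filter.1 hp
  have h3 := hpn X ((le_max_right _ _).trans hX) S
    (fun p hp => ⟨(hBm p (hSm p hp).1).1, (hBm p (hSm p hp).1).2.1⟩) hS1
  have h4 : (S.image (fun p : ℕ × ℕ => Nat.sqrt (p.1 * p.2 - c))).card ≤ cf t c q a F e X := by
    unfold cf
    refine card_le_card fun n hn => ?_
    obtain ⟨p, hp, rfl⟩ := mem_image.1 hn
    obtain ⟨hpB, hpe⟩ := hSm p hp
    obtain ⟨_, hsf, _, h8, _, h10, n, h11, h12, h13⟩ := hBm p hpB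
    have h14 : Nat.sqrt (p.1 * p.2 - c) = n := by
      rw [h12]
      exact fsqrt ht n
    rw [h14, mem_filter, mem_range, ← h12]
    refine ⟨?_, h11, h13, hsf, hpe⟩
    by_contra hcon2
    push Not at hcon2
    have h15 : p.1 * p.2 ≤ X * X := Nat.mul_le_mul h8 h10
    nlinarith [Nat.zero_le (t * n)]
  have h5 : ((S.image (fun p : ℕ × ℕ => Nat.sqrt (p.1 * p.2 - c))).card : ℝ) ≤
      cf t c q a F e X := by
    exact_mod_cast h4
  linarith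

end Pool.Agent.W251.EG
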