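import Pool.Agent.W251.EG.Out7

/-!
Project EG (helper251): joint patterns of a function determined by residue classes and of the
Liouville function at the two factors.
-/

set_option autoImplicit false

namespace Pool.Agent.W251.EG

open Finset Filter
open Pool.Agent.W78.GA (Qd nm)
open Pool.Agent.W78.EG
open Pool.Agent.W251.EX (Sqp tt sum_null lm)

/-- the product with the Liouville function -/
def Fl (F : ℕ → ℤ) (n : ℕ) : ℤ := F n * (-1) ^ ArithmeticFunction.cardFactors n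

lemma Sg.fl {F : ℕ → ℤ} (h : Sg F) : Sg (Fl F) where
  mul := fun x y hx hy => by
    unfold Fl
    rw [h.mul x y hx hy, ArithmeticFunction.cardFactors_mul hx hy, pow_add]
    ring
  pm := fun n hn => by
    unfold Fl
    rcases h.pm n hn with h1 | h1 <;>
      rcases neg_one_pow_eq_or ℤ (ArithmeticFunction.cardFactors n) with h2 | h2 <;>
      rw [h1, h2] <;> norm_num

lemma fz_fl (F : ℕ → ℤ) (n : ℕ) : fz (Fl F) n = fz F n * lm n := by
  by_cases hn : n = 0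
  · subst hn
    unfold fz lm
    simp
  · rw [fz_ne hn, fz_ne hn]
    unfold Fl lm
    push_cast
    rfl

lemma Dt.fl {t c m : ℕ} {E : ℤ → ℤ → ℤ} {F : ℕ → ℤ} (h : Dt t c m E F) :
    Dt t c m (fun x y => -E x y) (Fl F) where
  pos := h.pos
  per := fun x y u v h1 h2 => by rw [h.per x y u v h1 h2]
  val := fun x y p hp hpm hx => by
    unfold Fl
    rw [h.val x y p hp hpm hx, ArithmeticFunction.cardFactors_apply_prime hp]
    ring

/-- the characters -/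
noncomputable def Gc (F : ℕ → ℤ) (a b : ℕ) (n : ℕ) : ℂ := fz F n ^ a * lm n ^ b

lemma lm_sq (n : ℕ) : lm n ^ 2 = 1 := by
  unfold lm
  rw [← pow_mul, mul_comm, pow_mul]
  norm_num

variable {t c : ℕ} {f : ℕ} {χ : DirichletCharacter ℂ f}

lemma Gc_fgc {F : ℕ → ℤ} (h : Sg F) (χ : DirichletCharacter ℂ f) (a b b' : ℕ) :
    FGc χ 2 ((-1) ^ (b + b')) (Gc F a b) (Gc F a b') where
  pos := by norm_num
  m₁ := fun m n hm hn => by
    unfold Gc
    rw [h.fmul m n hm hn, ← lm_mul hm hn]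
    ring
  m₂ := fun m n hm hn => by
    unfold Gc
    rw [h.fmul m n hm hn, ← lm_mul hm hn]
    ring
  p₁ := fun n => by
    unfold Gc
    rw [mul_pow, ← pow_mul, ← pow_mul, mul_comm a 2, mul_comm b 2, pow_mul, pow_mul, h.sq, lm_sq,
      one_pow, one_pow, one_mul]
  p₂ := fun n => by
    unfold Gc
    rw [mul_pow, ← pow_mul, ← pow_mul, mul_comm a 2, mul_comm b' 2, pow_mul, pow_mul, h.sq, lm_sq,
      one_pow, one_pow, one_mul]
  tw := fun p hp _ => by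
    have h1 : lm p = -1 := by
      unfold lm
      rw [ArithmeticFunction.cardFactors_apply_prime hp, pow_one]
    unfold Gc
    rw [h1]
    have h2 : (fz F p ^ a) * (fz F p ^ a) = 1 := by
      rw [← mul_pow, ← pow_two, h.sq, one_pow]
    calc fz F p ^ a * (-1) ^ b * (fz F p ^ a * (-1) ^ b') =
        ((fz F p ^ a) * (fz F p ^ a)) * ((-1) ^ b * (-1) ^ b') := by ring
      _ = (-1) ^ (b + b') := by rw [h2, one_mul, ← pow_add]

/-- aperiodicity of the characters -/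
lemma Gc_apd (hF : Fd (t : ℤ) (c : ℤ) f χ) {F : ℕ → ℤ}
    (h1 : Apd 2 (fun z : Qd (t : ℤ) (c : ℤ) => fz F (nm z)))
    (h2 : Apd 2 (fun z : Qd (t : ℤ) (c : ℤ) => fz (Fl F) (nm z))) {a b b' : ℕ} (ha : a < 2)
    (hb : b < 2) (hb' : b' < 2) (hne : ¬ (a = 0 ∧ b = 0 ∧ b' = 0)) :
    Apd 2 (fun z : Qd (t : ℤ) (c : ℤ) => Gc F a b (nm z)) ∨
    Apd 2 (fun z : Qd (t : ℤ) (c : ℤ) => Gc F a b' (nm z)) := by
  have e01 : (fun z : Qd (t : ℤ) (c : ℤ) => Gc F 0 1 (nm z)) = fun z => lm (nm z) := by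
    funext z
    unfold Gc
    rw [pow_zero, pow_one, one_mul]
  have e10 : (fun z : Qd (t : ℤ) (c : ℤ) => Gc F 1 0 (nm z)) = fun z => fz F (nm z) := by
    funext z
    unfold Gc
    rw [pow_zero, pow_one, mul_one]
  have e11 : (fun z : Qd (t : ℤ) (c : ℤ) => Gc F 1 1 (nm z)) = fun z => fz (Fl F) (nm z) := by
    funext z
    unfold Gc
    rw [fz_fl, pow_one, pow_one]
  have h3 : Apd 2 (fun z : Qd (t : ℤ) (c : ℤ) => lm (nm z)) := apdG_lm hF
  have c0 : ∀ x : ℕ, x < 2 → x = 0 ∨ x = 1 := fun x hx => by omega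
  rcases c0 a ha with rfl | rfl <;> rcases c0 b hb with rfl | rfl <;>
    rcases c0 b' hb' with rfl | rfl
  · exact absurd ⟨rfl, rfl, rfl⟩ hne
  · right; rw [e01]; exact h3
  · left; rw [e01]; exact h3
  · left; rw [e01]; exact h3
  · left; rw [e10]; exact h1
  · left; rw [e10]; exact h1
  · right; rw [e10]; exact h1
  · left; rw [e11]; exact h2

lemma sum8 (T : ℕ → ℕ → ℕ → ℂ) : ∑ a ∈ range 2, ∑ b ∈ range 2, ∑ b' ∈ range 2, T a b b' =
    T 0 0 0 + ∑ k ∈ range 8, if k = 0 then 0 else T (k / 4) (k / 2 % 2) (k % 2) := by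
  simp only [sum_range_succ, sum_range_zero, zero_add]
  norm_num
  ring

open scoped Classical in
/-- the eight patterns -/
theorem outP8 (hF : Fd (t : ℤ) (c : ℤ) f χ) {F : ℕ → ℤ} (hSg : Sg F)
    (h1 : Apd 2 (fun z : Qd (t : ℤ) (c : ℤ) => fz F (nm z)))
    (h2 : Apd 2 (fun z : Qd (t : ℤ) (c : ℤ) => fz (Fl F) (nm z))) (q : ℕ) (hq : 1 ≤ q) (a r : ℕ)
    (s₁ s₂ s₃ s₄ : ℝ) (hs₁ : 0 ≤ s₁)
    (hs₁₂ : s₁ < s₂) (hs₂ : s₂ ≤ 1) (hs₃ : 0 ≤ s₃) (hs₃₄ : s₃ < s₄) (hs₄ : s₄ ≤ 1)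
    (e₀ e₁ e₂ : ℤ) (he₀ : e₀ = 1 ∨ e₀ = -1) (he₁ : e₁ = 1 ∨ e₁ = -1) (he₂ : e₂ = 1 ∨ e₂ = -1)
    (ε : ℝ) (hε : 0 < ε) :
    Tendsto (fun N : ℕ => (∑ X ∈ (Icc 1 N).filter (fun X : ℕ => ε * X <
      |(((SW (t : ℤ) (c : ℤ) q a r s₁ s₂ s₃ s₄ X).filter (fun p => F (p.1 * p.2) = e₀ ∧
        (-1) ^ ArithmeticFunction.cardFactors p.1 = e₁ ∧
        (-1) ^ ArithmeticFunction.cardFactors p.2 = e₂)).card : ℝ) -
        1 / 8 * ((SW (t : ℤ) (c : ℤ) q a r s₁ s₂ s₃ s₄ X).card : ℝ)|), 1 / (X : ℝ)) / Real.log N)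
      atTop (nhds 0) := by
  obtain ⟨S, hSd⟩ : ∃ S : ℕ → Finset (ℕ × ℕ), S = fun X => SW (t : ℤ) (c : ℤ) q a r s₁ s₂ s₃ s₄ X :=
    ⟨_, rfl⟩
  have hS0 : ∀ X, ∀ p ∈ S X, p.1 ≠ 0 ∧ p.2 ≠ 0 := by
    intro X p hp
    rw [hSd] at hp
    have := mem_SWn.1 hp
    exact ⟨by omega, by omega⟩
  have hnull := sum_null (q := 8) (by norm_num)
    (g := fun k X => if k = 0 then 0 else
      ‖∑ p ∈ S X, Gc F (k / 4) (k / 2 % 2) p.1 * Gc F (k / 4) (k % 2) p.2‖)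
    (fun k hk ε' hε' => by
      by_cases hk0 : k = 0
      · refine tendsto_const_nhds.congr fun N => ?_
        rw [hk0]
        simp only [if_true]
        rw [filter_false_of_mem, sum_empty, zero_div]
        intro X _ hX
        have : (0 : ℝ) ≤ ε' * X := by positivity
        linarith
      · have h3 := tt (fun X => ∑ p ∈ (SW (t : ℤ) (c : ℤ) q a r s₁ s₂ s₃ s₄ X).filter (Sqp 0),
            Gc F (k / 4) (k / 2 % 2) p.1 * Gc F (k / 4) (k % 2) p.2)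
          (fun ε'' hε'' => twG hF 2 _ (Gc F (k / 4) (k / 2 % 2)) (Gc F (k / 4) (k % 2))
            (Gc_fgc hSg χ (k / 4) (k / 2 % 2) (k % 2))
            (Gc_apd hF h1 h2 (by omega) (by omega) (by omega) (by omega))
            q a r 0 hq s₁ s₂ s₃ s₄ hs₁ hs₁₂ hs₂ hs₃ hs₃₄ hs₄ ε'' hε'') ε' hε'
        refine h3.congr fun N => ?_
        congr 1
        refine sum_congr ?_ fun _ _ => rfl
        refine filter_congr fun X _ => ?_
        rw [if_neg hk0, hSd]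
        have e0 : (SW (t : ℤ) (c : ℤ) q a r s₁ s₂ s₃ s₄ X).filter (Sqp 0) =
            SW (t : ℤ) (c : ℤ) q a r s₁ s₂ s₃ s₄ X := by
          refine filter_true_of_mem fun p _ l hl hp => ?_
          have := hp.pos
          omega
        rw [e0]) ε hε
  refine null_of 0 (fun X _ hX => ?_) hnull
  refine lt_of_lt_of_le hX ?_
  -- the expansion
  have hSX : SW (t : ℤ) (c : ℤ) q a r s₁ s₂ s₃ s₄ X = S X := by rw [hSd]
  rw [hSX]
  have hc0 : ∀ e x : ℤ, (e = 1 ∨ e = -1) → (x = 1 ∨ x = -1) →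
      (if x = e then (1 : ℂ) else 0) = (1 + (e : ℂ) * (x : ℂ)) / 2 := by
    intro e x he hx
    rcases he with rfl | rfl <;> rcases hx with rfl | rfl <;> norm_num
  have hpt : ∀ p ∈ S X, (if (F (p.1 * p.2) = e₀ ∧
      (-1) ^ ArithmeticFunction.cardFactors p.1 = e₁ ∧
      (-1) ^ ArithmeticFunction.cardFactors p.2 = e₂) then (1 : ℂ) else 0) =
      1 / 8 * ∑ a' ∈ range 2, ∑ b ∈ range 2, ∑ b' ∈ range 2, ((e₀ : ℂ) ^ a' * (e₁ : ℂ) ^ b *
        (e₂ : ℂ) ^ b') * (Gc F a' b p.1 * Gc F a' b' p.2) := by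
    intro p hp
    obtain ⟨hp1, hp2⟩ := hS0 X p hp
    have i1 := hc0 e₀ (F (p.1 * p.2)) he₀ (hSg.pm _ (Nat.mul_ne_zero hp1 hp2))
    have i2 := hc0 e₁ ((-1) ^ ArithmeticFunction.cardFactors p.1) he₁ (neg_one_pow_eq_or ℤ _)
    have i3 := hc0 e₂ ((-1) ^ ArithmeticFunction.cardFactors p.2) he₂ (neg_one_pow_eq_or ℤ _)
    have i4 : (if (F (p.1 * p.2) = e₀ ∧
        (-1) ^ ArithmeticFunction.cardFactors p.1 = e₁ ∧
        (-1) ^ ArithmeticFunction.cardFactors p.2 = e₂) then (1 : ℂ) else 0) =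
        (if F (p.1 * p.2) = e₀ then (1 : ℂ) else 0) *
        (if (-1) ^ ArithmeticFunction.cardFactors p.1 = e₁ then (1 : ℂ) else 0) *
        (if (-1) ^ ArithmeticFunction.cardFactors p.2 = e₂ then (1 : ℂ) else 0) := by
      by_cases j1 : F (p.1 * p.2) = e₀ <;>
        by_cases j2 : (-1 : ℤ) ^ ArithmeticFunction.cardFactors p.1 = e₁ <;>
        by_cases j3 : (-1 : ℤ) ^ ArithmeticFunction.cardFactors p.2 = e₂ <;>
        simp only [j1, j2, j3, and_self, and_true, and_false, if_true, if_false, true_and,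
          false_and, mul_zero, zero_mul, mul_one]
    rw [i4, i1, i2, i3]
    have i5 : ((F (p.1 * p.2) : ℤ) : ℂ) = fz F p.1 * fz F p.2 := by
      rw [← hSg.fmul p.1 p.2 hp1 hp2, fz_ne (Nat.mul_ne_zero hp1 hp2)]
    have i6 : ∀ n : ℕ, (((-1) ^ ArithmeticFunction.cardFactors n : ℤ) : ℂ) = lm n := by
      intro n
      unfold lm
      push_cast
      rfl
    rw [i5, i6, i6]
    unfold Gc
    simp only [sum_range_succ, sum_range_zero, zero_add, pow_zero, pow_one, one_mul, mul_one]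
    ring
  have hcount : ((((S X).filter (fun p => F (p.1 * p.2) = e₀ ∧
      (-1) ^ ArithmeticFunction.cardFactors p.1 = e₁ ∧
      (-1) ^ ArithmeticFunction.cardFactors p.2 = e₂)).card : ℝ) : ℂ) =
      1 / 8 * ∑ a' ∈ range 2, ∑ b ∈ range 2, ∑ b' ∈ range 2, ((e₀ : ℂ) ^ a' * (e₁ : ℂ) ^ b *
        (e₂ : ℂ) ^ b') * ∑ p ∈ S X, Gc F a' b p.1 * Gc F a' b' p.2 := by
    rw [Complex.ofReal_natCast, ← sum_boole, sum_congr rfl hpt, ← mul_sum]
    congr 1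
    rw [sum_comm]
    refine sum_congr rfl fun a' _ => ?_
    rw [sum_comm]
    refine sum_congr rfl fun b _ => ?_
    rw [sum_comm]
    refine sum_congr rfl fun b' _ => ?_
    rw [mul_sum]
  rw [sum8 (fun a' b b' => ((e₀ : ℂ) ^ a' * (e₁ : ℂ) ^ b *
        (e₂ : ℂ) ^ b') * ∑ p ∈ S X, Gc F a' b p.1 * Gc F a' b' p.2)] at hcount
  have h000 : ((e₀ : ℂ) ^ 0 * (e₁ : ℂ) ^ 0 * (e₂ : ℂ) ^ 0) *
      ∑ p ∈ S X, Gc F 0 0 p.1 * Gc F 0 0 p.2 = ((S X).card : ℂ) := by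
    unfold Gc
    simp
  rw [h000] at hcount
  have hdiff : (((((S X).filter (fun p => F (p.1 * p.2) = e₀ ∧
      (-1) ^ ArithmeticFunction.cardFactors p.1 = e₁ ∧
      (-1) ^ ArithmeticFunction.cardFactors p.2 = e₂)).card : ℝ) -
      1 / 8 * ((S X).card : ℝ) : ℝ) : ℂ) = 1 / 8 * ∑ k ∈ range 8, if k = 0 then 0 else
      ((e₀ : ℂ) ^ (k / 4) * (e₁ : ℂ) ^ (k / 2 % 2) * (e₂ : ℂ) ^ (k % 2)) *
        ∑ p ∈ S X, Gc F (k / 4) (k / 2 % 2) p.1 * Gc F (k / 4) (k % 2) p.2 := by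
    rw [Complex.ofReal_sub, hcount]
    push_cast
    ring
  have hne : ∀ e : ℤ, (e = 1 ∨ e = -1) → ∀ k : ℕ, ‖(e : ℂ) ^ k‖ = 1 := by
    intro e he k
    rw [norm_pow]
    rcases he with rfl | rfl <;> simp
  rw [← Real.norm_eq_abs, ← Complex.norm_real, hdiff, norm_mul]
  have h8 : ‖(1 / 8 : ℂ)‖ ≤ 1 := by norm_num
  refine (mul_le_mul h8 (norm_sum_le _ _) (norm_nonneg _) zero_le_one).trans ?_
  rw [one_mul]
  refine sum_le_sum fun k _ => ?_
  split_ifs with hk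
  · rw [norm_zero]
  · rw [norm_mul, norm_mul, norm_mul, hne e₀ he₀, hne e₁ he₁, hne e₂ he₂, one_mul, one_mul, one_mul]

end Pool.Agent.W251.EG
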