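import Pool.Agent.W251.EG.Out2

/-!
Project EG (helper251): from pairs `(d, d')` with `d d' = n^2+tn+c` to integers `n`.
-/

set_option autoImplicit false

namespace Pool.Agent.W251.EG

open Finset Filter
open Pool.Agent.W78.GA (Qd nm ball pball mem_ball mem_pball nm_cast dedge mem_dedge S_TYP S_VE
  card_div_le)
open Pool.Agent.W78.EG
open Pool.Agent.W334.EG (uc_pos)

open scoped Classical in
/-- few pairs have many prime factors -/
theorem few {t c : ℤ} {f : ℕ} {χ : DirichletCharacter ℂ f} (hF : Fd t c f χ) (κ ε : ℝ)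
    (hκ : 0 < κ) (hε : 0 < ε) : ∃ N₀ : ℕ, ∀ N : ℕ, N₀ ≤ N →
    (((SP t c N).filter (fun p => (1 + ε) * Real.log (Real.log N) <
      ((p.1.primeFactors.card : ℕ) : ℝ) ∨ (1 + ε) * Real.log (Real.log N) <
      ((p.2.primeFactors.card : ℕ) : ℝ))).card : ℝ) ≤ κ * N := by
  have hD := hDG hF
  have hlat : Pool.Agent.W78.GA.S_LAT t c := Pool.Agent.W45.GA.lat hD
  have hred : Pool.Agent.W78.GA.S_RED t c := Pool.Agent.W322.GA.red hD
  have hlati : Pool.Agent.W78.GA.S_LATI t c := Pool.Agent.W322.GA.lati_of hD hlat hred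
  obtain ⟨C, hC, hve⟩ : S_VE t c := Pool.Agent.W29.GA.ve hD
  obtain ⟨κ', hκ'⟩ : ∃ κ' : ℝ, κ' = min 1 (κ / (2 * C)) := ⟨_, rfl⟩
  have hκ0 : 0 < κ' := by rw [hκ']; exact lt_min one_pos (by positivity)
  have hκ1 : κ' ≤ 1 := by rw [hκ']; exact min_le_left _ _
  have hκ2 : C * κ' ≤ κ / 2 := by
    have : κ' ≤ κ / (2 * C) := by rw [hκ']; exact min_le_right _ _
    calc C * κ' ≤ C * (κ / (2 * C)) := mul_le_mul_of_nonneg_left this hC.le
      _ = κ / 2 := by field_simp
  have htyp0 : S_TYP t c := Pool.Agent.W29.GA.typ_of hD hlat hlati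
  obtain ⟨X₂, htyp⟩ := htyp0 ε (κ * κ' / (2 * C)) hε (by positivity)
  refine ⟨max 1 ⌈X₂⌉₊, fun N hN => ?_⟩
  have hN1 : (1 : ℝ) ≤ N := by exact_mod_cast (le_max_left _ _).trans hN
  have hN2 : X₂ ≤ N := (Nat.le_ceil _).trans (by exact_mod_cast (le_max_right _ _).trans hN)
  set V := (pball t c (N : ℝ)).filter (fun z =>
      (1 + ε) * Real.log (Real.log N) < (((nm z).primeFactors.card : ℕ) : ℝ)) with hV
  have hVc : (V.card : ℝ) ≤ κ * κ' / (2 * C) * N := htyp N hN2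
  have hVE := hve κ' N V hκ0 hκ1 hN1
  have hVi : ((V ∩ pball t c (N : ℝ)).card : ℝ) ≤ κ * κ' / (2 * C) * N :=
    le_trans (by exact_mod_cast card_le_card inter_subset_left) hVc
  have hVE2 : C * (κ' * N + ((V ∩ pball t c (N : ℝ)).card : ℝ) / κ') ≤ κ * N := by
    have h1 : ((V ∩ pball t c (N : ℝ)).card : ℝ) / κ' ≤ κ / (2 * C) * N := by
      rw [div_le_iff₀ hκ0]
      calc ((V ∩ pball t c (N : ℝ)).card : ℝ) ≤ κ * κ' / (2 * C) * N := hVi
        _ = κ / (2 * C) * N * κ' := by ring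
    calc C * (κ' * N + ((V ∩ pball t c (N : ℝ)).card : ℝ) / κ')
        ≤ C * (κ' * N + κ / (2 * C) * N) := by
          apply mul_le_mul_of_nonneg_left _ hC.le
          linarith
      _ = C * κ' * N + κ / 2 * N := by field_simp
      _ ≤ κ / 2 * N + κ / 2 * N := by nlinarith
      _ = κ * N := by ring
  have e1 := corrG hF (N : ℝ) (fun a b => if (1 + ε) * Real.log (Real.log N) <
      ((a.primeFactors.card : ℕ) : ℝ) ∨ (1 + ε) * Real.log (Real.log N) <
      ((b.primeFactors.card : ℕ) : ℝ) then 1 else 0) hN1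
  rw [Nat.floor_natCast] at e1
  rw [← sum_filter, ← sum_filter, sum_const, sum_const, nsmul_eq_mul, nsmul_eq_mul, mul_one,
    mul_one] at e1
  have e2 : ((((dedge t c (N : ℝ)).filter (fun e => 0 < pp e.1 e.2)).filter
      (fun e => (1 + ε) * Real.log (Real.log N) <
      (((nm e.1).primeFactors.card : ℕ) : ℝ) ∨ (1 + ε) * Real.log (Real.log N) <
      (((nm e.2).primeFactors.card : ℕ) : ℝ))).card : ℝ) ≤
      (((dedge t c (N : ℝ)).filter (fun e => e.1 ∈ V ∨ e.2 ∈ V)).card : ℝ) := by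
    refine Nat.cast_le.2 (card_le_card fun e he => ?_)
    simp only [mem_filter] at he
    obtain ⟨⟨h1, _⟩, h2⟩ := he
    have h3 := mem_dedge.1 h1
    refine mem_filter.2 ⟨h1, ?_⟩
    rcases h2 with h2 | h2
    · exact Or.inl (mem_filter.2 ⟨h3.1, h2⟩)
    · exact Or.inr (mem_filter.2 ⟨h3.2.1, h2⟩)
  have e3 : (1 : ℝ) ≤ uc t c := by exact_mod_cast uc_pos hD
  have e4 : (0 : ℝ) ≤ (((SP t c N).filter (fun p => (1 + ε) * Real.log (Real.log N) <
      ((p.1.primeFactors.card : ℕ) : ℝ) ∨ (1 + ε) * Real.log (Real.log N) <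
      ((p.2.primeFactors.card : ℕ) : ℝ))).card : ℝ) := Nat.cast_nonneg _
  have e5 : (((SP t c N).filter (fun p => (1 + ε) * Real.log (Real.log N) <
      ((p.1.primeFactors.card : ℕ) : ℝ) ∨ (1 + ε) * Real.log (Real.log N) <
      ((p.2.primeFactors.card : ℕ) : ℝ))).card : ℝ) ≤
      (uc t c : ℝ) * (((SP t c N).filter (fun p => (1 + ε) * Real.log (Real.log N) <
      ((p.1.primeFactors.card : ℕ) : ℝ) ∨ (1 + ε) * Real.log (Real.log N) <
      ((p.2.primeFactors.card : ℕ) : ℝ))).card : ℝ) := by nlinarith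
  refine e5.trans ?_
  rw [← e1]
  exact e2.trans (hVE.trans hVE2)

open scoped Classical in
/-- from pairs to integers -/
theorem pnG {t c : ℕ} {f : ℕ} {χ : DirichletCharacter ℂ f} (hF : Fd (t : ℤ) (c : ℤ) f χ)
    (κ ε : ℝ) (hκ : 0 < κ) (hε : 0 < ε) : ∃ N₀ : ℕ, ∀ N : ℕ, N₀ ≤ N → ∀ S : Finset (ℕ × ℕ),
    (∀ p ∈ S, p ∈ SP (t : ℤ) (c : ℤ) N ∧ Squarefree (p.1 * p.2)) → κ * N ≤ (S.card : ℝ) →
    (N : ℝ) / Real.log N ^ (2 * Real.log 2 + ε) ≤
      ((S.image (fun p : ℕ × ℕ => Nat.sqrt (p.1 * p.2 - c))).card : ℝ) := by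
  have ht := t_le hF
  have hc := c_pos hF
  obtain ⟨N₁, h1⟩ := few hF (κ / 2) (ε / 4) (by positivity) (by linarith)
  set g : ℝ := 2 * (1 + ε / 4) * Real.log 2 with hg
  have hlog2 : Real.log 2 < 0.6931471808 := Real.log_two_lt_d9
  have hlog2p : 0 < Real.log 2 := Real.log_pos (by norm_num)
  have hgap : 0 < 2 * Real.log 2 + ε - g := by rw [hg]; nlinarith
  have hev : ∀ᶠ x : ℝ in atTop, 2 / κ ≤ Real.log x ^ (2 * Real.log 2 + ε - g) :=
    ((tendsto_rpow_atTop hgap).comp Real.tendsto_log_atTop).eventually_ge_atTop _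
  obtain ⟨x₀, hx₀⟩ := eventually_atTop.1 hev
  refine ⟨max (max N₁ 3) ⌈x₀⌉₊, fun N hN S hS hκS => ?_⟩
  have hN1 : N₁ ≤ N := (le_max_left _ _).trans ((le_max_left _ _).trans hN)
  have hN3 : 3 ≤ N := (le_max_right _ _).trans ((le_max_left _ _).trans hN)
  have hNx : x₀ ≤ N := (Nat.le_ceil _).trans (by exact_mod_cast (le_max_right _ _).trans hN)
  have hNr : (3 : ℝ) ≤ N := by exact_mod_cast hN3
  have hlogpos : 0 < Real.log N := Real.log_pos (by linarith)
  have hg0 : 0 ≤ g := by rw [hg]; positivity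
  have h2 := h1 N hN1
  -- the good pairs
  obtain ⟨B, hB⟩ : ∃ B : Finset (ℕ × ℕ), B = (SP (t : ℤ) (c : ℤ) N).filter (fun p =>
      (1 + ε / 4) * Real.log (Real.log N) < ((p.1.primeFactors.card : ℕ) : ℝ) ∨
      (1 + ε / 4) * Real.log (Real.log N) < ((p.2.primeFactors.card : ℕ) : ℝ)) := ⟨_, rfl⟩
  rw [← hB] at h2
  obtain ⟨G, hG⟩ : ∃ G : Finset (ℕ × ℕ), G = S \ B := ⟨_, rfl⟩
  have h3 : κ / 2 * N ≤ (G.card : ℝ) := by
    have : S.card ≤ G.card + B.card := by
      rw [hG]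
      have h4 := card_le_card (show S ⊆ (S \ B) ∪ B from fun p hp => by
        by_cases h : p ∈ B
        · exact mem_union_right _ h
        · exact mem_union_left _ (Finset.mem_sdiff.2 ⟨hp, h⟩))
      exact h4.trans (card_union_le _ _)
    have h5 : (S.card : ℝ) ≤ G.card + B.card := by exact_mod_cast this
    linarith
  -- the fibres
  have h4 : ∀ n ∈ S.image (fun p : ℕ × ℕ => Nat.sqrt (p.1 * p.2 - c)),
      ((G.filter (fun p : ℕ × ℕ => Nat.sqrt (p.1 * p.2 - c) = n)).card : ℝ) ≤ Real.log N ^ g := by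
    intro n _
    rcases (G.filter (fun p : ℕ × ℕ => Nat.sqrt (p.1 * p.2 - c) = n)).eq_empty_or_nonempty
      with h0 | ⟨p₀, hp₀⟩
    · rw [h0, card_empty, Nat.cast_zero]
      positivity
    · have hval : ∀ p ∈ G.filter (fun p : ℕ × ℕ => Nat.sqrt (p.1 * p.2 - c) = n),
          1 ≤ p.1 ∧ 1 ≤ p.2 ∧ p.1 * p.2 = n ^ 2 + t * n + c ∧ p ∉ B ∧ p ∈ S := by
        intro p hp
        obtain ⟨hp1, hp2⟩ := mem_filter.1 hp
        rw [hG] at hp1
        obtain ⟨hp3, hp4⟩ := Finset.mem_sdiff.1 hp1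
        have hp5 := (hS p hp3).1
        unfold SP at hp5
        simp only [mem_filter, mem_product, mem_Icc] at hp5
        obtain ⟨⟨h6, h7⟩, m, h8, h9⟩ := hp5
        obtain ⟨_, h10⟩ := (fcond m p.1 p.2).1 ⟨h8, h9⟩
        have h11 : n = m := by
          rw [← hp2, h10]
          exact fsqrt ht m
        rw [h11]
        exact ⟨h6.1, h7.1, h10, hp4, hp3⟩
      obtain ⟨q1, q2, q3, q4, q5⟩ := hval p₀ hp₀
      have hinj : Set.InjOn (fun p : ℕ × ℕ => p.1)
          (G.filter (fun p : ℕ × ℕ => Nat.sqrt (p.1 * p.2 - c) = n) : Set (ℕ × ℕ)) := by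
        intro p hp p' hp' hpp
        obtain ⟨a1, a2, a3, _, _⟩ := hval p hp
        obtain ⟨b1, b2, b3, _, _⟩ := hval p' hp'
        simp only at hpp
        refine Prod.ext hpp ?_
        rw [← b3, ← hpp] at a3
        exact Nat.eq_of_mul_eq_mul_left (by omega) a3
      have h5 : (G.filter (fun p : ℕ × ℕ => Nat.sqrt (p.1 * p.2 - c) = n)).card ≤
          (p₀.1 * p₀.2).divisors.card := by
        refine card_le_card_of_injOn (fun p : ℕ × ℕ => p.1) (fun p hp => ?_) hinj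
        obtain ⟨a1, a2, a3, _, _⟩ := hval p hp
        have h6 : p₀.1 * p₀.2 ≠ 0 := Nat.mul_ne_zero (by omega) (by omega)
        refine Finset.mem_coe.2 (Nat.mem_divisors.2 ⟨?_, h6⟩)
        rw [q3, ← a3]
        exact dvd_mul_right _ _
      have hsf := (hS p₀ q5).2
      have h6 : (p₀.1 * p₀.2).divisors.card ≤ 2 ^ (p₀.1 * p₀.2).primeFactors.card := by
        have h7 := card_div_le (m := p₀.1 * p₀.2) (S := 1)
          (Nat.mul_ne_zero (by omega) (by omega)) (fun q hq => by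
            have h8 := hsf q (by rwa [← pow_two])
            exact (Nat.isUnit_iff.1 h8).le)
        simpa using h7
      have h7 : ((p₀.1 * p₀.2).primeFactors.card : ℝ) ≤
          2 * (1 + ε / 4) * Real.log (Real.log N) := by
        rw [Nat.primeFactors_mul (by omega) (by omega)]
        have h8 : ¬ ((1 + ε / 4) * Real.log (Real.log N) <
            ((p₀.1.primeFactors.card : ℕ) : ℝ) ∨
            (1 + ε / 4) * Real.log (Real.log N) < ((p₀.2.primeFactors.card : ℕ) : ℝ)) := by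
          intro h
          apply q4
          rw [hB]
          exact mem_filter.2 ⟨(hS p₀ q5).1, h⟩
        push Not at h8
        have h9 : ((p₀.1.primeFactors ∪ p₀.2.primeFactors).card : ℝ) ≤
            p₀.1.primeFactors.card + p₀.2.primeFactors.card := by
          exact_mod_cast card_union_le _ _
        linarith [h8.1, h8.2]
      calc ((G.filter (fun p : ℕ × ℕ => Nat.sqrt (p.1 * p.2 - c) = n)).card : ℝ)
          ≤ ((2 ^ (p₀.1 * p₀.2).primeFactors.card : ℕ) : ℝ) := by exact_mod_cast h5.trans h6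
        _ = (2 : ℝ) ^ (((p₀.1 * p₀.2).primeFactors.card : ℕ) : ℝ) := by
            rw [Real.rpow_natCast]; push_cast; rfl
        _ ≤ (2 : ℝ) ^ (2 * (1 + ε / 4) * Real.log (Real.log N)) :=
            Real.rpow_le_rpow_of_exponent_le (by norm_num) h7
        _ = Real.log N ^ g := by
            rw [Real.rpow_def_of_pos (by norm_num), Real.rpow_def_of_pos hlogpos, hg]
            congr 1
            ring
  have h5 : (G.card : ℝ) ≤
      ((S.image (fun p : ℕ × ℕ => Nat.sqrt (p.1 * p.2 - c))).card : ℝ) * Real.log N ^ g := by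
    have hmaps : ∀ p ∈ G, Nat.sqrt (p.1 * p.2 - c) ∈
        S.image (fun p : ℕ × ℕ => Nat.sqrt (p.1 * p.2 - c)) := by
      intro p hp
      rw [hG] at hp
      exact mem_image_of_mem _ (Finset.mem_sdiff.1 hp).1
    have h6 := card_eq_sum_card_fiberwise (s := G)
      (t := S.image (fun p : ℕ × ℕ => Nat.sqrt (p.1 * p.2 - c)))
      (f := fun p : ℕ × ℕ => Nat.sqrt (p.1 * p.2 - c)) hmaps
    rw [h6]
    push_cast
    refine (sum_le_sum h4).trans ?_
    rw [sum_const, nsmul_eq_mul]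
  have hsplit : Real.log N ^ (2 * Real.log 2 + ε) =
      Real.log N ^ (2 * Real.log 2 + ε - g) * Real.log N ^ g := by
    rw [← Real.rpow_add hlogpos]
    congr 1
    ring
  rw [div_le_iff₀ (Real.rpow_pos_of_pos hlogpos _), hsplit]
  have h6 := hx₀ N hNx
  have h7 : (N : ℝ) ≤ 2 / κ * G.card := by
    rw [div_mul_eq_mul_div, le_div_iff₀ hκ]
    linarith
  have h8 : 0 < Real.log N ^ g := Real.rpow_pos_of_pos hlogpos _
  calc (N : ℝ) ≤ 2 / κ * G.card := h7
    _ ≤ Real.log N ^ (2 * Real.log 2 + ε - g) *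
        (((S.image (fun p : ℕ × ℕ => Nat.sqrt (p.1 * p.2 - c))).card : ℝ) * Real.log N ^ g) :=
        mul_le_mul h6 h5 (Nat.cast_nonneg _) (Real.rpow_nonneg hlogpos.le _)
    _ = _ := by ring

end Pool.Agent.W251.EG
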