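import Pool.Agent.W357.EG.Pntc

set_option autoImplicit false

/-!
Project EG: the prime number theorem for the characters of `Qd t c`, with the value of the limit
(refines `Pool.Agent.W357.EG.Pntc`).
-/

open Finset Filter Topology Complex
open ArithmeticFunction (vonMangoldt)

namespace Pool.Agent.W251.EG

open Pool.Agent.W78.EG
open Pool.Agent.W78.GA (Qd nm)
open Pool.Agent.W357.EG (gK lgK aL_zero)
open Pool.Agent.W816.EC (hs_of)
open Pool.Agent.W22.EX (bco_ld LS_conj summ_conj mangoldt_cont)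
open Pool.Agent.H304R3.HK (Lg F_ne_zero F_ld)
open Pool.Agent.H304R3.HK.LogDerH (bco bco_norm_le bco_summable term_b)

variable {t c : ℤ}

/-- continuation of the logarithmic derivative to the line `Re s = 1` -/
lemma ld_cont2 (hD : t ^ 2 < 4 * c) (hP : S_PID t c) (hL : S_LCON t c) (hN : S_LNV t c) {M : ℕ}
    (hM : 1 ≤ M) {φ : Qd t c → ℂ} (H : HCh M φ) :
    ∃ (δ : ℝ) (K : ℂ → ℂ), ((∃ z, φ z ≠ 0 ∧ φ z ≠ 1) ∧ δ = 0 ∨ (∀ z, φ z ≠ 0 → φ z = 1) ∧ δ = 1) ∧
      ContinuousOn K {s | 1 ≤ s.re} ∧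
      ∀ s : ℂ, 1 < s.re → K s = LSeries (bco (gK φ)) s - δ / (s - 1) := by
  have L1 := lgK hD hP hM H
  have hre : ∀ s : ℂ, 1 ≤ s.re → s.re = 1 ∨ 1 < s.re := fun s hs => by
    rcases hs.eq_or_lt with h | h
    · exact Or.inl h.symm
    · exact Or.inr h
  have hform : ∀ s : ℂ, s.re = 1 → s = 1 + (s.im : ℝ) * I := by
    intro s hs
    apply Complex.ext
    · simp [hs]
    · simp
  by_cases hnp : ∃ z, φ z ≠ 0 ∧ φ z ≠ 1
  · obtain ⟨g, hg, hgs⟩ := (hL M φ hM H).1 hnp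
    have sF : ∀ s : ℂ, 1 < s.re → HasSum (fun n : ℕ => aL φ n * (n : ℂ) ^ (-s)) (g s) := by
      intro s hs
      obtain ⟨h1, h2⟩ := hgs s hs
      rw [h2]
      exact hs_of (aL_zero hD φ) h1
    refine ⟨0, fun s => -(deriv g s / g s), Or.inl ⟨hnp, rfl⟩, ?_, ?_⟩
    · refine ContinuousOn.neg (ContinuousOn.div ?_ hg.continuous.continuousOn fun s hs => ?_)
      · exact (hg.contDiff (n := 1)).continuous_deriv le_rfl |>.continuousOn
      · rcases hre s hs with h | h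
        · rw [hform s h]
          exact hN M φ hM H g hg (Or.inl ⟨hnp, fun s hs => (hgs s hs).2⟩) s.im
        · exact F_ne_zero _ _ L1 g sF s h
    · intro s hs
      rw [bco_ld L1 sF hs]
      simp
  · have hp : ∀ z, φ z ≠ 0 → φ z = 1 := by
      intro z hz
      by_contra hc
      exact hnp ⟨z, hz, hc⟩
    obtain ⟨g, hg, -, hgs⟩ := (hL M φ hM H).2 hp
    have hs0 : ∀ s : ℂ, 1 < s.re → s - 1 ≠ 0 := by
      intro s hs
      refine sub_ne_zero_of_ne ?_
      rintro rfl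
      simp at hs
    have sF : ∀ s : ℂ, 1 < s.re →
        HasSum (fun n : ℕ => aL φ n * (n : ℂ) ^ (-s)) (g s / (s - 1)) := by
      intro s hs
      obtain ⟨h1, h2⟩ := hgs s hs
      have h3 : g s / (s - 1) = LSeries (aL φ) s := by
        rw [h2, mul_div_cancel_left₀ _ (hs0 s hs)]
      rw [h3]
      exact hs_of (aL_zero hD φ) h1
    refine ⟨1, fun s => -(deriv g s / g s), Or.inr ⟨hp, rfl⟩, ?_, ?_⟩
    · refine ContinuousOn.neg (ContinuousOn.div ?_ hg.continuous.continuousOn fun s hs => ?_)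
      · exact (hg.contDiff (n := 1)).continuous_deriv le_rfl |>.continuousOn
      · rcases hre s hs with h | h
        · rw [hform s h]
          exact hN M φ hM H g hg (Or.inr ⟨hp, fun s hs => (hgs s hs).2⟩) s.im
        · have := F_ne_zero _ _ L1 (fun s => g s / (s - 1)) sF s h
          intro h0
          apply this
          simp only [h0, zero_div]
    · intro s hs
      have h1 := hs0 s hs
      have h2 : g s ≠ 0 := by
        have := F_ne_zero _ _ L1 (fun s => g s / (s - 1)) sF s hs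
        intro h0
        apply this
        simp only [h0, zero_div]
      have h3 : deriv (fun s => g s / (s - 1)) s = (deriv g s * (s - 1) - g s * 1) / (s - 1) ^ 2 := by
        have hd : HasDerivAt (fun s => g s / (s - 1))
            ((deriv g s * (s - 1) - g s * 1) / (s - 1) ^ 2) s :=
          ((hg s).hasDerivAt).div ((hasDerivAt_id s).sub_const 1) h1
        exact hd.deriv
      rw [bco_ld L1 sF hs, h3]
      simp only [Complex.ofReal_one]
      field_simp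
      ring

lemma taub3 (hD : t ^ 2 < 4 * c) (hP : S_PID t c) (hL : S_LCON t c) (hN : S_LNV t c) {M : ℕ}
    (hM : 1 ≤ M) {φ : Qd t c → ℂ} (H : HCh M φ) :
    ∃ δ : ℝ, ((∃ z, φ z ≠ 0 ∧ φ z ≠ 1) ∧ δ = 0 ∨ (∀ z, φ z ≠ 0 → φ z = 1) ∧ δ = 1) ∧
      ∀ ζ : ℂ, ‖ζ‖ ≤ 1 → Tendsto (fun x : ℝ => (∑ k ∈ Icc 1 ⌊x⌋₊,
      (2 * vonMangoldt k + (ζ * bco (gK φ) k).re)) / x) atTop (𝓝 (2 + ζ.re * δ)) := by
  obtain ⟨δ, K, hδ, hK, hKs⟩ := ld_cont2 hD hP hL hN hM H
  obtain ⟨G, hG, hGs⟩ := mangoldt_cont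
  have L1 := lgK hD hP hM H
  refine ⟨δ, hδ, fun ζ hζ => ?_⟩
  have hre : ∀ k : ℕ, |(ζ * bco (gK φ) k).re| ≤ 2 * vonMangoldt k := by
    intro k
    refine (Complex.abs_re_le_norm _).trans ?_
    rw [norm_mul]
    calc ‖ζ‖ * ‖bco (gK φ) k‖ ≤ 1 * (2 * vonMangoldt k) :=
          mul_le_mul hζ (bco_norm_le _ _ L1 k) (norm_nonneg _) zero_le_one
      _ = 2 * vonMangoldt k := one_mul _
  refine Pool.Agent.Helper923.PNT.wiener_ikehara
    (fun k => 2 * vonMangoldt k + (ζ * bco (gK φ) k).re) ?_ (4 * (Real.log 4 + 4))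
    (2 + ζ.re * δ) ?_
    (fun s => 2 * G s + (ζ / 2 * K s +
      (starRingEnd ℂ) ζ / 2 * (starRingEnd ℂ) (K ((starRingEnd ℂ) s)))) ?_ ?_
  · intro k
    have := abs_le.1 (hre k)
    linarith [this.1]
  · intro n
    have h1 : ∑ k ∈ Icc 1 n, vonMangoldt k ≤ (Real.log 4 + 4) * n := by
      have h2 : ∑ k ∈ Icc 1 n, vonMangoldt k ≤ Chebyshev.psi n := by
        unfold Chebyshev.psi
        rw [Nat.floor_natCast]
        exact le_rfl
      exact h2.trans (Chebyshev.psi_le_const_mul_self (Nat.cast_nonneg n))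
    calc ∑ k ∈ Icc 1 n, (2 * vonMangoldt k + (ζ * bco (gK φ) k).re)
        ≤ ∑ k ∈ Icc 1 n, 4 * vonMangoldt k :=
          Finset.sum_le_sum fun k _ => by
            have := (le_abs_self _).trans (hre k)
            linarith
      _ = 4 * ∑ k ∈ Icc 1 n, vonMangoldt k := by rw [Finset.mul_sum]
      _ ≤ 4 * (Real.log 4 + 4) * n := by linarith
  · refine (continuousOn_const.mul hG).add ((continuousOn_const.mul hK).add
      (continuousOn_const.mul ?_))
    refine Complex.continuous_conj.comp_continuousOn (hK.comp Complex.continuous_conj.continuousOn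
      fun s hs => ?_)
    simpa using hs
  · intro s hs
    have hs' : 1 < ((starRingEnd ℂ) s).re := by simpa using hs
    have e1 : (fun n : ℕ => ((2 * vonMangoldt n + (ζ * bco (gK φ) n).re : ℝ) : ℂ)) =
        ((2 : ℂ) • (fun n => ((vonMangoldt n : ℝ) : ℂ))) + ((ζ / 2) • bco (gK φ) +
          ((starRingEnd ℂ) ζ / 2) • (fun n => (starRingEnd ℂ) (bco (gK φ) n))) := by
      funext n
      simp only [Pi.add_apply, Pi.smul_apply, smul_eq_mul]
      push_cast
      rw [Complex.re_eq_add_conj]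
      simp only [map_mul]
      ring
    have s0 := ArithmeticFunction.LSeriesSummable_vonMangoldt (s := s) hs
    have s1 := bco_summable _ _ L1 s hs
    have s2 := summ_conj _ _ s1
    rw [e1, LSeries_add (s0.smul _) ((s1.smul _).add (s2.smul _)),
      LSeries_add (s1.smul _) (s2.smul _), LSeries_smul, LSeries_smul, LSeries_smul, hGs s hs,
      hKs s hs, hKs _ hs', LS_conj]
    simp only [map_sub, map_div₀, map_one, Complex.conj_conj, Complex.conj_ofReal]
    have h1 : s - 1 ≠ 0 := by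
      refine sub_ne_zero_of_ne ?_
      rintro rfl
      simp at hs
    push_cast
    rw [Complex.re_eq_add_conj]
    field_simp
    ring

theorem pntc2 {f : ℕ} {χ : DirichletCharacter ℂ f} (hF : Fd t c f χ) (hP : S_PID t c)
    (hL : S_LCON t c) (hN : S_LNV t c) {M : ℕ} (hM : 1 ≤ M) {φ : Qd t c → ℂ} (H : HCh M φ) :
    ∃ δ : ℝ, ((∃ z, φ z ≠ 0 ∧ φ z ≠ 1) ∧ δ = 0 ∨ (∀ z, φ z ≠ 0 → φ z = 1) ∧ δ = 1) ∧
    Tendsto (fun x : ℝ => (∑ n ∈ Icc 1 ⌊x⌋₊, (vonMangoldt n : ℂ) * gK φ n) / (x : ℂ)) atTop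
      (𝓝 (δ : ℂ)) := by
  have hD : t ^ 2 < 4 * c := by
    have h1 := hF.disc
    have h2 : (3 : ℤ) ≤ f := by exact_mod_cast hF.three
    linarith
  obtain ⟨δ, hδ, hA⟩ := taub3 hD hP hL hN hM H
  have L1 := lgK hD hP hM H
  refine ⟨δ, hδ, ?_⟩
  have h0 := hA 0 (by simp)
  have key : ∀ ζ : ℂ, ‖ζ‖ ≤ 1 → Tendsto (fun x : ℝ => (∑ k ∈ Icc 1 ⌊x⌋₊,
      (ζ * bco (gK φ) k).re) / x) atTop (𝓝 (ζ.re * δ)) := by
    intro ζ hζ
    have h1 := (hA ζ hζ).sub h0
    have e2 : 2 + ζ.re * δ - (2 + (0 : ℂ).re * δ) = ζ.re * δ := by simp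
    rw [e2] at h1
    refine h1.congr fun x => ?_
    rw [← sub_div, ← Finset.sum_sub_distrib]
    congr 1
    refine Finset.sum_congr rfl fun k _ => ?_
    simp
  have h1 := key 1 (by simp)
  have h2 := key (-I) (by simp)
  rw [Complex.one_re, one_mul] at h1
  have e3 : (-I).re * δ = 0 := by simp
  rw [e3] at h2
  have h3 := (Complex.continuous_ofReal.tendsto _).comp h1
  have h4 := ((Complex.continuous_ofReal.tendsto _).comp h2).mul_const I
  have h5 := h3.add h4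
  rw [Complex.ofReal_zero, zero_mul, add_zero] at h5
  refine h5.congr fun x => ?_
  simp only [Function.comp]
  have h6 : ∑ n ∈ Icc 1 ⌊x⌋₊, ((vonMangoldt n : ℝ) : ℂ) * gK φ n =
      ∑ k ∈ Icc 1 ⌊x⌋₊, bco (gK φ) k := rfl
  rw [h6]
  have h7 : ∑ k ∈ Icc 1 ⌊x⌋₊, ((1 : ℂ) * bco (gK φ) k).re =
      (∑ k ∈ Icc 1 ⌊x⌋₊, bco (gK φ) k).re := by
    rw [Complex.re_sum]
    exact Finset.sum_congr rfl fun k _ => by rw [one_mul]
  have h8 : ∑ k ∈ Icc 1 ⌊x⌋₊, (-I * bco (gK φ) k).re =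
      (∑ k ∈ Icc 1 ⌊x⌋₊, bco (gK φ) k).im := by
    rw [Complex.im_sum]
    exact Finset.sum_congr rfl fun k _ => by rw [Complex.mul_re]; simp
  rw [h7, h8]
  set z := ∑ k ∈ Icc 1 ⌊x⌋₊, bco (gK φ) k
  have h9 : z = (z.re : ℂ) + (z.im : ℂ) * I := (Complex.re_add_im z).symm
  conv_rhs => rw [h9]
  push_cast
  ring

end Pool.Agent.W251.EG
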