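import Pool.Agent.W251.EG.RC1
import Pool.Agent.W738.EG.PNTX
import Pool.Agent.W584.EG.Lmx

/-!
Project EG (helper251): the prime number theorem for residue classes of `Qd t c`.
-/

set_option autoImplicit false

namespace Pool.Agent.W251.EG

open Finset Filter Topology
open ArithmeticFunction (vonMangoldt)
open Pool.Agent.W78.EG
open Pool.Agent.W78.GA
open Pool.Agent.W357.EG (gK lgK)
open Pool.Agent.W738.EG (RM red red_eq red_surj isUnit_red PerM)

variable {t c : ℤ}

/-- the sum over the primes `n ≤ x` of `log n` times the coefficients -/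
noncomputable def SPr (a : ℕ → ℂ) (x : ℝ) : ℂ :=
  ∑ n ∈ (Icc 1 ⌊x⌋₊).filter Nat.Prime, (Real.log n : ℂ) * a n

lemma SPr_add (a b : ℕ → ℂ) (x : ℝ) : SPr (fun n => a n + b n) x = SPr a x + SPr b x := by
  unfold SPr
  rw [← sum_add_distrib]
  exact sum_congr rfl fun n _ => by ring

lemma SPr_smul (k : ℂ) (a : ℕ → ℂ) (x : ℝ) : SPr (fun n => k * a n) x = k * SPr a x := by
  unfold SPr
  rw [mul_sum]
  exact sum_congr rfl fun n _ => by ring

/-- prime powers are negligible -/
theorem lim_np (a : ℕ → ℂ) (C : ℝ) (ha : ∀ n, ‖a n‖ ≤ C) :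
    Tendsto (fun x : ℝ => (∑ n ∈ Icc 1 ⌊x⌋₊, (vonMangoldt n : ℂ) * a n - SPr a x) / (x : ℂ)) atTop
      (𝓝 0) := by
  have h0 : Tendsto (fun x : ℝ => C * (Chebyshev.psi x / x - Chebyshev.theta x / x)) atTop
      (𝓝 0) := by
    have := (Pool.Agent.Helper923.PNT.psi_div_tendsto.sub
      Pool.Agent.Helper923.PNT.theta_div_tendsto).const_mul C
    simpa using this
  refine squeeze_zero_norm' ?_ h0
  filter_upwards [eventually_gt_atTop 0] with x hx
  rw [norm_div, Complex.norm_real, Real.norm_eq_abs, abs_of_pos hx, ← sub_div, mul_div_assoc']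
  refine div_le_div_of_nonneg_right ?_ hx.le
  have hI : Icc 1 ⌊x⌋₊ = Ioc 0 ⌊x⌋₊ := by
    ext n
    simp only [mem_Icc, mem_Ioc]
    omega
  unfold SPr
  rw [sum_filter, ← sum_sub_distrib]
  refine (norm_sum_le _ _).trans ?_
  rw [Chebyshev.psi, Chebyshev.theta, hI, sum_filter, ← sum_sub_distrib, mul_sum]
  refine sum_le_sum fun n _ => ?_
  by_cases hp : n.Prime
  · rw [if_pos hp, if_pos hp, ArithmeticFunction.vonMangoldt_apply_prime hp]
    simp
  · rw [if_neg hp, if_neg hp, sub_zero, sub_zero, norm_mul, Complex.norm_real, Real.norm_eq_abs,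
      abs_of_nonneg ArithmeticFunction.vonMangoldt_nonneg, mul_comm]
    exact mul_le_mul_of_nonneg_right (ha n) ArithmeticFunction.vonMangoldt_nonneg

lemma gK_prime (hD : t ^ 2 < 4 * c) (hP : S_PID t c) {M : ℕ} (hM : 1 ≤ M) {φ : Qd t c → ℂ}
    (H : HCh M φ) {p : ℕ} (hp : p.Prime) : gK φ p = aL φ p := by
  have L1 := lgK hD hP hM H
  have h1 := L1.lg p hp.ne_zero
  rw [hp.divisors, sum_pair hp.one_lt.ne, ArithmeticFunction.vonMangoldt_apply_one,
    ArithmeticFunction.vonMangoldt_apply_prime hp, Nat.div_self hp.pos, L1.b1] at h1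
  have h2 : (Real.log p : ℂ) ≠ 0 := by
    have : 0 < Real.log p := Real.log_pos (by exact_mod_cast hp.one_lt)
    exact_mod_cast this.ne'
  refine mul_right_cancel₀ h2 ?_
  rw [h1]
  push_cast
  ring

/-- the prime number theorem for a character of the residue ring -/
theorem lim_char {f : ℕ} {χ : DirichletCharacter ℂ f} (hF : Fd t c f χ) (hP : S_PID t c)
    (hL : S_LCON t c) (hN : S_LNV t c) {M : ℕ} (hM : 1 ≤ M) (ψ : MulChar (RM t c M) ℂ) :
    open scoped Classical in
    Tendsto (fun x : ℝ => SPr (aL (fun z => ψ (red t c M z))) x / (x : ℂ)) atTop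
      (𝓝 (if ψ = 1 then 1 else 0)) := by
  classical
  have hD : t ^ 2 < 4 * c := by
    have h1 := hF.disc
    have h2 : (3 : ℤ) ≤ f := by exact_mod_cast hF.three
    linarith
  by_cases hi : ∀ u : Qd t c, nm u = 1 → ψ (red t c M u) = 1
  · have H : HCh M (fun z => ψ (red t c M z)) := by
      refine ⟨?_, ?_, ?_, hi, ?_⟩
      · intro z z' h1 h2
        rw [(red_eq (M := M)).2 ⟨h1, h2⟩]
      · intro z z'
        rw [map_mul, map_mul]
      · rw [map_one, map_one]
      · intro z
        rw [← isUnit_red (M := M)]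
        constructor
        · intro h1
          by_contra h2
          exact h1 (ψ.map_nonunit h2)
        · intro h1
          exact (h1.map ψ).ne_zero
    obtain ⟨δ, hδ, hlim⟩ := pntc2 hF hP hL hN hM H
    have L1 := lgK hD hP hM H
    have h1 := hlim.sub (lim_np (gK (fun z => ψ (red t c M z))) 2 L1.cd)
    rw [sub_zero] at h1
    have h2 : (δ : ℂ) = if ψ = 1 then 1 else 0 := by
      rcases hδ with ⟨⟨z, hz0, hz1⟩, h⟩ | ⟨hz, h⟩
      · rw [if_neg, h, Complex.ofReal_zero]
        rintro rfl
        apply hz1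
        have : IsUnit (red t c M z) := by
          by_contra h2
          exact hz0 ((1 : MulChar (RM t c M) ℂ).map_nonunit h2)
        exact MulChar.one_apply this
      · rw [if_pos, h, Complex.ofReal_one]
        ext u
        obtain ⟨z, hz'⟩ := red_surj M (u : RM t c M)
        rw [MulChar.one_apply_coe, ← hz']
        apply hz
        show ψ (red t c M z) ≠ 0
        rw [hz']
        exact (u.isUnit.map ψ).ne_zero
    rw [← h2]
    refine h1.congr fun x => ?_
    rw [← sub_div, sub_sub_cancel]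
    congr 1
    unfold SPr
    refine sum_congr rfl fun n hn => ?_
    rw [gK_prime hD hP hM H (mem_filter.1 hn).2]
  · push Not at hi
    obtain ⟨u, hu1, hu2⟩ := hi
    have h0 : ∀ n, aL (fun z => ψ (red t c M z)) n = 0 := by
      intro n
      have h1 : ∑ z ∈ (ball t c n).filter (fun z => nm z = n), ψ (red t c M z) =
          ψ (red t c M u) * ∑ z ∈ (ball t c n).filter (fun z => nm z = n), ψ (red t c M z) := by
        have hI1 : u * star u = 1 := by rw [mul_star_self' hD, hu1, Nat.cast_one]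
        have hI2 : star u * u = 1 := by rw [mul_comm]; exact hI1
        have hn2 : nm (star u) = 1 := by rw [nm_star, hu1]
        rw [mul_sum]
        symm
        apply sum_nbij' (fun z => u * z) (fun z => star u * z)
        · intro z hz
          rw [mem_filter, mem_ball hD] at hz ⊢
          rw [nm_mul, hu1, one_mul]; exact hz
        · intro z hz
          rw [mem_filter, mem_ball hD] at hz ⊢
          rw [nm_mul, hn2, one_mul]; exact hz
        · intro z _
          rw [← mul_assoc, hI2, one_mul]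
        · intro z _
          rw [← mul_assoc, hI1, one_mul]
        · intro z _
          rw [map_mul, map_mul]
      have h3 : (1 - ψ (red t c M u)) *
          ∑ z ∈ (ball t c n).filter (fun z => nm z = n), ψ (red t c M z) = 0 := by
        rw [sub_mul, one_mul, ← h1, sub_self]
      unfold aL
      rcases mul_eq_zero.1 h3 with h4 | h4
      · exact absurd (sub_eq_zero.1 h4).symm hu2
      · rw [h4, zero_div]
    rw [if_neg]
    · refine tendsto_const_nhds.congr fun x => ?_
      unfold SPr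
      simp only [h0, mul_zero, sum_const_zero, zero_div]
    · rintro rfl
      apply hu2
      refine MulChar.one_apply ?_
      have hI1 : u * star u = 1 := by rw [mul_star_self' hD, hu1, Nat.cast_one]
      exact (IsUnit.of_mul_eq_one _ hI1).map (red t c M)

/-- the mean value of a function on the reduced residue classes -/
noncomputable def mv (M : ℕ) (F : Qd t c → ℂ) : ℂ :=
  open scoped Classical in
  if h : M = 0 then 0 else
    haveI : NeZero M := ⟨h⟩
    haveI : Fintype (RM t c M)ˣ := Fintype.ofFinite _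
    (∑ a : (RM t c M)ˣ, F ((red_surj (t := t) (c := c) M).hasRightInverse.choose a)) /
      (Nat.card (RM t c M)ˣ : ℂ)

/-- the prime number theorem in residue classes -/
theorem lim_class {f : ℕ} {χ : DirichletCharacter ℂ f} (hF : Fd t c f χ) (hP : S_PID t c)
    (hL : S_LCON t c) (hN : S_LNV t c) {M : ℕ} (hM : 1 ≤ M) {F : Qd t c → ℂ} (hper : PerM M F)
    (h0 : ∀ z : Qd t c, ¬ IsCoprime z (M : Qd t c) → F z = 0) :
    Tendsto (fun x : ℝ => SPr (aL F) x / (x : ℂ)) atTop (𝓝 (mv M F)) := by
  classical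
  have hM0 : M ≠ 0 := by omega
  have : NeZero M := ⟨hM0⟩
  let _ : Fintype (RM t c M)ˣ := Fintype.ofFinite _
  have : Fintype (MulChar (RM t c M) ℂ) := Fintype.ofFinite _
  obtain ⟨rep, hrep'⟩ : ∃ rep, rep = (red_surj (t := t) (c := c) M).hasRightInverse.choose :=
    ⟨_, rfl⟩
  have hrep : Function.RightInverse rep (red t c M) := by
    rw [hrep']
    exact (red_surj (t := t) (c := c) M).hasRightInverse.choose_spec
  have horth : ∀ u : RM t c M, ∑ χ : MulChar (RM t c M) ℂ, χ u =
      if u = 1 then (Fintype.card (MulChar (RM t c M) ℂ) : ℂ) else 0 := by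
    intro u
    split_ifs with hu
    · rw [hu]; simp
    · obtain ⟨χ, hχ⟩ := MulChar.exists_apply_ne_one_of_hasEnoughRootsOfUnity (RM t c M) ℂ hu
      refine eq_zero_of_mul_eq_self_left hχ ?_
      simp only [Finset.mul_sum, ← MulChar.mul_apply]
      exact Fintype.sum_bijective _ (Group.mulLeft_bijective χ) _ _ fun χ' => rfl
  have hcard : (Fintype.card (MulChar (RM t c M) ℂ) : ℂ) ≠ 0 := by
    have : Nonempty (MulChar (RM t c M) ℂ) := ⟨1⟩
    exact_mod_cast Fintype.card_ne_zero
  have hKK : (Fintype.card (MulChar (RM t c M) ℂ) : ℂ) = (Nat.card (RM t c M)ˣ : ℂ) := by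
    rw [← MulChar.card_eq_card_units_of_hasEnoughRootsOfUnity (RM t c M) ℂ,
      Nat.card_eq_fintype_card]
  -- the expansion
  have hexp : ∀ z : Qd t c, F z = ∑ χ : MulChar (RM t c M) ℂ, ((Fintype.card
      (MulChar (RM t c M) ℂ) : ℂ)⁻¹ * ∑ a : (RM t c M)ˣ, F (rep a) *
        χ ((a⁻¹ : (RM t c M)ˣ) : RM t c M)) * χ (red t c M z) := by
    intro z
    have h1 : ∑ χ : MulChar (RM t c M) ℂ, ((Fintype.card
        (MulChar (RM t c M) ℂ) : ℂ)⁻¹ * ∑ a : (RM t c M)ˣ, F (rep a) *
        χ ((a⁻¹ : (RM t c M)ˣ) : RM t c M)) * χ (red t c M z) =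
        ∑ a : (RM t c M)ˣ, F (rep a) * ((Fintype.card (MulChar (RM t c M) ℂ) : ℂ)⁻¹ *
        ∑ χ : MulChar (RM t c M) ℂ, χ (((a⁻¹ : (RM t c M)ˣ) : RM t c M) * red t c M z)) := by
      simp_rw [mul_sum, sum_mul]
      rw [sum_comm]
      refine sum_congr rfl fun a _ => sum_congr rfl fun χ _ => ?_
      rw [map_mul]
      ring
    rw [h1]
    have h2 : ∀ a : (RM t c M)ˣ, (((a⁻¹ : (RM t c M)ˣ) : RM t c M) * red t c M z = 1) ↔
        red t c M z = (a : RM t c M) := by
      intro a
      constructor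
      · intro h3
        calc red t c M z = (a : RM t c M) * (((a⁻¹ : (RM t c M)ˣ) : RM t c M) * red t c M z) := by
              rw [← mul_assoc, Units.mul_inv, one_mul]
          _ = (a : RM t c M) := by rw [h3, mul_one]
      · intro h3
        rw [h3, Units.inv_mul]
    simp_rw [horth, h2]
    by_cases hz : IsUnit (red t c M z)
    · rw [Finset.sum_eq_single_of_mem hz.unit (Finset.mem_univ _)]
      · rw [IsUnit.unit_spec, if_pos rfl, inv_mul_cancel₀ hcard, mul_one]
        exact hper _ _ (hrep _).symm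
      · intro b _ hb
        rw [if_neg, mul_zero, mul_zero]
        intro h1
        apply hb
        apply Units.ext
        rw [IsUnit.unit_spec, h1]
    · rw [h0 z (fun h1 => hz (isUnit_red.2 h1))]
      symm
      apply Finset.sum_eq_zero
      intro b _
      rw [if_neg, mul_zero, mul_zero]
      intro h1
      exact hz (h1 ▸ b.isUnit)
  have haL : ∀ n, aL F n = ∑ χ : MulChar (RM t c M) ℂ, ((Fintype.card
      (MulChar (RM t c M) ℂ) : ℂ)⁻¹ * ∑ a : (RM t c M)ˣ, F (rep a) *
        χ ((a⁻¹ : (RM t c M)ˣ) : RM t c M)) * aL (fun z => χ (red t c M z)) n := by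
    intro n
    unfold aL
    simp_rw [← mul_div_assoc]
    rw [← sum_div]
    congr 1
    simp_rw [mul_sum (s := filter (fun z => nm z = n) (ball t c n))]
    rw [sum_comm]
    exact sum_congr rfl fun z _ => hexp z
  have hSP : ∀ x : ℝ, SPr (aL F) x / (x : ℂ) = ∑ χ : MulChar (RM t c M) ℂ, ((Fintype.card
      (MulChar (RM t c M) ℂ) : ℂ)⁻¹ * ∑ a : (RM t c M)ˣ, F (rep a) *
        χ ((a⁻¹ : (RM t c M)ˣ) : RM t c M)) * (SPr (aL (fun z => χ (red t c M z))) x / (x : ℂ)) := by
    intro x
    simp_rw [← mul_div_assoc]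
    rw [← sum_div]
    congr 1
    unfold SPr
    simp_rw [haL, mul_sum (s := (Icc 1 ⌊x⌋₊).filter Nat.Prime)]
    rw [sum_comm]
    refine sum_congr rfl fun n _ => ?_
    rw [mul_sum]
    exact sum_congr rfl fun χ _ => by ring
  simp_rw [hSP]
  have hlim := tendsto_finsetSum (s := (univ : Finset (MulChar (RM t c M) ℂ)))
    (fun χ _ => (lim_char hF hP hL hN hM χ).const_mul (((Fintype.card
      (MulChar (RM t c M) ℂ) : ℂ)⁻¹ * ∑ a : (RM t c M)ˣ, F (rep a) *
        χ ((a⁻¹ : (RM t c M)ˣ) : RM t c M))))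
  convert hlim using 2
  rw [Finset.sum_eq_single_of_mem (1 : MulChar (RM t c M) ℂ) (Finset.mem_univ _)]
  · rw [if_pos rfl, mul_one]
    have h5 : ∀ a : (RM t c M)ˣ, F (rep a) * (1 : MulChar (RM t c M) ℂ)
        ((a⁻¹ : (RM t c M)ˣ) : RM t c M) = F (rep a) := by
      intro a
      rw [MulChar.one_apply_coe, mul_one]
    simp_rw [h5]
    unfold mv
    rw [dif_neg hM0, ← hrep', ← hKK, div_eq_inv_mul]
  · intro χ _ hχ
    rw [if_neg hχ, mul_zero]

end Pool.Agent.W251.EG
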