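import Pool.Agent.W251.EG.RC2
import Pool.Agent.W973.EX.Amv
import Pool.Agent.W583.EX.Amv1

/-!
Project EG (helper251): completely multiplicative functions which depend on residue classes at the
primes are aperiodic or multiplicative on residue classes.
-/

set_option autoImplicit false

namespace Pool.Agent.W251.EG

open Finset Filter Topology
open ArithmeticFunction (vonMangoldt)
open Pool.Agent.W78.EG
open Pool.Agent.W78.GA
open Pool.Agent.W357.EG (gK lgK)
open Pool.Agent.W738.EG (RM red red_eq red_surj isUnit_red PerM)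
open Pool.Agent.W584.EG (rr aL_le sum_rr ball_card_le phi_le uc_pos sum_ball)

variable {t c : ℤ}

lemma re_lt_one {w : ℂ} (h : ‖w‖ ≤ 1) (h1 : w ≠ 1) : w.re < 1 := by
  by_contra hc
  push Not at hc
  have h2 : w.re ^ 2 + w.im ^ 2 ≤ 1 := by
    have h3 := Complex.normSq_eq_norm_sq w
    rw [Complex.normSq_apply] at h3
    have : ‖w‖ ^ 2 ≤ 1 := by
      have := norm_nonneg w
      nlinarith
    nlinarith
  have h4 : w.im ^ 2 ≤ 0 := by nlinarith
  have h5 : w.im = 0 := by
    have := le_antisymm h4 (sq_nonneg _)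
    exact pow_eq_zero_iff (two_ne_zero) |>.1 this
  have h6 : w.re = 1 := by
    rw [h5] at h2
    nlinarith
  exact h1 (Complex.ext (by simpa using h6) (by simpa using h5))

/-- mean values of functions of absolute value at most `1` -/
theorem mv_re_lt {M : ℕ} (hM : 1 ≤ M) {F : Qd t c → ℂ} (hper : PerM M F)
    (hb : ∀ z, ‖F z‖ ≤ 1) {z₀ : Qd t c} (hz : IsCoprime z₀ (M : Qd t c)) (hz1 : F z₀ ≠ 1) :
    (mv M F).re < 1 := by
  classical
  have hM0 : M ≠ 0 := by omega
  unfold mv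
  rw [dif_neg hM0]
  have : NeZero M := ⟨hM0⟩
  let _ : Fintype (RM t c M)ˣ := Fintype.ofFinite _
  obtain ⟨rep, hrep'⟩ : ∃ rep, rep = (red_surj (t := t) (c := c) M).hasRightInverse.choose :=
    ⟨_, rfl⟩
  have hrep : Function.RightInverse rep (red t c M) := by
    rw [hrep']
    exact (red_surj (t := t) (c := c) M).hasRightInverse.choose_spec
  rw [← hrep', Nat.card_eq_fintype_card]
  have hK : (0 : ℝ) < (Fintype.card (RM t c M)ˣ : ℝ) := by exact_mod_cast Fintype.card_pos
  have h1 : ((∑ a : (RM t c M)ˣ, F (rep a)) / (Fintype.card (RM t c M)ˣ : ℂ)).re =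
      (∑ a : (RM t c M)ˣ, (F (rep a)).re) / (Fintype.card (RM t c M)ˣ : ℝ) := by
    rw [← Complex.re_sum]
    have : (Fintype.card (RM t c M)ˣ : ℂ) = ((Fintype.card (RM t c M)ˣ : ℝ) : ℂ) := by
      push_cast; rfl
    rw [this, Complex.div_ofReal_re]
  rw [h1, div_lt_one hK]
  have h2 : (Fintype.card (RM t c M)ˣ : ℝ) = ∑ _a : (RM t c M)ˣ, (1 : ℝ) := by
    rw [sum_const, card_univ, nsmul_eq_mul, mul_one]
  rw [h2]
  have hu : IsUnit (red t c M z₀) := isUnit_red.2 hz
  refine sum_lt_sum (fun a _ => ?_) ⟨hu.unit, mem_univ _, ?_⟩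
  · exact (Complex.re_le_norm _).trans (hb _)
  · have h3 : F (rep (hu.unit : RM t c M)) = F z₀ := by
      apply hper
      rw [hrep, IsUnit.unit_spec]
    rw [h3]
    exact re_lt_one (hb _) hz1

/-- sums over the primes of functions which agree at the primes not dividing `M` -/
theorem lim_diff {a b : ℕ → ℂ} {M : ℕ} (hM : 1 ≤ M)
    (h : ∀ p : ℕ, p.Prime → ¬ p ∣ M → a p = b p) :
    Tendsto (fun x : ℝ => (SPr a x - SPr b x) / (x : ℂ)) atTop (𝓝 0) := by
  classical
  obtain ⟨C₀, hC₀⟩ : ∃ C₀ : ℝ, C₀ = ∑ p ∈ M.divisors, Real.log p * ‖a p - b p‖ := ⟨_, rfl⟩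
  have h0 : Tendsto (fun x : ℝ => C₀ / x) atTop (𝓝 0) := tendsto_const_nhds.div_atTop tendsto_id
  refine squeeze_zero_norm' ?_ h0
  filter_upwards [eventually_gt_atTop 0] with x hx
  rw [norm_div, Complex.norm_real, Real.norm_eq_abs, abs_of_pos hx]
  refine div_le_div_of_nonneg_right ?_ hx.le
  unfold SPr
  rw [← sum_sub_distrib]
  have h1 : ∀ n ∈ (Icc 1 ⌊x⌋₊).filter Nat.Prime, (Real.log n : ℂ) * a n - (Real.log n : ℂ) * b n =
      if n ∣ M then (Real.log n : ℂ) * (a n - b n) else 0 := by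
    intro n hn
    split_ifs with h2
    · ring
    · rw [h n (mem_filter.1 hn).2 h2, sub_self]
  rw [sum_congr rfl h1, ← sum_filter]
  refine (norm_sum_le _ _).trans ?_
  rw [hC₀]
  have h3 : ∀ n ∈ ((Icc 1 ⌊x⌋₊).filter Nat.Prime).filter (fun n => n ∣ M),
      ‖(Real.log n : ℂ) * (a n - b n)‖ = Real.log n * ‖a n - b n‖ := by
    intro n hn
    have h4 := (mem_Icc.1 (mem_filter.1 (mem_filter.1 hn).1).1).1
    rw [norm_mul, Complex.norm_real, Real.norm_eq_abs,
      abs_of_nonneg (Real.log_nonneg (by exact_mod_cast h4))]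
  rw [sum_congr rfl h3]
  refine sum_le_sum_of_subset_of_nonneg ?_ ?_
  · intro n hn
    rw [Nat.mem_divisors]
    exact ⟨(mem_filter.1 hn).2, by omega⟩
  · intro n hn _
    have h4 : 1 ≤ n := Nat.pos_of_mem_divisors hn
    exact mul_nonneg (Real.log_nonneg (by exact_mod_cast h4)) (norm_nonneg _)

lemma coprime_of_prime (hD : t ^ 2 < 4 * c) {z : Qd t c} {p M : ℕ} (hp : p.Prime) (hz : nm z = p)
    (hM : ¬ p ∣ M) : IsCoprime z (M : Qd t c) := by
  have h1 : Nat.Coprime p M := (Nat.Prime.coprime_iff_not_dvd hp).2 hM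
  have h2 : IsCoprime (p : ℤ) (M : ℤ) := Nat.isCoprime_iff_coprime.2 h1
  have h3 : IsCoprime ((p : ℕ) : Qd t c) ((M : ℕ) : Qd t c) := by
    have := h2.map (Int.castRingHom (Qd t c))
    simpa using this
  refine h3.of_isCoprime_of_dvd_left ?_
  rw [← hz, ← mul_star_self' hD]
  exact dvd_mul_right _ _

/-- primes in a residue class -/
theorem exists_prime {f : ℕ} {χ : DirichletCharacter ℂ f} (hF : Fd t c f χ) (hP : S_PID t c)
    (hL : S_LCON t c) (hN : S_LNV t c) {M : ℕ} (hM : 1 ≤ M) {z : Qd t c}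
    (hz : IsCoprime z (M : Qd t c)) (B : ℕ) :
    ∃ w : Qd t c, (nm w).Prime ∧ B < nm w ∧ red t c M w = red t c M z := by
  classical
  have hD : t ^ 2 < 4 * c := by
    have h1 := hF.disc
    have h2 : (3 : ℤ) ≤ f := by exact_mod_cast hF.three
    linarith
  by_contra hcon
  push Not at hcon
  have hM0 : M ≠ 0 := by omega
  obtain ⟨F, hFd⟩ : ∃ F : Qd t c → ℂ, F = fun w => if red t c M w = red t c M z then 1 else 0 :=
    ⟨_, rfl⟩
  have hper : PerM M F := by
    intro x y hxy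
    rw [hFd]
    simp only [hxy]
  have h0 : ∀ w : Qd t c, ¬ IsCoprime w (M : Qd t c) → F w = 0 := by
    intro w hw
    rw [hFd]
    simp only
    rw [if_neg]
    intro h1
    apply hw
    rw [← isUnit_red (M := M), h1, isUnit_red]
    exact hz
  have h1 := lim_class hF hP hL hN hM hper h0
  have h2 := lim_diff (a := aL F) (b := fun _ => 0) (M := B.factorial) (Nat.factorial_pos B) (by
    intro p hp hpB
    have hpB' : B < p := by
      by_contra hc
      push Not at hc
      exact hpB ((Nat.dvd_factorial hp.pos hc))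
    unfold aL
    rw [div_eq_zero_iff]
    left
    refine sum_eq_zero fun w hw => ?_
    rw [mem_filter] at hw
    rw [hFd]
    simp only
    rw [if_neg]
    exact hcon w (by rw [hw.2]; exact hp) (by rw [hw.2]; exact hpB'))
  have h3 : ∀ x : ℝ, SPr (fun _ => 0) x = 0 := by
    intro x
    unfold SPr
    simp
  simp only [h3, sub_zero] at h2
  have h4 := tendsto_nhds_unique h1 h2
  -- the mean value is positive
  unfold mv at h4
  rw [dif_neg hM0] at h4
  have : NeZero M := ⟨hM0⟩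
  let _ : Fintype (RM t c M)ˣ := Fintype.ofFinite _
  obtain ⟨rep, hrep'⟩ : ∃ rep, rep = (red_surj (t := t) (c := c) M).hasRightInverse.choose :=
    ⟨_, rfl⟩
  have hrep : Function.RightInverse rep (red t c M) := by
    rw [hrep']
    exact (red_surj (t := t) (c := c) M).hasRightInverse.choose_spec
  rw [← hrep', Nat.card_eq_fintype_card, div_eq_zero_iff] at h4
  have hu : IsUnit (red t c M z) := isUnit_red.2 hz
  rcases h4 with h4 | h4
  · have h5 : ∑ a : (RM t c M)ˣ, F (rep a) = 1 := by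
      rw [Finset.sum_eq_single_of_mem hu.unit (Finset.mem_univ _)]
      · rw [hFd]
        simp only
        rw [if_pos]
        rw [hrep, IsUnit.unit_spec]
      · intro b _ hb
        rw [hFd]
        simp only
        rw [if_neg]
        intro h6
        apply hb
        apply Units.ext
        rw [IsUnit.unit_spec, ← h6, hrep]
    rw [h5] at h4
    exact one_ne_zero h4
  · have : (Fintype.card (RM t c M)ˣ) ≠ 0 := Fintype.card_ne_zero
    exact this (by exact_mod_cast h4)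

/-- the hypotheses: `h` is completely multiplicative and its value at a prime `nm z` not dividing
`m` is given by the residue class of `z` modulo `m` -/
structure RC (m : ℕ) (E : Qd t c → ℂ) (h : ℕ → ℂ) : Prop where
  pos : 1 ≤ m
  per : PerM m E
  mul : ∀ x y : ℕ, x ≠ 0 → y ≠ 0 → h (x * y) = h x * h y
  nrm : ∀ n, ‖h n‖ = 1
  val : ∀ z : Qd t c, (nm z).Prime → ¬ nm z ∣ m → h (nm z) = E z

theorem lmE {f : ℕ} {χ : DirichletCharacter ℂ f} (hF : Fd t c f χ) (hP : S_PID t c)
    (hL : S_LCON t c) (hN : S_LNV t c) {m : ℕ} {E : Qd t c → ℂ} {h : ℕ → ℂ} (hh : RC m E h)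
    (hne : ∃ z w : Qd t c, IsCoprime z (m : Qd t c) ∧ IsCoprime w (m : Qd t c) ∧
      E (z * w) ≠ E z * E w) (M : ℕ) (φ : Qd t c → ℂ) (hM : 1 ≤ M) (H : HCh M φ) (ε : ℝ)
    (hε : 0 < ε) : ∃ X₀ : ℝ, ∀ X : ℝ, X₀ ≤ X → ‖∑ z ∈ ball t c X, h (nm z) * φ z‖ ≤ ε * X := by
  classical
  have hD : t ^ 2 < 4 * c := by
    have h1 := hF.disc
    have h2 : (3 : ℤ) ≤ f := by exact_mod_cast hF.three
    linarith
  have L1 := lgK hD hP hM H
  have hphi := phi_le hM H
  have hm := hh.pos
  -- the absolute value of `E`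
  have hE1 : ∀ z : Qd t c, IsCoprime z (m : Qd t c) → ‖E z‖ = 1 := by
    intro z hz
    obtain ⟨w, hw1, hw2, hw3⟩ := exists_prime hF hP hL hN hm hz m
    rw [← hh.per w z hw3, ← hh.val w hw1 (fun hd => by
      have := Nat.le_of_dvd (by omega) hd
      omega)]
    exact hh.nrm _
  obtain ⟨M', hM'⟩ : ∃ M' : ℕ, M' = M * m := ⟨_, rfl⟩
  have hM'1 : 1 ≤ M' := by rw [hM']; exact Nat.mul_pos hM hm
  have hcM : ∀ z : Qd t c, IsCoprime z (M' : Qd t c) → IsCoprime z (M : Qd t c) := by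
    intro z hz
    refine hz.of_isCoprime_of_dvd_right ?_
    rw [hM']
    push_cast
    exact dvd_mul_right _ _
  have hcm : ∀ z : Qd t c, IsCoprime z (M' : Qd t c) → IsCoprime z (m : Qd t c) := by
    intro z hz
    refine hz.of_isCoprime_of_dvd_right ?_
    rw [hM']
    push_cast
    exact dvd_mul_left _ _
  have hredm : ∀ z w : Qd t c, red t c M' z = red t c M' w → red t c m z = red t c m w := by
    intro z w hzw
    rw [red_eq] at hzw ⊢
    have : (m : ℤ) ∣ M' := by rw [hM']; push_cast; exact dvd_mul_left _ _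
    exact ⟨this.trans hzw.1, this.trans hzw.2⟩
  have hredM : ∀ z w : Qd t c, red t c M' z = red t c M' w → φ z = φ w := by
    intro z w hzw
    rw [red_eq] at hzw
    have : (M : ℤ) ∣ M' := by rw [hM']; push_cast; exact dvd_mul_right _ _
    exact H.per z w (this.trans hzw.1) (this.trans hzw.2)
  obtain ⟨Ψ, hΨ⟩ : ∃ Ψ : Qd t c → ℂ, Ψ = fun z => if IsCoprime z (M' : Qd t c) then E z * φ z
      else 0 := ⟨_, rfl⟩
  have hΨper : PerM M' Ψ := by
    intro z w hzw
    rw [hΨ]
    simp only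
    have h1 : IsCoprime z (M' : Qd t c) ↔ IsCoprime w (M' : Qd t c) := by
      rw [← isUnit_red, ← isUnit_red, hzw]
    rw [hh.per z w (hredm z w hzw), hredM z w hzw]
    simp only [h1]
  have hΨ0 : ∀ z : Qd t c, ¬ IsCoprime z (M' : Qd t c) → Ψ z = 0 := by
    intro z hz
    rw [hΨ]
    simp only
    rw [if_neg hz]
  have hΨ1 : ∀ z, ‖Ψ z‖ ≤ 1 := by
    intro z
    rw [hΨ]
    simp only
    split_ifs with hz
    · rw [norm_mul, hE1 z (hcm z hz), one_mul]
      exact hphi z
    · rw [norm_zero]; exact zero_le_one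
  -- `Ψ` is not constant
  have hΨne : ∃ z₀ : Qd t c, IsCoprime z₀ (M' : Qd t c) ∧ Ψ z₀ ≠ 1 := by
    by_contra hcon
    push Not at hcon
    obtain ⟨z, w, hz, hw, hzw⟩ := hne
    obtain ⟨z', hz1, hz2, hz3⟩ := exists_prime hF hP hL hN hm hz M'
    obtain ⟨w', hw1, hw2, hw3⟩ := exists_prime hF hP hL hN hm hw M'
    have hcz : IsCoprime z' (M' : Qd t c) := coprime_of_prime hD hz1 rfl (fun hd => by
      have := Nat.le_of_dvd (by omega) hd
      omega)
    have hcw : IsCoprime w' (M' : Qd t c) := coprime_of_prime hD hw1 rfl (fun hd => by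
      have := Nat.le_of_dvd (by omega) hd
      omega)
    have e1 := hcon z' hcz
    have e2 := hcon w' hcw
    have e3 := hcon (z' * w') (hcz.mul_left hcw)
    rw [hΨ] at e1 e2 e3
    simp only at e1 e2 e3
    rw [if_pos hcz] at e1
    rw [if_pos hcw] at e2
    rw [if_pos (hcz.mul_left hcw), H.mul] at e3
    apply hzw
    have h1 : E (z * w) = E (z' * w') := hh.per _ _ (by rw [map_mul, map_mul, hz3, hw3])
    have h2 : E z = E z' := hh.per _ _ hz3.symm
    have h3 : E w = E w' := hh.per _ _ hw3.symm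
    rw [h1, h2, h3]
    have n1 : φ z' ≠ 0 := (H.ne z').2 (hcM z' hcz)
    have n2 : φ w' ≠ 0 := (H.ne w').2 (hcM w' hcw)
    have h4 : E (z' * w') * (φ z' * φ w') = E z' * E w' * (φ z' * φ w') := by
      rw [e3]
      calc (1 : ℂ) = (E z' * φ z') * (E w' * φ w') := by rw [e1, e2, one_mul]
        _ = E z' * E w' * (φ z' * φ w') := by ring
    exact mul_right_cancel₀ (mul_ne_zero n1 n2) h4
  obtain ⟨z₀, hz₀, hz₁⟩ := hΨne
  have hκ := mv_re_lt hM'1 hΨper hΨ1 hz₀ hz₁
  -- the sums over primes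
  have hpr : ∀ p : ℕ, p.Prime → ¬ p ∣ M' → h p * aL φ p = aL Ψ p := by
    intro p hp hpM
    unfold aL
    rw [← mul_div_assoc, mul_sum]
    congr 1
    refine sum_congr rfl fun z hz => ?_
    have hz2 := (mem_filter.1 hz).2
    have hcz : IsCoprime z (M' : Qd t c) := coprime_of_prime hD hp hz2 hpM
    rw [hΨ]
    simp only
    rw [if_pos hcz, ← hh.val z (by rw [hz2]; exact hp) (by
      rw [hz2]
      intro hd
      exact hpM (hd.trans (by rw [hM']; exact dvd_mul_left _ _))), hz2]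
  have hlim : Tendsto (fun x : ℝ => (∑ n ∈ Icc 1 ⌊x⌋₊, h n * ((vonMangoldt n : ℂ) * gK φ n)) /
      (x : ℂ)) atTop (𝓝 (mv M' Ψ)) := by
    have h1 := lim_np (fun n => h n * gK φ n) 2 (by
      intro n
      rw [norm_mul, hh.nrm, one_mul]
      exact L1.cd n)
    have h2 := lim_class hF hP hL hN hM'1 hΨper hΨ0
    have h3 := lim_diff hM'1 (a := fun n => h n * aL φ n) (b := aL Ψ) hpr
    have h4 := (h1.add h3).add h2
    rw [zero_add, zero_add] at h4
    refine h4.congr fun x => ?_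
    have h5 : SPr (fun n => h n * gK φ n) x = SPr (fun n => h n * aL φ n) x := by
      unfold SPr
      refine sum_congr rfl fun n hn => ?_
      beta_reduce
      rw [gK_prime hD hP hM H (mem_filter.1 hn).2]
    have h6 : ∑ n ∈ Icc 1 ⌊x⌋₊, h n * ((vonMangoldt n : ℂ) * gK φ n) =
        ∑ n ∈ Icc 1 ⌊x⌋₊, (vonMangoldt n : ℂ) * (h n * gK φ n) :=
      sum_congr rfl fun n _ => by ring
    rw [h5, h6]
    ring
  -- the mean value
  obtain ⟨C, hC, hball⟩ := ball_card_le hD
  have hu : (1 : ℝ) ≤ uc t c := by exact_mod_cast uc_pos hD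
  have hrr : ∀ n : ℕ, ∑ k ∈ Icc 1 n, rr t c k ≤ max C 2 * n := by
    intro n
    rw [sum_rr hD]
    have h3 : ((ball t c (n : ℝ)).card : ℝ) / (uc t c : ℝ) ≤ ((ball t c (n : ℝ)).card : ℝ) :=
      div_le_self (Nat.cast_nonneg _) hu
    have h4 : C * n ≤ max C 2 * n :=
      mul_le_mul_of_nonneg_right (le_max_left _ _) (Nat.cast_nonneg _)
    linarith [hball n]
  have key : Tendsto (fun x : ℝ => (∑ n ∈ Icc 1 ⌊x⌋₊, h n * aL φ n) / (x : ℂ))
      atTop (𝓝 0) := by
    refine Pool.Agent.W973.EX.amv Pool.Agent.W583.EX.amv1 (fun n => h n * aL φ n)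
      (fun n => h n * ((vonMangoldt n : ℂ) * gK φ n)) (rr t c) (max C 2) (mv M' Ψ) ?_
    refine ⟨?_, ?_, ?_, ?_, hlim, hκ⟩
    · intro n
      rw [norm_mul, hh.nrm, one_mul]
      exact aL_le hD hphi n
    · exact hrr
    · intro n
      rw [norm_mul, hh.nrm, one_mul, norm_mul, Complex.norm_real, Real.norm_eq_abs,
        abs_of_nonneg ArithmeticFunction.vonMangoldt_nonneg, mul_comm]
      exact mul_le_mul_of_nonneg_right ((L1.cd n).trans (le_max_right _ _))
        ArithmeticFunction.vonMangoldt_nonneg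
    · intro n hn
      have hn0 : n ≠ 0 := by omega
      rw [mul_assoc, L1.lg n hn0, Finset.mul_sum]
      refine Finset.sum_congr rfl fun d hd => ?_
      obtain ⟨hdn, _⟩ := Nat.mem_divisors.1 hd
      obtain ⟨e, rfl⟩ := hdn
      have hd0 : d ≠ 0 := fun h => hn0 (by simp [h])
      have he0 : e ≠ 0 := fun h => hn0 (by simp [h])
      rw [Nat.mul_div_cancel_left e (Nat.pos_of_ne_zero hd0), hh.mul d e hd0 he0]
      ring
  have hup : (0 : ℝ) < uc t c := by linarith
  have e1 := key.eventually (Metric.ball_mem_nhds 0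
    (show (0 : ℝ) < ε / uc t c by positivity))
  obtain ⟨X₁, hX₁⟩ := Filter.eventually_atTop.1 e1
  refine ⟨max X₁ 1, fun X hX => ?_⟩
  have hXp : 0 < X := lt_of_lt_of_le one_pos ((le_max_right _ _).trans hX)
  have h3 := hX₁ X ((le_max_left _ _).trans hX)
  rw [dist_zero_right, norm_div, Complex.norm_real, Real.norm_eq_abs, abs_of_pos hXp,
    div_lt_iff₀ hXp] at h3
  rw [sum_ball hD]
  have huc : (uc t c : ℂ) ≠ 0 := by
    have := (uc_pos hD).ne'
    exact_mod_cast this
  have e3 : ∀ k ∈ Icc 1 ⌊X⌋₊, ∑ z ∈ (ball t c (k : ℝ)).filter (fun z => nm z = k),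
      h (nm z) * φ z = (uc t c : ℂ) * (h k * aL φ k) := by
    intro k _
    have : ∑ z ∈ (ball t c (k : ℝ)).filter (fun z => nm z = k), h (nm z) * φ z =
        h k * ∑ z ∈ (ball t c (k : ℝ)).filter (fun z => nm z = k), φ z := by
      rw [Finset.mul_sum]
      refine Finset.sum_congr rfl fun z hz => ?_
      rw [mem_filter] at hz
      rw [hz.2]
    rw [this]
    unfold aL
    field_simp
  rw [Finset.sum_congr rfl e3, ← Finset.mul_sum, norm_mul, Complex.norm_natCast]
  have h7 : (uc t c : ℝ) * ‖∑ k ∈ Icc 1 ⌊X⌋₊, h k * aL φ k‖ ≤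
      (uc t c : ℝ) * (ε / uc t c * X) := mul_le_mul_of_nonneg_left h3.le hup.le
  refine h7.trans (le_of_eq ?_)
  field_simp

/-- aperiodicity -/
theorem apdE {f : ℕ} {χ : DirichletCharacter ℂ f} (hF : Fd t c f χ) (hP : S_PID t c)
    (hL : S_LCON t c) (hN : S_LNV t c) {m : ℕ} {E : Qd t c → ℂ} {h : ℕ → ℂ} (hh : RC m E h)
    (hne : ∃ z w : Qd t c, IsCoprime z (m : Qd t c) ∧ IsCoprime w (m : Qd t c) ∧
      E (z * w) ≠ E z * E w) {N : ℕ} (hN1 : 1 ≤ N) (hpow : ∀ n, h n ^ N = 1) :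
    Apd N (fun z : Qd t c => h (nm z)) := by
  have hD : t ^ 2 < 4 * c := by
    have h1 := hF.disc
    have h2 : (3 : ℤ) ≤ f := by exact_mod_cast hF.three
    linarith
  have hmul : ∀ z w : Qd t c, z ≠ 0 → w ≠ 0 → h (nm (z * w)) = h (nm z) * h (nm w) := by
    intro z w hz hw
    rw [nm_mul, hh.mul _ _ (nm_pos hD hz).ne' (nm_pos hD hw).ne']
  refine ⟨⟨hN1, hmul, fun z => hpow _⟩, ?_⟩
  refine Pool.Agent.W738.EG.main hD hP ⟨hmul, fun z => hh.nrm _, ?_, ?_⟩
  · intro u z hu
    rw [nm_mul, hu, one_mul]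
  · exact fun M φ hM hφ => lmE hF hP hL hN hh hne M φ hM hφ

end Pool.Agent.W251.EG
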