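import Pool.Agent.W334.EG.Chrw
import Pool.Agent.W251.EX.Defs4

/-!
Project EG (helper251): means of `g₁(d) g₂(d')` over the pairs without small square divisors, for
completely multiplicative functions `g₁`, `g₂` (port of Pool.Agent.W924.EX.TW).
-/

set_option autoImplicit false

namespace Pool.Agent.W251.EG

open Finset Filter
open Pool.Agent.W78.GA (Qd nm dt ip dedge nm_mul nm_cast)
open Pool.Agent.W251.GX (Cm)
open Pool.Agent.W251.EX (Sqp)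
open Pool.Agent.W78.EG
open Pool.Agent.W334.EG (hD_of nmne norm_one_of RR RR_rel CC CC_iff SP_swap Win mem_Win finyw SW_eq)

variable {t c : ℤ} {f : ℕ} {χ : DirichletCharacter ℂ f}

/-- completely multiplicative functions `g₁`, `g₂` whose values are roots of unity, with
`g₁(p) g₂(p) = τ` for all primes `p` with `χ(p) ≠ -1` -/
structure FGc (χ : DirichletCharacter ℂ f) (N : ℕ) (τ : ℂ) (g₁ g₂ : ℕ → ℂ) : Prop where
  pos : 1 ≤ N
  m₁ : ∀ m n : ℕ, m ≠ 0 → n ≠ 0 → g₁ (m * n) = g₁ m * g₁ n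
  m₂ : ∀ m n : ℕ, m ≠ 0 → n ≠ 0 → g₂ (m * n) = g₂ m * g₂ n
  p₁ : ∀ n : ℕ, g₁ n ^ N = 1
  p₂ : ∀ n : ℕ, g₂ n ^ N = 1
  tw : ∀ p : ℕ, p.Prime → χ (p : ZMod f) ≠ -1 → g₁ p * g₂ p = τ

open scoped Classical in
/-- cancellation for `g₁(d) g₂(d')` over the pairs in windows without small square divisors, at
almost all scales -/
def S_TWc (t c : ℤ) (χ : DirichletCharacter ℂ f) : Prop := ∀ (N : ℕ) (τ : ℂ) (g₁ g₂ : ℕ → ℂ),
  FGc χ N τ g₁ g₂ →
  (Apd N (fun z : Qd t c => g₁ (nm z)) ∨ Apd N (fun z : Qd t c => g₂ (nm z))) →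
  ∀ q a r P : ℕ, 1 ≤ q →
  ∀ (s₁ s₂ s₃ s₄ : ℝ), 0 ≤ s₁ → s₁ < s₂ → s₂ ≤ 1 → 0 ≤ s₃ → s₃ < s₄ → s₄ ≤ 1 →
  ∀ ε : ℝ, 0 < ε → ∃ N₀ : ℕ, ∀ N' : ℕ, N₀ ≤ N' → ∑ X ∈ Icc 1 N', 1 / (X : ℝ) ^ 2 *
    ‖∑ p ∈ (SW t c q a r s₁ s₂ s₃ s₄ X).filter (Sqp P), g₁ p.1 * g₂ p.2‖ ≤ ε * Real.log N'

theorem fcm (hD : t ^ 2 < 4 * c) (N : ℕ) (g : ℕ → ℂ) (hN : 1 ≤ N)
    (mf : ∀ m n : ℕ, m ≠ 0 → n ≠ 0 → g (m * n) = g m * g n) (pf : ∀ n : ℕ, g n ^ N = 1) :
    Cm N (fun z : Qd t c => g (nm z)) where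
  pos := hN
  mul := by
    intro z w hz hw
    show g (nm (z * w)) = g (nm z) * g (nm w)
    rw [nm_mul]
    exact mf _ _ (nmne hD hz) (nmne hD hw)
  pow := by
    intro z
    exact pf _

/-- the primes which are norms -/
theorem chi_of_nm (hF : Fd t c f χ) (z : Qd t c) (h : (nm z).Prime) :
    χ ((nm z : ℕ) : ZMod f) ≠ -1 := by
  have hD := hD_of hF
  rw [← hF.root (nm z) h]
  obtain ⟨p, hp⟩ : ∃ p : ℕ, p = nm z := ⟨_, rfl⟩
  have hn : z.re ^ 2 + t * z.re * z.im + c * z.im ^ 2 = (p : ℤ) := by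
    rw [hp, nm_cast hD]
  rw [← hp] at h ⊢
  have hpz : Prime (p : ℤ) := Nat.prime_iff_prime_int.1 h
  have him : ¬ (p : ℤ) ∣ z.im := by
    intro hd
    have h1 : (p : ℤ) ∣ z.re ^ 2 := by
      have : z.re ^ 2 = p - z.im * (t * z.re + c * z.im) := by rw [← hn]; ring
      rw [this]
      exact dvd_sub (dvd_refl _) (hd.mul_right _)
    have h2 := hpz.dvd_of_dvd_pow h1
    obtain ⟨x, hx⟩ := h2
    obtain ⟨y, hy⟩ := hd
    rw [hx, hy] at hn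
    have h3 : (p : ℤ) * (p * (x ^ 2 + t * x * y + c * y ^ 2)) = p * 1 := by
      rw [mul_one]
      nth_rewrite 3 [← hn]
      ring
    have h4 := mul_left_cancel₀ hpz.ne_zero h3
    exact hpz.not_unit (IsUnit.of_mul_eq_one _ h4)
  have hco : IsCoprime z.im (p : ℤ) := (hpz.coprime_iff_not_dvd.2 him).symm
  obtain ⟨u, v, huv⟩ := hco
  refine ⟨-z.re * u, ?_⟩
  refine ⟨u ^ 2 + v * (t * z.re * u + c * (1 + u * z.im)), ?_⟩
  have h5 : v * (p : ℤ) = 1 - u * z.im := by linarith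
  have : (p : ℤ) * (u ^ 2 + v * (t * z.re * u + c * (1 + u * z.im))) =
      u ^ 2 * p + (v * p) * (t * z.re * u + c * (1 + u * z.im)) := by ring
  rw [this, h5, ← hn]
  ring

theorem fg_Pr (hF : Fd t c f χ) (N : ℕ) (τ : ℂ) (g₁ g₂ : ℕ → ℂ) (h : FGc χ N τ g₁ g₂) :
    Pr N τ (fun z : Qd t c => g₁ (nm z)) (fun z : Qd t c => g₂ (nm z)) :=
  ⟨fcm (hD_of hF) N g₁ h.pos h.m₁ h.p₁, fcm (hD_of hF) N g₂ h.pos h.m₂ h.p₂,
    fun π hπ => h.tw _ hπ (chi_of_nm hF π hπ)⟩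

theorem fg_swap {N : ℕ} {τ : ℂ} {g₁ g₂ : ℕ → ℂ} (h : FGc χ N τ g₁ g₂) : FGc χ N τ g₂ g₁ :=
  ⟨h.pos, h.m₂, h.m₁, h.p₂, h.p₁, fun p hp h4 => by rw [mul_comm]; exact h.tw p hp h4⟩

/-- the relation -/
def RS (q a r : ℕ) (sw : Bool) (P : ℕ) (v w : Qd t c) : Prop :=
  RR q a r sw v w ∧ Sqp P (nm v, nm w)

theorem rel_dvd {q q' : ℕ} (h : q ∣ q') (R : Qd t c → Qd t c → Prop) (hR : Rel q R) : Rel q' R where
  per := by
    intro v w v' w' h1 h2 h3 h4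
    have hz : (q : ℤ) ∣ (q' : ℤ) := Int.natCast_dvd_natCast.2 h
    exact hR.per v w v' w' (hz.trans h1) (hz.trans h2) (hz.trans h3) (hz.trans h4)
  dil := by
    intro π v w hc
    exact hR.dil π v w (Nat.Coprime.coprime_dvd_right h hc)

theorem sqp_rel (hD : t ^ 2 < 4 * c) (P m : ℕ) (hm : (P.factorial) ^ 2 ∣ m) :
    Rel m (fun v w : Qd t c => Sqp P (nm v, nm w)) where
  per := by
    intro v w v' w' h1 h2 h3 h4
    have key : ∀ l : ℕ, l ≤ P → l.Prime → (l ^ 2 ∣ nm v * nm w ↔ l ^ 2 ∣ nm v' * nm w') := by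
      intro l hl hp
      have hlm : l ^ 2 ∣ m := (pow_dvd_pow_of_dvd (Nat.dvd_factorial hp.pos hl) 2).trans hm
      have hz : ((l ^ 2 : ℕ) : ℤ) ∣ (m : ℤ) := Int.natCast_dvd_natCast.2 hlm
      have e1 : v.re ≡ v'.re [ZMOD ((l ^ 2 : ℕ) : ℤ)] :=
        (Int.modEq_iff_dvd.2 (hz.trans h1)).symm
      have e2 : v.im ≡ v'.im [ZMOD ((l ^ 2 : ℕ) : ℤ)] :=
        (Int.modEq_iff_dvd.2 (hz.trans h2)).symm
      have e3 : w.re ≡ w'.re [ZMOD ((l ^ 2 : ℕ) : ℤ)] :=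
        (Int.modEq_iff_dvd.2 (hz.trans h3)).symm
      have e4 : w.im ≡ w'.im [ZMOD ((l ^ 2 : ℕ) : ℤ)] :=
        (Int.modEq_iff_dvd.2 (hz.trans h4)).symm
      have hv : (nm v : ℤ) ≡ (nm v' : ℤ) [ZMOD ((l ^ 2 : ℕ) : ℤ)] := by
        rw [nm_cast hD, nm_cast hD]
        exact ((e1.pow 2).add ((e1.mul_left t).mul e2)).add ((e2.pow 2).mul_left c)
      have hw : (nm w : ℤ) ≡ (nm w' : ℤ) [ZMOD ((l ^ 2 : ℕ) : ℤ)] := by
        rw [nm_cast hD, nm_cast hD]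
        exact ((e3.pow 2).add ((e3.mul_left t).mul e4)).add ((e4.pow 2).mul_left c)
      have hp := hv.mul hw
      have hp' : nm v * nm w ≡ nm v' * nm w' [MOD l ^ 2] := by
        rw [← Int.natCast_modEq_iff]
        push_cast at hp ⊢
        exact hp
      exact hp'.dvd_iff (dvd_refl _)
    unfold Sqp
    constructor
    · intro h l hl hp hd
      exact h l hl hp ((key l hl hp).2 hd)
    · intro h l hl hp hd
      exact h l hl hp ((key l hl hp).1 hd)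
  dil := by
    intro π v w hc
    have key : ∀ l : ℕ, l ≤ P → l.Prime →
        (l ^ 2 ∣ nm (π * v) * nm (π * w) ↔ l ^ 2 ∣ nm v * nm w) := by
      intro l hl hp
      have hlm : l ^ 2 ∣ m := (pow_dvd_pow_of_dvd (Nat.dvd_factorial hp.pos hl) 2).trans hm
      have hc2 : Nat.Coprime (l ^ 2) (nm π ^ 2) :=
        Nat.Coprime.pow_right 2 (Nat.Coprime.coprime_dvd_right hlm hc).symm
      have e : nm (π * v) * nm (π * w) = nm π ^ 2 * (nm v * nm w) := by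
        rw [nm_mul, nm_mul]; ring
      rw [e]
      constructor
      · intro h
        exact hc2.dvd_of_dvd_mul_left h
      · intro h
        exact h.mul_left _
    unfold Sqp
    constructor
    · intro h l hl hp hd
      exact h l hl hp ((key l hl hp).2 hd)
    · intro h l hl hp hd
      exact h l hl hp ((key l hl hp).1 hd)

theorem RS_rel (hD : t ^ 2 < 4 * c) (q a r : ℕ) (sw : Bool) (P : ℕ) :
    Rel (q * P.factorial ^ 2) (RS (t := t) (c := c) q a r sw P) where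
  per := by
    intro v w v' w' h1 h2 h3 h4
    have k1 := (rel_dvd (dvd_mul_right q (P.factorial ^ 2)) _ (RR_rel hD q a r sw)).per
      v w v' w' h1 h2 h3 h4
    have k2 := (sqp_rel hD P (q * P.factorial ^ 2) (dvd_mul_left _ _)).per v w v' w' h1 h2 h3 h4
    unfold RS
    exact and_congr k1 k2
  dil := by
    intro π v w hc
    have k1 := (rel_dvd (dvd_mul_right q (P.factorial ^ 2)) _ (RR_rel hD q a r sw)).dil π v w hc
    have k2 := (sqp_rel hD P (q * P.factorial ^ 2) (dvd_mul_left _ _)).dil π v w hc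
    unfold RS
    exact and_congr k1 k2

open scoped Classical in
theorem corew (hF : Fd t c f χ) (h1 : S_MAINY t c χ) (h2 : S_CORR t c) (h3 : S_SCNT t c)
    (hb : ∀ (N : ℕ) (F : Qd t c → ℂ), Apd N F → ∀ (q : ℕ) (β : Qd t c), 1 ≤ q →
      Bt χ (cl q β (fun z => (F z).re)) ∧ Bt χ (cl q β (fun z => (F z).im)))
    (N : ℕ) (τ : ℂ) (g₁ g₂' : ℕ → ℂ) (hfg : FGc χ N τ g₁ g₂')
    (ha : Apd N (fun z : Qd t c => g₂' (nm z)))
    (q a r P : ℕ) (hq : 1 ≤ q) (sw : Bool) (s₁ s₂ s₃ s₄ : ℝ) (hs1 : 0 ≤ s₁) (hs12 : s₁ < s₂)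
    (hs2 : s₂ ≤ 1) (hs3 : 0 ≤ s₃) (hs34 : s₃ < s₄) (hs4 : s₄ ≤ 1) (ε : ℝ) (hε : 0 < ε) :
    ∃ N₀ : ℕ, ∀ N' : ℕ, N₀ ≤ N' →
    ∑ X ∈ Icc 1 N', 1 / (X : ℝ) ^ 2 * ‖∑ p ∈ Win t c s₁ s₂ s₃ s₄ X,
      (if CC t c q a r sw p.1 p.2 ∧ Sqp P (p.1, p.2) then g₁ p.1 * g₂' p.2 else 0)‖ ≤
      ε * Real.log N' := by
  have hD := hD_of hF
  have nf : ∀ n, ‖g₁ n‖ = 1 := fun n => norm_one_of N (g₁ n) hfg.pos (hfg.p₁ n)
  have ng : ∀ n, ‖g₂' n‖ = 1 := fun n => norm_one_of N (g₂' n) hfg.pos (hfg.p₂ n)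
  refine finyw hD h2 h3
      (fun x y => if CC t c q a r sw x y ∧ Sqp P (x, y) then g₁ x * g₂' y else 0) ?_
      s₁ s₂ s₃ s₄ hs1 hs12 hs3 hs34 ?_ ε hε
  · intro x y
    show ‖if CC t c q a r sw x y ∧ Sqp P (x, y) then _ else (0 : ℂ)‖ ≤ 1
    split_ifs
    · rw [norm_mul, nf, ng]
      simp
    · simp
  · intro σ₁ σ₃ hσ1 hσ12 hσ3 hσ34 ε hε
    have hq' : 1 ≤ q * P.factorial ^ 2 :=
      Nat.mul_pos hq (pow_pos (Nat.factorial_pos P) 2)
    obtain ⟨N₀, hN₀⟩ := h1 N τ (fun z : Qd t c => g₁ (nm z)) (fun z : Qd t c => g₂' (nm z))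
      (fg_Pr hF N τ g₁ g₂' hfg)
      (q * P.factorial ^ 2) hq' (fun β => hb N _ ha (q * P.factorial ^ 2) β hq')
      (RS q a r sw P) (RS_rel hD q a r sw P) σ₁ s₂ σ₃ s₄ hσ1 hσ12 hs2 hσ3 hσ34 hs4 ε hε
    refine ⟨N₀, fun N' hN => ?_⟩
    have hthis := hN₀ N' hN
    have hAG : ∀ X : ℕ, AG (fun e : Qd t c × Qd t c =>
        (fun x y => if CC t c q a r sw x y ∧ Sqp P (x, y) then
        g₁ x * g₂' y else 0) (nm e.1) (nm e.2)) σ₁ s₂ σ₃ s₄ (X : ℝ) =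
        AG (g2 (fun z : Qd t c => g₁ (nm z)) (fun z : Qd t c => g₂' (nm z))
          (RS q a r sw P)) σ₁ s₂ σ₃ s₄ (X : ℝ) := by
      intro X
      unfold AG
      refine sum_congr rfl fun e he => ?_
      rw [mem_filter] at he
      have hdt : dt e.1 e.2 = 1 := by
        have h3 := he.1
        unfold dedge at h3
        exact (mem_filter.1 h3).2
      unfold g2
      beta_reduce
      have hiff := CC_iff hF q a r sw e.1 e.2 hdt he.2.1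
      by_cases hc : CC t c q a r sw (nm e.1) (nm e.2) ∧ Sqp P (nm e.1, nm e.2)
      · have hR : RS q a r sw P e.1 e.2 := ⟨hiff.1 hc.1, hc.2⟩
        rw [if_pos hc, if_pos hR]
      · have hR : ¬ RS q a r sw P e.1 e.2 := fun h => hc ⟨hiff.2 h.1, h.2⟩
        rw [if_neg hc, if_neg hR]
    refine le_trans (le_of_eq (sum_congr rfl fun X _ => ?_)) hthis
    rw [hAG X]

theorem sqp_swap (P x y : ℕ) : Sqp P (x, y) ↔ Sqp P (y, x) := by
  unfold Sqp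
  simp only [mul_comm]

/-- TW -/
theorem twc (hF : Fd t c f χ) (h1 : S_MAINY t c χ) (h2 : S_CORR t c) (h3 : S_SCNT t c)
    (hb : ∀ (N : ℕ) (F : Qd t c → ℂ), Apd N F → ∀ (q : ℕ) (β : Qd t c), 1 ≤ q →
      Bt χ (cl q β (fun z => (F z).re)) ∧ Bt χ (cl q β (fun z => (F z).im))) :
    S_TWc t c χ := by
  classical
  intro N τ g₁ g₂' hfg hap q a r P hq s₁ s₂ s₃ s₄ hs1 hs12 hs2 hs3 hs34 hs4 ε hε
  rcases hap with ha | ha
  · obtain ⟨N₀, hN₀⟩ := corew hF h1 h2 h3 hb N τ g₂' g₁ (fg_swap hfg) ha q a r P hq true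
      s₃ s₄ s₁ s₂ hs3 hs34 hs4 hs1 hs12 hs2 ε hε
    refine ⟨N₀, fun N' hN => le_trans (le_of_eq (sum_congr rfl fun X _ => ?_)) (hN₀ N' hN)⟩
    congr 2
    rw [SW_eq, sum_filter, sum_filter]
    refine sum_nbij' Prod.swap Prod.swap ?_ ?_ (fun p _ => Prod.swap_swap p)
      (fun p _ => Prod.swap_swap p) fun p hp => ?_
    · intro p hp
      rw [mem_Win] at hp ⊢
      exact ⟨SP_swap hp.1, hp.2.2.2.1, hp.2.2.2.2, hp.2.1, hp.2.2.1⟩
    · intro p hp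
      rw [mem_Win] at hp ⊢
      exact ⟨SP_swap hp.1, hp.2.2.2.1, hp.2.2.2.2, hp.2.1, hp.2.2.1⟩
    have hiff : CC t c q a r true p.swap.1 p.swap.2 ↔ Cd t c q a r p := by
      unfold CC Cd
      simp only [if_true, Prod.fst_swap, Prod.snd_swap]
      constructor
      · rintro ⟨n, h0, h3, h4, h5⟩
        exact ⟨n, h0, by rw [mul_comm]; exact h3, h4, h5⟩
      · rintro ⟨n, h0, h3, h4, h5⟩
        exact ⟨n, h0, by rw [mul_comm]; exact h3, h4, h5⟩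
    have hs : Sqp P (p.swap.1, p.swap.2) ↔ Sqp P p := sqp_swap P _ _
    by_cases hc : CC t c q a r true p.swap.1 p.swap.2
    · by_cases hd : Sqp P (p.swap.1, p.swap.2)
      · have hcd := And.intro hc hd
        rw [if_pos (hiff.1 hc), if_pos (hs.1 hd), if_pos hcd]
        simp only [Prod.fst_swap, Prod.snd_swap]
        rw [mul_comm]
      · have hcd : ¬ (CC t c q a r true p.swap.1 p.swap.2 ∧ Sqp P (p.swap.1, p.swap.2)) :=
          fun h => hd h.2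
        rw [if_pos (hiff.1 hc), if_neg (fun h => hd (hs.2 h)), if_neg hcd]
    · have hcd : ¬ (CC t c q a r true p.swap.1 p.swap.2 ∧ Sqp P (p.swap.1, p.swap.2)) :=
        fun h => hc h.1
      rw [if_neg (fun h => hc (hiff.2 h)), if_neg hcd]
  · obtain ⟨N₀, hN₀⟩ := corew hF h1 h2 h3 hb N τ g₁ g₂' hfg ha q a r P hq false s₁ s₂ s₃ s₄
      hs1 hs12 hs2 hs3 hs34 hs4 ε hε
    refine ⟨N₀, fun N' hN => le_trans (le_of_eq (sum_congr rfl fun X _ => ?_)) (hN₀ N' hN)⟩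
    congr 2
    rw [SW_eq, sum_filter, sum_filter]
    refine sum_congr rfl fun p hp => ?_
    have hiff : CC t c q a r false p.1 p.2 ↔ Cd t c q a r p := by
      unfold CC Cd
      simp only [Bool.false_eq_true, if_false]
    by_cases hc : CC t c q a r false p.1 p.2
    · by_cases hd : Sqp P (p.1, p.2)
      · have hcd := And.intro hc hd
        rw [if_pos (hiff.1 hc), if_pos (show Sqp P p from hd), if_pos hcd]
      · have hcd : ¬ (CC t c q a r false p.1 p.2 ∧ Sqp P (p.1, p.2)) := fun h => hd h.2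
        rw [if_pos (hiff.1 hc), if_neg (show ¬ Sqp P p from hd), if_neg hcd]
    · have hcd : ¬ (CC t c q a r false p.1 p.2 ∧ Sqp P (p.1, p.2)) := fun h => hc h.1
      rw [if_neg (fun h => hc (hiff.2 h)), if_neg hcd]

end Pool.Agent.W251.EG
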